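import Mathlib
import Pool.Agent.MP_2a72d7_pr.Defs

/-! Definitions for the theorem on coordinate laws with bounded density. -/

namespace Pool.Agent.MP_2a72d7_pr.Sm

open MeasureTheory Matrix

/-- entries of the simple tensor -/
noncomputable def ten {n d : ℕ} (x : Fin d → Fin n → ℝ) : (Fin d → Fin n) → ℝ :=
  fun J => ∏ k, x k (J k)

/-- quadratic form -/
noncomputable def quad {ι : Type*} [Fintype ι] (B : Matrix ι ι ℝ) (v : ι → ℝ) : ℝ :=
  v ⬝ᵥ (B *ᵥ v)

/-- contraction of a matrix on `ℝⁿ ⊗ ℝ^κ` by the vector `x` of the first factor -/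
noncomputable def con {n : ℕ} {κ : Type*} (A : Matrix (Fin n × κ) (Fin n × κ) ℝ)
    (x : Fin n → ℝ) : Matrix κ κ ℝ :=
  Matrix.of fun j j' => ∑ i, ∑ i', x i * x i' * A (i, j) (i', j')

/-- geometric mean of the eigenvalues -/
noncomputable def gm {κ : Type*} [Fintype κ] [DecidableEq κ] (B : Matrix κ κ ℝ) : ℝ :=
  B.det ^ (1 / (Fintype.card κ : ℝ))

/-- regularised Gram matrix of the rows of `Y` -/
noncomputable def Rg {m : ℕ} {ι : Type*} [Fintype ι] (Y : Matrix (Fin m) ι ℝ) (η : ℝ) :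
    Matrix (Fin m) (Fin m) ℝ :=
  η • (1 : Matrix (Fin m) (Fin m) ℝ) + Y * Yᵀ

/-- regularised projection onto the orthogonal complement of the rows of `Y` -/
noncomputable def Pe {m : ℕ} {ι : Type*} [Fintype ι] [DecidableEq ι] (Y : Matrix (Fin m) ι ℝ)
    (η : ℝ) : Matrix ι ι ℝ :=
  1 - Yᵀ * (Rg Y η)⁻¹ * Y

/-- regularised dual vectors of the rows of `Y` -/
noncomputable def bvec {m : ℕ} {ι : Type*} [Fintype ι] (Y : Matrix (Fin m) ι ℝ) (η : ℝ)
    (j : Fin m) : ι → ℝ :=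
  fun J => ∑ k, (Rg Y η)⁻¹ j k * Y k J

/-- the matrix whose rows are the simple tensors -/
noncomputable def Zm {n d m : ℕ} (X : Fin m → Fin d → Fin n → ℝ) :
    Matrix (Fin m) (Fin d → Fin n) ℝ :=
  Matrix.of fun i J => ten (X i) J

/-- the law of one family of factors -/
noncomputable def tenLaw {n d : ℕ} (ν : Fin d → Fin n → Measure ℝ) :
    Measure (Fin d → Fin n → ℝ) :=
  Measure.pi fun k => Measure.pi (ν k)

end Pool.Agent.MP_2a72d7_pr.Sm
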