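import Mathlib
import Pool.Agent.MP_2a72d7_pr.Defs
import Pool.Agent.MP_2a72d7_pr.Sm.Base

namespace Pool.Agent.MP_2a72d7_pr.Sm

open MeasureTheory Matrix

/-- `L² ≥ 1`: `2 ≥ E exp(ξ²/L²) ≥ 1 + 1/L²`. -/
theorem one_le_L {L : ℝ} {ν : Measure ℝ} (h : Admissible L ν) : 1 ≤ L ^ 2 := by
  have hp := h.prob
  have hL := h.L_pos
  have hint : Integrable (fun x : ℝ => x ^ 2) ν := by
    by_contra hcon
    have h1 := h.unit_variance
    rw [integral_undef hcon] at h1
    exact zero_ne_one h1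
  have h2 : ∫⁻ x, ENNReal.ofReal (x ^ 2) ∂ν = 1 := by
    rw [← ofReal_integral_eq_lintegral_ofReal hint (Filter.Eventually.of_forall fun x => sq_nonneg x),
      h.unit_variance, ENNReal.ofReal_one]
  have h3 : ∫⁻ x, (1 + ENNReal.ofReal (1 / L ^ 2) * ENNReal.ofReal (x ^ 2)) ∂ν ≤ 2 := by
    refine le_trans (lintegral_mono fun x => ?_) h.subgaussian
    rw [← ENNReal.ofReal_mul (by positivity), ← ENNReal.ofReal_one, ← ENNReal.ofReal_add zero_le_one (by positivity)]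
    apply ENNReal.ofReal_le_ofReal
    have h4 := Real.add_one_le_exp (x ^ 2 / L ^ 2)
    have h5 : 1 / L ^ 2 * x ^ 2 = x ^ 2 / L ^ 2 := by ring
    rw [h5]
    linarith
  rw [lintegral_add_left measurable_const, lintegral_const_mul _ (by fun_prop), h2, mul_one, lintegral_const,
    measure_univ, mul_one] at h3
  have h6 : ENNReal.ofReal (1 + 1 / L ^ 2) ≤ ENNReal.ofReal 2 := by
    rw [ENNReal.ofReal_add zero_le_one (by positivity), ENNReal.ofReal_one]
    refine h3.trans (le_of_eq ?_)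
    norm_num
  rw [ENNReal.ofReal_le_ofReal_iff (by norm_num)] at h6
  have h7 : 1 / L ^ 2 ≤ 1 := by linarith
  rwa [div_le_one (by positivity)] at h7

/-- `E ξ^(2r) ≤ 2 r! L^(2r)` since `y^r/r! ≤ e^y`. -/
theorem mom_coord {L : ℝ} {ν : Measure ℝ} (h : Admissible L ν) (r : ℕ) :
    ∫⁻ x, ENNReal.ofReal (x ^ (2 * r)) ∂ν ≤ ENNReal.ofReal (2 * r.factorial * L ^ (2 * r)) := by
  have hL := h.L_pos
  have h1 : ∫⁻ x, ENNReal.ofReal (x ^ (2 * r)) ∂ν ≤
      ∫⁻ x, ENNReal.ofReal (r.factorial * L ^ (2 * r)) * ENNReal.ofReal (Real.exp (x ^ 2 / L ^ 2)) ∂ν := by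
    refine lintegral_mono fun x => ?_
    rw [← ENNReal.ofReal_mul (by positivity)]
    apply ENNReal.ofReal_le_ofReal
    have h2 := Real.pow_div_factorial_le_exp (x ^ 2 / L ^ 2) (by positivity) r
    have hf : (0 : ℝ) < r.factorial := by exact_mod_cast r.factorial_pos
    rw [div_le_iff₀ hf] at h2
    have h3 : x ^ (2 * r) = (x ^ 2 / L ^ 2) ^ r * L ^ (2 * r) := by
      rw [div_pow, ← pow_mul, ← pow_mul, div_mul_cancel₀]
      positivity
    rw [h3]
    calc (x ^ 2 / L ^ 2) ^ r * L ^ (2 * r) ≤ (Real.exp (x ^ 2 / L ^ 2) * r.factorial) * L ^ (2 * r) :=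
          mul_le_mul_of_nonneg_right h2 (by positivity)
      _ = r.factorial * L ^ (2 * r) * Real.exp (x ^ 2 / L ^ 2) := by ring
  refine h1.trans ?_
  rw [lintegral_const_mul _ (by fun_prop)]
  refine (mul_le_mul_right h.subgaussian _).trans (le_of_eq ?_)
  have h4 : (2 : ENNReal) = ENNReal.ofReal 2 := by norm_num
  rw [h4, ← ENNReal.ofReal_mul (by positivity)]
  congr 1
  ring

end Pool.Agent.MP_2a72d7_pr.Sm
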