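import Mathlib
import Pool.Agent.MP_2a72d7_pr.Defs
import Pool.Agent.MP_2a72d7_pr.Sm.Base

namespace Pool.Agent.MP_2a72d7_pr.Sm

open MeasureTheory Matrix

variable {n : ℕ} {κ : Type*} [Fintype κ] [DecidableEq κ]

/-- `⟨v, (con A x) v⟩ = ⟨x ⊗ v, A (x ⊗ v)⟩`. -/
theorem quad_con (A : Matrix (Fin n × κ) (Fin n × κ) ℝ) (x : Fin n → ℝ) (v : κ → ℝ) :
    quad (con A x) v = quad A (fun p => x p.1 * v p.2) := by
  have h1 : quad (con A x) v =
      ∑ j, ∑ j', ∑ i, ∑ i', (x i * v j) * (A (i, j) (i', j') * (x i' * v j')) := by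
    unfold quad con
    simp only [dotProduct, mulVec, of_apply, Finset.mul_sum, Finset.sum_mul]
    refine Finset.sum_congr rfl fun j _ => Finset.sum_congr rfl fun j' _ =>
      Finset.sum_congr rfl fun i _ => Finset.sum_congr rfl fun i' _ => ?_
    ring
  have h2 : quad A (fun p => x p.1 * v p.2) =
      ∑ i, ∑ j, ∑ i', ∑ j', (x i * v j) * (A (i, j) (i', j') * (x i' * v j')) := by
    unfold quad
    simp only [dotProduct, mulVec, Finset.mul_sum, Fintype.sum_prod_type]
  rw [h1, h2, Finset.sum_comm]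
  conv_rhs => rw [Finset.sum_comm]
  rw [Finset.sum_comm]
  refine Finset.sum_congr rfl fun j _ => ?_
  rw [Finset.sum_comm]
  refine Finset.sum_congr rfl fun i _ => ?_
  rw [Finset.sum_comm]

theorem con1_herm (A : Matrix (Fin n × κ) (Fin n × κ) ℝ) (hA : A.PosDef) (x : Fin n → ℝ) :
    (con A x).IsHermitian := by
  refine Matrix.IsHermitian.ext fun j j' => ?_
  rw [star_trivial]
  unfold con
  rw [of_apply, of_apply, Finset.sum_comm]
  refine Finset.sum_congr rfl fun i _ => Finset.sum_congr rfl fun i' _ => ?_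
  have h1 : A (i', j') (i, j) = A (i, j) (i', j') := by
    have h2 := hA.isHermitian.apply (i', j') (i, j)
    rw [star_trivial] at h2
    exact h2.symm
  rw [h1]
  ring

theorem con_posSemidef (A : Matrix (Fin n × κ) (Fin n × κ) ℝ) (hA : A.PosDef) (x : Fin n → ℝ) :
    (con A x).PosSemidef := by
  refine PosSemidef.of_dotProduct_mulVec_nonneg (con1_herm A hA x) fun v => ?_
  have h1 := quad_con A x v
  unfold quad at h1
  rw [star_trivial, h1]
  have h2 := hA.posSemidef.dotProduct_mulVec_nonneg (fun p => x p.1 * v p.2)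
  rw [star_trivial] at h2
  exact h2

theorem con_posDef (A : Matrix (Fin n × κ) (Fin n × κ) ℝ) (hA : A.PosDef) (x : Fin n → ℝ)
    (hx : x ≠ 0) : (con A x).PosDef := by
  refine PosDef.of_dotProduct_mulVec_pos (con1_herm A hA x) fun {v} hv => ?_
  have h1 := quad_con A x v
  unfold quad at h1
  rw [star_trivial, h1]
  have h3 : (fun p : Fin n × κ => x p.1 * v p.2) ≠ 0 := by
    obtain ⟨i, hi⟩ := Function.ne_iff.1 hx
    obtain ⟨j, hj⟩ := Function.ne_iff.1 hv
    intro h0
    have h4 := congrFun h0 (i, j)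
    rw [Pi.zero_apply] at h4
    rcases mul_eq_zero.1 h4 with h5 | h5
    · exact hi h5
    · exact hj h5
  have h2 := hA.dotProduct_mulVec_pos h3
  rw [star_trivial] at h2
  exact h2

/-- continuity (hence measurability) -/
theorem continuous_det_con (A : Matrix (Fin n × κ) (Fin n × κ) ℝ) :
    Continuous fun x => (con A x).det := by
  refine Continuous.matrix_det ?_
  refine continuous_matrix fun j j' => ?_
  unfold con
  simp only [of_apply]
  fun_prop

theorem gm_pos {κ : Type*} [Fintype κ] [DecidableEq κ] (B : Matrix κ κ ℝ) (hB : B.PosDef) :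
    0 < gm B := by
  exact Real.rpow_pos_of_pos hB.det_pos _

end Pool.Agent.MP_2a72d7_pr.Sm
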