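import Mathlib
import Pool.Agent.MP_2a72d7_pr.Defs
import Pool.Agent.MP_2a72d7_pr.Sm.Base

namespace Pool.Agent.MP_2a72d7_pr.Sm

open MeasureTheory Matrix

theorem andr_det {n : ℕ} (X : Fin n → Fin n → ℝ) :
    (Matrix.of X).det = ∑ σ : Equiv.Perm (Fin n), ((σ.sign : ℤ) : ℝ) * ∏ a, X a (σ a) := by
  rw [← Matrix.det_transpose, Matrix.det_apply']
  rfl

theorem andr_sq {n : ℕ} (X : Fin n → Fin n → ℝ) :
    ((Matrix.of X).det) ^ 2 = ∑ σ : Equiv.Perm (Fin n), ∑ ρ : Equiv.Perm (Fin n),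
      (((σ.sign : ℤ) : ℝ) * ((ρ.sign : ℤ) : ℝ)) * ∏ a, (X a (σ a) * X a (ρ a)) := by
  rw [sq, andr_det, Finset.sum_mul_sum]
  refine Finset.sum_congr rfl fun σ _ => Finset.sum_congr rfl fun ρ _ => ?_
  rw [Finset.prod_mul_distrib]
  ring

theorem andr_int2 {n : ℕ} (μ : Measure (Fin n → ℝ)) [IsFiniteMeasure μ]
    (h2 : ∀ i, Integrable (fun x => x i ^ 2) μ) (i j : Fin n) :
    Integrable (fun x : Fin n → ℝ => x i * x j) μ := by
  refine Integrable.mono' ((h2 i).add (h2 j)) ?_ ?_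
  · exact ((measurable_pi_apply i).mul (measurable_pi_apply j)).aestronglyMeasurable
  · refine Filter.Eventually.of_forall fun x => ?_
    simp only [Pi.add_apply, Real.norm_eq_abs]
    rw [abs_le]
    constructor <;> nlinarith [sq_nonneg (x i + x j), sq_nonneg (x i - x j), sq_nonneg (x i),
      sq_nonneg (x j)]

theorem andr_intprod {n : ℕ} (μ : Measure (Fin n → ℝ)) [IsFiniteMeasure μ]
    (h2 : ∀ i, Integrable (fun x => x i ^ 2) μ) (σ ρ : Equiv.Perm (Fin n)) :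
    Integrable (fun X : Fin n → Fin n → ℝ => ∏ a, (X a (σ a) * X a (ρ a)))
      (Measure.pi fun _ : Fin n => μ) := by
  exact Integrable.fintype_prod (μ := fun _ : Fin n => μ)
    (f := fun a (x : Fin n → ℝ) => x (σ a) * x (ρ a)) (fun a => andr_int2 μ h2 (σ a) (ρ a))

/-- integrability of the square of the determinant -/
theorem andreief_int {n : ℕ} (μ : Measure (Fin n → ℝ)) [IsFiniteMeasure μ]
    (h2 : ∀ i, Integrable (fun x => x i ^ 2) μ) :
    Integrable (fun X : Fin n → Fin n → ℝ => ((Matrix.of X).det) ^ 2)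
      (Measure.pi fun _ : Fin n => μ) := by
  simp only [andr_sq]
  refine integrable_finsetSum _ fun σ _ => integrable_finsetSum _ fun ρ _ => ?_
  exact (andr_intprod μ h2 σ ρ).const_mul _

/-- `E det(X)² = n! det(E xᵢxⱼ)` for independent rows with the law `μ` (not necessarily of mass
one).  Proof: expand both determinants (`Matrix.det_apply'`), `∫∏ₐ = ∏ₐ∫`
(`MeasureTheory.integral_fintype_prod_eq_prod`, `Integrable.fintype_prod`); the sum
`∑_{π,ρ} sgn π sgn ρ ∏ₐ M(π a, ρ a)` equals `∑_π det M` after the substitution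
`ρ = ρ' ∘ π` type reindexing (`Equiv.prod_comp`). -/
theorem andreief {n : ℕ} (μ : Measure (Fin n → ℝ)) [IsFiniteMeasure μ]
    (h2 : ∀ i, Integrable (fun x => x i ^ 2) μ) :
    ∫ X : Fin n → Fin n → ℝ, ((Matrix.of X).det) ^ 2 ∂(Measure.pi fun _ : Fin n => μ) =
      (n.factorial : ℝ) * (Matrix.of fun i j => ∫ x, x i * x j ∂μ : Matrix (Fin n) (Fin n) ℝ).det := by
  simp only [andr_sq]
  rw [integral_finsetSum _ (fun σ _ => integrable_finsetSum _ fun ρ _ =>
    (andr_intprod μ h2 σ ρ).const_mul _)]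
  have h1 : ∀ σ : Equiv.Perm (Fin n),
      (∫ X : Fin n → Fin n → ℝ, ∑ ρ : Equiv.Perm (Fin n),
        (((σ.sign : ℤ) : ℝ) * ((ρ.sign : ℤ) : ℝ)) * ∏ a, (X a (σ a) * X a (ρ a))
        ∂(Measure.pi fun _ : Fin n => μ)) =
      (Matrix.of fun i j => ∫ x, x i * x j ∂μ : Matrix (Fin n) (Fin n) ℝ).det := by
    intro σ
    rw [integral_finsetSum _ (fun ρ _ => (andr_intprod μ h2 σ ρ).const_mul _), andr_det]
    have h3 : ∀ ρ : Equiv.Perm (Fin n),
        (∫ X : Fin n → Fin n → ℝ, (((σ.sign : ℤ) : ℝ) * ((ρ.sign : ℤ) : ℝ)) *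
          ∏ a, (X a (σ a) * X a (ρ a)) ∂(Measure.pi fun _ : Fin n => μ)) =
        (((σ.sign : ℤ) : ℝ) * ((ρ.sign : ℤ) : ℝ)) * ∏ a, ∫ x, x (σ a) * x (ρ a) ∂μ := by
      intro ρ
      rw [integral_const_mul]
      congr 1
      exact integral_fintype_prod_eq_prod (μ := fun _ : Fin n => μ)
        (fun a (x : Fin n → ℝ) => x (σ a) * x (ρ a))
    simp only [h3]
    rw [← Equiv.sum_comp (Equiv.mulRight σ)]
    refine Finset.sum_congr rfl fun ρ _ => ?_
    simp only [Equiv.coe_mulRight, Equiv.Perm.sign_mul, Equiv.Perm.coe_mul, Function.comp_apply]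
    rw [Equiv.prod_comp σ (fun b => ∫ x, x b * x (ρ b) ∂μ)]
    have h4 : (((σ.sign : ℤ) : ℝ)) * ((σ.sign : ℤ) : ℝ) = 1 := by
      rcases Int.units_eq_one_or σ.sign with h | h <;> simp [h]
    push_cast
    linear_combination (((ρ.sign : ℤ) : ℝ) * ∏ b, ∫ x, x b * x (ρ b) ∂μ) * h4
  simp only [h1]
  rw [Finset.sum_const, Finset.card_univ, Fintype.card_perm, Fintype.card_fin, nsmul_eq_mul]

end Pool.Agent.MP_2a72d7_pr.Sm
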