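import Mathlib
import Pool.Agent.MP_2a72d7_pr.Defs
import Pool.Agent.MP_2a72d7_pr.Sm.Base

namespace Pool.Agent.MP_2a72d7_pr.Sm

open MeasureTheory Matrix

open scoped MatrixOrder in
theorem ell_factor {n : ℕ} (T : Matrix (Fin n) (Fin n) ℝ) (hT : T.PosDef) :
    ∃ B : Matrix (Fin n) (Fin n) ℝ, T⁻¹ = Bᵀ * B := by
  obtain ⟨B, hB⟩ := CStarAlgebra.nonneg_iff_eq_star_mul_self.mp hT.inv.posSemidef.nonneg
  refine ⟨B, hB.trans ?_⟩
  rw [star_eq_conjTranspose, conjTranspose_eq_transpose_of_trivial]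

theorem ell_ball (n : ℕ) :
    volume {y : Fin n → ℝ | ∑ i, y i ^ 2 ≤ 2 * n} ≤ ENNReal.ofReal ((Real.exp 1 * √(2 * Real.pi)) ^ n) := by
  have hm : MeasurableSet {y : Fin n → ℝ | ∑ i, y i ^ 2 ≤ 2 * n} :=
    measurableSet_le (Finset.measurable_sum _ fun i _ => (measurable_pi_apply i).pow_const 2) measurable_const
  have hg : Integrable fun x : ℝ => Real.exp 1 * Real.exp (-(1 / 2) * x ^ 2) :=
    (integrable_exp_neg_mul_sq (by norm_num : (0 : ℝ) < 1 / 2)).const_mul _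
  have hgi : ∫ x : ℝ, Real.exp 1 * Real.exp (-(1 / 2) * x ^ 2) = Real.exp 1 * √(2 * Real.pi) := by
    rw [integral_const_mul, integral_gaussian]
    congr 2
    field_simp
  have hG : Integrable fun y : Fin n → ℝ => ∏ i, (Real.exp 1 * Real.exp (-(1 / 2) * (y i) ^ 2)) :=
    Integrable.fintype_prod fun _ => hg
  have hGi : ∫ y : Fin n → ℝ, ∏ i, (Real.exp 1 * Real.exp (-(1 / 2) * (y i) ^ 2)) =
      (Real.exp 1 * √(2 * Real.pi)) ^ n := by
    rw [integral_fintype_prod_volume_eq_pow (fun x : ℝ => Real.exp 1 * Real.exp (-(1 / 2) * x ^ 2)), hgi,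
      Fintype.card_fin]
  have h1 : volume {y : Fin n → ℝ | ∑ i, y i ^ 2 ≤ 2 * n} ≤
      ∫⁻ y : Fin n → ℝ, ENNReal.ofReal (∏ i, (Real.exp 1 * Real.exp (-(1 / 2) * (y i) ^ 2))) := by
    rw [← lintegral_indicator_one hm]
    refine lintegral_mono fun y => ?_
    by_cases hy : y ∈ {y : Fin n → ℝ | ∑ i, y i ^ 2 ≤ 2 * n}
    · rw [Set.indicator_of_mem hy, Pi.one_apply, ← ENNReal.ofReal_one]
      apply ENNReal.ofReal_le_ofReal
      have e : ∏ i, (Real.exp 1 * Real.exp (-(1 / 2) * (y i) ^ 2)) = Real.exp (n - (1 / 2) * ∑ i, y i ^ 2) := by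
        rw [Finset.prod_mul_distrib, Finset.prod_const, Finset.card_univ, Fintype.card_fin, ← Real.exp_sum,
          ← Real.exp_nat_mul, ← Real.exp_add, ← Finset.mul_sum]
        congr 1
        ring
      rw [e]
      have hy' : ∑ i, y i ^ 2 ≤ 2 * n := hy
      exact Real.one_le_exp (by linarith)
    · rw [Set.indicator_of_notMem hy]
      exact bot_le
  rw [← ofReal_integral_eq_lintegral_ofReal hG (Filter.Eventually.of_forall fun y => by
    show (0 : ℝ) ≤ ∏ i, (Real.exp 1 * Real.exp (-(1 / 2) * (y i) ^ 2))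
    positivity), hGi] at h1
  exact h1

/-- `vol {x : xᵀ T⁻¹ x ≤ 2n} ≤ (e √(2π))^n √(det T)`.  Proof: `T = S Sᵀ`, `x = S y`, the volume
is `|det S| = √(det T)` times the volume of `{y : ∑ yᵢ² ≤ 2n}`, and
`1_{∑ yᵢ² ≤ 2n} ≤ exp(n - ∑ yᵢ²/2)`, whose integral is `eⁿ (√(2π))ⁿ`
(`integral_gaussian`, product). -/
theorem vol_ellipsoid {n : ℕ} (T : Matrix (Fin n) (Fin n) ℝ) (hT : T.PosDef) :
    volume {x : Fin n → ℝ | quad T⁻¹ x ≤ 2 * n} ≤
      ENNReal.ofReal ((Real.exp 1 * √(2 * Real.pi)) ^ n * √T.det) := by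
  obtain ⟨B, hB⟩ := ell_factor T hT
  have hTd : 0 < T.det := hT.det_pos
  have hTu : IsUnit T.det := hTd.ne'.isUnit
  have hdet : T.det⁻¹ = B.det ^ 2 := by
    have h1 := congrArg Matrix.det hB
    rw [Matrix.det_mul, Matrix.det_transpose, Matrix.det_nonsing_inv, Ring.inverse_eq_inv'] at h1
    rw [h1]
    ring
  have hBd : B.det ≠ 0 := by
    intro h
    rw [h, zero_pow two_ne_zero] at hdet
    exact (inv_ne_zero hTd.ne') hdet
  have hset : {x : Fin n → ℝ | quad T⁻¹ x ≤ 2 * n} =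
      (Matrix.toLin' B) ⁻¹' {y : Fin n → ℝ | ∑ i, y i ^ 2 ≤ 2 * n} := by
    ext x
    have h1 : quad T⁻¹ x = ∑ i, (Matrix.toLin' B x) i ^ 2 := by
      unfold quad
      rw [hB, ← Matrix.mulVec_mulVec, Matrix.dotProduct_mulVec, Matrix.vecMul_transpose, Matrix.toLin'_apply]
      simp only [dotProduct, sq]
    show quad T⁻¹ x ≤ 2 * n ↔ ∑ i, (Matrix.toLin' B x) i ^ 2 ≤ 2 * n
    rw [h1]
  rw [hset, Measure.addHaar_preimage_linearMap volume (by rw [LinearMap.det_toLin']; exact hBd), LinearMap.det_toLin']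
  have habs : |B.det⁻¹| = √T.det := by
    rw [← Real.sqrt_sq_eq_abs, inv_pow, ← hdet, inv_inv]
  rw [habs]
  calc ENNReal.ofReal (√T.det) * volume {y : Fin n → ℝ | ∑ i, y i ^ 2 ≤ 2 * n}
      ≤ ENNReal.ofReal (√T.det) * ENNReal.ofReal ((Real.exp 1 * √(2 * Real.pi)) ^ n) :=
        mul_le_mul_right (ell_ball n) _
    _ = _ := by
      rw [← ENNReal.ofReal_mul (Real.sqrt_nonneg _), mul_comm]

end Pool.Agent.MP_2a72d7_pr.Sm
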