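import Mathlib
import Pool.Agent.MP_2a72d7_pr.Defs
import Pool.Agent.MP_2a72d7_pr.Sm.Base
import Pool.Agent.MP_2a72d7_pr.Sm.P_andr
import Pool.Agent.MP_2a72d7_pr.Sm.P_ell

namespace Pool.Agent.MP_2a72d7_pr.Sm

open MeasureTheory Matrix

theorem ball_const : Real.exp 1 * √(2 * Real.pi) * √(Real.exp 1) ≤ 12 := by
  have h1 : Real.exp 1 < 2.7182818286 := Real.exp_one_lt_d9
  have h0 : 0 < Real.exp 1 := Real.exp_pos 1
  have hpi : Real.pi < 3.15 := Real.pi_lt_d2
  have hpi0 := Real.pi_pos
  have h2 : (Real.exp 1 * √(2 * Real.pi) * √(Real.exp 1)) ^ 2 ≤ 12 ^ 2 := by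
    rw [mul_pow, mul_pow, Real.sq_sqrt (by positivity), Real.sq_sqrt h0.le]
    have h3 : Real.exp 1 ^ 2 * (2 * Real.pi) * Real.exp 1 = 2 * Real.pi * Real.exp 1 ^ 3 := by ring
    rw [h3]
    have h4 : Real.exp 1 ^ 3 ≤ (2.7182818286 : ℝ) ^ 3 := pow_le_pow_left₀ h0.le h1.le 3
    calc 2 * Real.pi * Real.exp 1 ^ 3 ≤ 2 * 3.15 * (2.7182818286 : ℝ) ^ 3 := by
          apply mul_le_mul _ h4 (by positivity) (by norm_num)
          linarith
      _ ≤ 12 ^ 2 := by norm_num
  exact le_of_sq_le_sq h2 (by norm_num) |>.trans le_rfl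

theorem ball_int {n : ℕ} (μ : Measure (Fin n → ℝ)) [IsFiniteMeasure μ]
    (h2 : ∀ i, Integrable (fun x => x i ^ 2) μ) (i j : Fin n) :
    Integrable (fun x : Fin n → ℝ => x i * x j) μ := by
  refine Integrable.mono' ((h2 i).add (h2 j)) ?_ ?_
  · exact ((measurable_pi_apply i).mul (measurable_pi_apply j)).aestronglyMeasurable
  · refine Filter.Eventually.of_forall fun x => ?_
    simp only [Pi.add_apply, Real.norm_eq_abs, abs_le]
    constructor <;> nlinarith [sq_nonneg (x i - x j), sq_nonneg (x i + x j), sq_nonneg (x i),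
      sq_nonneg (x j)]

theorem ball_psd {n : ℕ} (μ : Measure (Fin n → ℝ)) [IsFiniteMeasure μ]
    (h2 : ∀ i, Integrable (fun x => x i ^ 2) μ) :
    (Matrix.of fun i j => ∫ x, x i * x j ∂μ : Matrix (Fin n) (Fin n) ℝ).PosSemidef := by
  rw [Matrix.posSemidef_iff_dotProduct_mulVec]
  refine ⟨?_, ?_⟩
  · ext i j
    simp only [Matrix.conjTranspose_apply, Matrix.of_apply, star_trivial]
    congr 1
    ext x
    ring
  · intro v
    have : star v ⬝ᵥ (Matrix.of fun i j => ∫ x, x i * x j ∂μ : Matrix (Fin n) (Fin n) ℝ) *ᵥ v =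
        ∫ x, (∑ i, v i * x i) ^ 2 ∂μ := by
      have h3 : ∀ x : Fin n → ℝ, (∑ i, v i * x i) ^ 2 =
          ∑ i, ∑ j, (v i * v j) * (x i * x j) := by
        intro x
        rw [sq, Finset.sum_mul_sum]
        refine Finset.sum_congr rfl fun i _ => Finset.sum_congr rfl fun j _ => by ring
      simp_rw [h3]
      rw [integral_finsetSum _ (fun i _ => integrable_finsetSum _ fun j _ =>
        (ball_int μ h2 i j).const_mul _)]
      simp only [dotProduct, mulVec, star_trivial, Pi.star_apply, Matrix.of_apply]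
      refine Finset.sum_congr rfl fun i _ => ?_
      rw [integral_finsetSum _ (fun j _ => (ball_int μ h2 i j).const_mul _), Finset.mul_sum]
      refine Finset.sum_congr rfl fun j _ => ?_
      rw [integral_const_mul]
      ring
    rw [this]
    exact integral_nonneg fun x => sq_nonneg _

theorem det_ball {n : ℕ} (hn : 0 < n) (μ : Measure (Fin n → ℝ)) [IsProbabilityMeasure μ]
    (M : ℝ) (hM : 0 < M)
    (hμ : ∀ S, MeasurableSet S → μ S ≤ ENNReal.ofReal (M ^ n) * volume S)
    (h2 : ∀ i, Integrable (fun x => x i ^ 2) μ) (K : Set (Fin n → ℝ)) (hK : MeasurableSet K)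
    (D : ℝ) (hD : 0 < D)
    (h : ∀ X : Fin n → Fin n → ℝ, (∀ a, X a ∈ K) → ((Matrix.of X).det) ^ 2 ≤ D) :
    μ K ≤ ENNReal.ofReal (4 * (12 * M) ^ n * √(D / n ^ n)) := by
  by_cases hp0 : μ K = 0
  · rw [hp0]; exact bot_le
  set p : ℝ := μ.real K with hp
  have hppos : 0 < p := by
    rw [hp, measureReal_def, ENNReal.toReal_pos_iff]
    exact ⟨pos_iff_ne_zero.mpr hp0, measure_lt_top μ K⟩
  have hp1 : (μ.restrict K).real Set.univ = p := by
    rw [measureReal_restrict_apply MeasurableSet.univ, Set.univ_inter]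
  have h2K : ∀ i, Integrable (fun x : Fin n → ℝ => x i ^ 2) (μ.restrict K) := fun i =>
    (h2 i).restrict
  set M0 : Matrix (Fin n) (Fin n) ℝ := Matrix.of fun i j => ∫ x, x i * x j ∂(μ.restrict K)
    with hM0
  have hM0psd : M0.PosSemidef := ball_psd (μ.restrict K) h2K
  -- step 1
  have hstep1 : (n.factorial : ℝ) * M0.det ≤ D * p ^ n := by
    rw [hM0, ← andreief (μ.restrict K) h2K]
    have hint := andreief_int (μ.restrict K) h2K
    have hpi : (Measure.pi fun _ : Fin n => μ.restrict K) =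
        (Measure.pi fun _ : Fin n => μ).restrict (Set.univ.pi fun _ => K) := by
      rw [Measure.restrict_pi_pi]
    have hle : ∫ X : Fin n → Fin n → ℝ, ((Matrix.of X).det) ^ 2
        ∂(Measure.pi fun _ : Fin n => μ.restrict K) ≤
        ∫ X : Fin n → Fin n → ℝ, D ∂(Measure.pi fun _ : Fin n => μ.restrict K) := by
      apply integral_mono_ae hint (integrable_const D)
      rw [hpi]
      have hmeas : MeasurableSet (Set.univ.pi fun _ : Fin n => K) :=
        MeasurableSet.univ_pi fun _ => hK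
      filter_upwards [ae_restrict_mem hmeas] with X hX
      exact h X fun a => hX a (Set.mem_univ a)
    refine hle.trans ?_
    rw [integral_const, smul_eq_mul]
    have : (Measure.pi fun _ : Fin n => μ.restrict K).real Set.univ = p ^ n := by
      rw [measureReal_def, Measure.pi_univ, Finset.prod_const, Finset.card_univ,
        Fintype.card_fin, ENNReal.toReal_pow, ← measureReal_def, hp1]
    rw [this]
    linarith [mul_comm (p ^ n) D]
  set M' : Matrix (Fin n) (Fin n) ℝ := p⁻¹ • M0 with hM'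
  have hM'psd : M'.PosSemidef := hM0psd.smul (inv_pos.mpr hppos).le
  have hfac : (0 : ℝ) < n.factorial := by exact_mod_cast n.factorial_pos
  have hdet' : M'.det ≤ D / n.factorial := by
    rw [hM', Matrix.det_smul, Fintype.card_fin, le_div_iff₀ hfac]
    have : p⁻¹ ^ n * (p ^ n) = 1 := by
      rw [← mul_pow, inv_mul_cancel₀ hppos.ne', one_pow]
    calc p⁻¹ ^ n * M0.det * n.factorial = p⁻¹ ^ n * (n.factorial * M0.det) := by ring
      _ ≤ p⁻¹ ^ n * (D * p ^ n) := mul_le_mul_of_nonneg_left hstep1 (by positivity)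
      _ = D := by rw [← mul_assoc, mul_comm (p⁻¹ ^ n) D, mul_assoc, this, mul_one]
  -- step 2
  obtain ⟨δ, hδ, hdetδ⟩ : ∃ δ : ℝ, 0 < δ ∧
      (M' + δ • (1 : Matrix (Fin n) (Fin n) ℝ)).det < 2 * D / n.factorial := by
    have hc : Continuous fun δ : ℝ => (M' + δ • (1 : Matrix (Fin n) (Fin n) ℝ)).det := by
      apply Continuous.matrix_det
      fun_prop
    have h0 : (M' + (0 : ℝ) • (1 : Matrix (Fin n) (Fin n) ℝ)).det < 2 * D / n.factorial := by
      rw [zero_smul, add_zero]
      refine hdet'.trans_lt ?_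
      apply div_lt_div_of_pos_right _ hfac
      linarith
    have hev := hc.continuousAt.eventually_lt (continuousAt_const (y := 2 * D / n.factorial)) h0
    obtain ⟨r, hr, hball⟩ := Metric.eventually_nhds_iff.mp hev
    refine ⟨r / 2, by linarith, hball ?_⟩
    rw [Real.dist_eq, sub_zero, abs_of_pos (by linarith)]
    linarith
  set T : Matrix (Fin n) (Fin n) ℝ := M' + δ • (1 : Matrix (Fin n) (Fin n) ℝ) with hT
  have hTpd : T.PosDef := by
    have h1 : (δ • (1 : Matrix (Fin n) (Fin n) ℝ)).PosDef := Matrix.PosDef.one.smul hδ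
    exact Matrix.PosDef.posSemidef_add hM'psd h1
  -- step 4
  have hquad : ∀ x : Fin n → ℝ, quad T⁻¹ x = ∑ i, ∑ j, T⁻¹ i j * (x i * x j) := by
    intro x
    simp only [quad, dotProduct, mulVec, Finset.mul_sum]
    refine Finset.sum_congr rfl fun i _ => Finset.sum_congr rfl fun j _ => by ring
  have hqint : Integrable (fun x : Fin n → ℝ => quad T⁻¹ x) (μ.restrict K) := by
    simp_rw [hquad]
    exact integrable_finsetSum _ fun i _ => integrable_finsetSum _ fun j _ =>
      (ball_int (μ.restrict K) h2K i j).const_mul _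
  have hqnn : ∀ x : Fin n → ℝ, 0 ≤ quad T⁻¹ x := by
    intro x
    have := (Matrix.posSemidef_iff_dotProduct_mulVec.mp hTpd.inv.posSemidef).2 x
    simpa [quad] using this
  have hintval : ∫ x, quad T⁻¹ x ∂(μ.restrict K) ≤ p * n := by
    have e1 : ∫ x, quad T⁻¹ x ∂(μ.restrict K) = ∑ i, ∑ j, T⁻¹ i j * M0 i j := by
      simp_rw [hquad]
      rw [integral_finsetSum _ (fun i _ => integrable_finsetSum _ fun j _ =>
        (ball_int (μ.restrict K) h2K i j).const_mul _)]
      refine Finset.sum_congr rfl fun i _ => ?_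
      rw [integral_finsetSum _ (fun j _ => (ball_int (μ.restrict K) h2K i j).const_mul _)]
      refine Finset.sum_congr rfl fun j _ => ?_
      rw [integral_const_mul]
      rfl
    have hM0T : M0 = p • M' := by
      rw [hM', smul_smul, mul_inv_cancel₀ hppos.ne', one_smul]
    have e2 : ∑ i, ∑ j, T⁻¹ i j * M0 i j = p * (T⁻¹ * M').trace := by
      have hsym : ∀ i j, M' i j = M' j i := by
        intro i j
        have := congrFun (congrFun hM'psd.1 i) j
        simpa [Matrix.conjTranspose_apply] using this.symm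
      simp only [Matrix.trace, Matrix.diag, Matrix.mul_apply, Finset.mul_sum]
      refine Finset.sum_congr rfl fun i _ => Finset.sum_congr rfl fun j _ => ?_
      rw [hM0T, Matrix.smul_apply, smul_eq_mul, hsym i j]
      ring
    have e3 : T⁻¹ * M' = 1 - δ • T⁻¹ := by
      have : M' = T - δ • (1 : Matrix (Fin n) (Fin n) ℝ) := by rw [hT]; abel
      rw [this, Matrix.mul_sub, Matrix.nonsing_inv_mul _ (hTpd.isUnit.map Matrix.detMonoidHom),
        Matrix.mul_smul, Matrix.mul_one]
    rw [e1, e2, e3, Matrix.trace_sub, Matrix.trace_one, Fintype.card_fin, Matrix.trace_smul,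
      smul_eq_mul]
    have htr : 0 ≤ T⁻¹.trace := hTpd.inv.posSemidef.trace_nonneg
    have : 0 ≤ δ * T⁻¹.trace := mul_nonneg hδ.le htr
    nlinarith
  -- step 5
  have hnpos : (0 : ℝ) < n := by exact_mod_cast hn
  have hmark := mul_meas_ge_le_integral_of_nonneg
    (μ := μ.restrict K) (f := fun x : Fin n → ℝ => quad T⁻¹ x)
    (Filter.Eventually.of_forall hqnn) hqint (2 * n)
  have hhalf : (μ.restrict K).real {x | 2 * n ≤ quad T⁻¹ x} ≤ p / 2 := by
    have h5 : 2 * (n : ℝ) * (μ.restrict K).real {x | 2 * n ≤ quad T⁻¹ x} ≤ p * n :=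
      hmark.trans hintval
    have : 2 * (n : ℝ) * (μ.restrict K).real {x | 2 * n ≤ quad T⁻¹ x} ≤ 2 * n * (p / 2) := by
      linarith
    exact le_of_mul_le_mul_left this (by positivity)
  have hhalf2 : p / 2 ≤ (μ.restrict K).real {x | quad T⁻¹ x ≤ 2 * n} := by
    have hcov : (Set.univ : Set (Fin n → ℝ)) ⊆
        {x | quad T⁻¹ x ≤ 2 * n} ∪ {x | 2 * n ≤ quad T⁻¹ x} := by
      intro x _
      exact le_total (quad T⁻¹ x) (2 * (n : ℝ))
    have h6 := measureReal_mono (μ := μ.restrict K) hcov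
    have h7 := measureReal_union_le (μ := μ.restrict K) {x : Fin n → ℝ | quad T⁻¹ x ≤ 2 * n}
      {x | 2 * n ≤ quad T⁻¹ x}
    rw [hp1] at h6
    linarith
  have hcont : Continuous fun x : Fin n → ℝ => quad T⁻¹ x := by
    simp_rw [hquad]
    fun_prop
  have hmeasT : MeasurableSet {x : Fin n → ℝ | quad T⁻¹ x ≤ 2 * n} :=
    (isClosed_le hcont continuous_const).measurableSet
  have hvol := vol_ellipsoid T hTpd
  have hprob : μ {x : Fin n → ℝ | quad T⁻¹ x ≤ 2 * n} ≤ ENNReal.ofReal (M ^ n) *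
      ENNReal.ofReal ((Real.exp 1 * √(2 * Real.pi)) ^ n * √T.det) :=
    (hμ _ hmeasT).trans (mul_le_mul_right hvol _)
  have hprob2 : (μ.restrict K).real {x : Fin n → ℝ | quad T⁻¹ x ≤ 2 * n} ≤
      M ^ n * ((Real.exp 1 * √(2 * Real.pi)) ^ n * √T.det) := by
    rw [measureReal_def]
    apply ENNReal.toReal_le_of_le_ofReal (by positivity)
    rw [ENNReal.ofReal_mul (by positivity)]
    exact (Measure.restrict_apply_le _ _).trans hprob
  have hfinal : p ≤ 4 * (12 * M) ^ n * √(D / n ^ n) := by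
    have h8 : p ≤ 2 * (M ^ n * ((Real.exp 1 * √(2 * Real.pi)) ^ n * √T.det)) := by linarith
    refine h8.trans ?_
    have h9 : √T.det ≤ √2 * (√(Real.exp 1)) ^ n * √(D / n ^ n) := by
      have h90 : (√(Real.exp 1)) ^ n = √(Real.exp 1 ^ n) := by
        rw [eq_comm, Real.sqrt_eq_iff_mul_self_eq (by positivity) (by positivity), ← mul_pow,
          Real.mul_self_sqrt (Real.exp_pos 1).le]
      rw [h90, ← Real.sqrt_mul (by norm_num), ← Real.sqrt_mul (by positivity)]
      apply Real.sqrt_le_sqrt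
      refine hdetδ.le.trans ?_
      have h10 := Real.pow_div_factorial_le_exp (n : ℝ) hnpos.le n
      have hnn : (0 : ℝ) < (n : ℝ) ^ n := by positivity
      have h11 : (1 : ℝ) / n.factorial ≤ Real.exp 1 ^ n / n ^ n := by
        rw [le_div_iff₀ hnn, ← Real.exp_nat_mul, mul_one]
        calc (1 : ℝ) / n.factorial * n ^ n = n ^ n / n.factorial := by ring
          _ ≤ _ := h10
      calc 2 * D / n.factorial = 2 * D * (1 / n.factorial) := by ring
        _ ≤ 2 * D * (Real.exp 1 ^ n / n ^ n) := mul_le_mul_of_nonneg_left h11 (by positivity)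
        _ = 2 * Real.exp 1 ^ n * (D / n ^ n) := by ring
    have h12 : √2 ≤ 2 := by
      rw [Real.sqrt_le_left (by norm_num)]
      norm_num
    calc 2 * (M ^ n * ((Real.exp 1 * √(2 * Real.pi)) ^ n * √T.det))
        ≤ 2 * (M ^ n * ((Real.exp 1 * √(2 * Real.pi)) ^ n *
          (√2 * (√(Real.exp 1)) ^ n * √(D / n ^ n)))) := by gcongr
      _ = 2 * √2 * ((Real.exp 1 * √(2 * Real.pi) * √(Real.exp 1)) * M) ^ n * √(D / n ^ n) := by
          rw [mul_pow (Real.exp 1 * √(2 * Real.pi) * √(Real.exp 1)) M,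
            mul_pow (Real.exp 1 * √(2 * Real.pi)) (√(Real.exp 1))]
          ring
      _ ≤ 4 * (12 * M) ^ n * √(D / n ^ n) := by
          have hc := ball_const
          gcongr
          linarith
  rw [← ofReal_measureReal]
  exact ENNReal.ofReal_le_ofReal hfinal

end Pool.Agent.MP_2a72d7_pr.Sm
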