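import Mathlib
import Pool.Agent.MP_2a72d7_pr.Defs
import Pool.Agent.MP_2a72d7_pr.Sm.Base

namespace Pool.Agent.MP_2a72d7_pr.Sm

open MeasureTheory Matrix

open scoped MatrixOrder Matrix.Norms.L2Operator in
private theorem detmono_sq {ι : Type*} [Fintype ι] [DecidableEq ι] (S : Matrix ι ι ℝ)
    (hS : S.PosSemidef) : ∃ B : Matrix ι ι ℝ, S = Bᴴ * B := by
  obtain ⟨B, hB⟩ := CStarAlgebra.nonneg_iff_eq_star_mul_self.mp hS.nonneg
  exact ⟨B, hB⟩

private theorem detmono_one {ι : Type*} [Fintype ι] [DecidableEq ι] (K : Matrix ι ι ℝ)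
    (hK : K.PosSemidef) : 1 ≤ (1 + K).det := by
  have hA : (1 + K).IsHermitian := Matrix.isHermitian_one.add hK.isHermitian
  rw [hA.det_eq_prod_eigenvalues]
  have h1 : ∀ i, 1 ≤ hA.eigenvalues i := by
    intro i
    rw [hA.eigenvalues_eq i, Matrix.add_mulVec, Matrix.one_mulVec, dotProduct_add]
    have h2 : star ⇑(hA.eigenvectorBasis i) ⬝ᵥ ⇑(hA.eigenvectorBasis i) = (1 : ℝ) := by
      have h3 := hA.eigenvectorBasis.orthonormal.1 i
      have h4 := real_inner_self_eq_norm_sq (hA.eigenvectorBasis i)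
      rw [h3, EuclideanSpace.inner_eq_star_dotProduct, dotProduct_comm] at h4
      rw [h4]
      norm_num
    have h5 := hK.dotProduct_mulVec_nonneg (⇑(hA.eigenvectorBasis i))
    show 1 ≤ star ⇑(hA.eigenvectorBasis i) ⬝ᵥ ⇑(hA.eigenvectorBasis i) +
      star ⇑(hA.eigenvectorBasis i) ⬝ᵥ K *ᵥ ⇑(hA.eigenvectorBasis i)
    rw [h2]
    linarith
  have h2 : ∏ i : ι, (1 : ℝ) ≤ ∏ i, hA.eigenvalues i :=
    Finset.prod_le_prod (fun _ _ => zero_le_one) fun i _ => h1 i
  rw [Finset.prod_const_one] at h2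
  exact_mod_cast h2

/-- Monotonicity of the determinant: `det S ≤ det (S + T)` for `S > 0`, `T ≥ 0`.
Proof: `S = R * R` with `R` the positive square root (or any `R` invertible with `S = Rᵀ R`);
`S + T = R (1 + R⁻¹ T R⁻¹) R`, and `det (1 + K) ≥ 1` for `K ≥ 0` (product of `1 + λᵢ` over the
eigenvalues, spectral theorem). -/
theorem det_mono {ι : Type*} [Fintype ι] [DecidableEq ι] (S T : Matrix ι ι ℝ) (hS : S.PosDef)
    (hT : T.PosSemidef) : S.det ≤ (S + T).det := by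
  obtain ⟨B, hB⟩ := detmono_sq S hS.posSemidef
  have hSd : 0 < S.det := hS.det_pos
  have hdet : S.det = B.det * B.det := by
    rw [hB, Matrix.det_mul, Matrix.det_conjTranspose]
    rfl
  have hBu : IsUnit B.det := by
    refine isUnit_iff_ne_zero.2 fun h => ?_
    rw [hdet, h, mul_zero] at hSd
    exact lt_irrefl _ hSd
  have hK : (B⁻¹ᴴ * T * B⁻¹).PosSemidef := hT.conjTranspose_mul_mul_same B⁻¹
  have hST : S + T = Bᴴ * (1 + B⁻¹ᴴ * T * B⁻¹) * B := by
    have h1 : B⁻¹ * B = 1 := Matrix.nonsing_inv_mul B hBu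
    have h2 : Bᴴ * B⁻¹ᴴ = 1 := by
      rw [← Matrix.conjTranspose_mul, h1, Matrix.conjTranspose_one]
    calc S + T = Bᴴ * B + (Bᴴ * B⁻¹ᴴ) * T * (B⁻¹ * B) := by
          rw [h1, h2, Matrix.one_mul, Matrix.mul_one, ← hB]
      _ = Bᴴ * (1 + B⁻¹ᴴ * T * B⁻¹) * B := by
          rw [Matrix.mul_add, Matrix.mul_one, Matrix.add_mul]
          simp only [Matrix.mul_assoc]
  have h3 := detmono_one _ hK
  have h4 : (S + T).det = S.det * (1 + B⁻¹ᴴ * T * B⁻¹).det := by
    rw [hST, Matrix.det_mul, Matrix.det_mul, Matrix.det_conjTranspose, hdet]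
    show B.det * _ * B.det = _
    ring
  rw [h4]
  nlinarith

end Pool.Agent.MP_2a72d7_pr.Sm
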