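import Mathlib
import Pool.Agent.MP_2a72d7_pr.Defs
import Pool.Agent.MP_2a72d7_pr.Sm.Base
import Pool.Agent.MP_2a72d7_pr.Sm.P_detmono

namespace Pool.Agent.MP_2a72d7_pr.Sm

open MeasureTheory Matrix

/-- Fischer's inequality for two blocks.  Proof: Schur complement
`Matrix.det_fromBlocks₁₁`, the Schur complement `D - Bᵀ A⁻¹ B` is positive definite
(`Matrix.PosDef.fromBlocks₁₁` or similar) and `D = (D - BᵀA⁻¹B) + BᵀA⁻¹B`, `det_mono`. -/
theorem fischer2 {κ₁ κ₂ : Type*} [Fintype κ₁] [DecidableEq κ₁] [Fintype κ₂] [DecidableEq κ₂]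
    (A : Matrix κ₁ κ₁ ℝ) (B : Matrix κ₁ κ₂ ℝ) (D : Matrix κ₂ κ₂ ℝ)
    (h : (Matrix.fromBlocks A B Bᵀ D).PosDef) :
    (Matrix.fromBlocks A B Bᵀ D).det ≤ A.det * D.det := by
  have hA : A.PosDef := by
    have := h.submatrix (e := (Sum.inl : κ₁ → κ₁ ⊕ κ₂)) Sum.inl_injective
    have h2 : (Matrix.fromBlocks A B Bᵀ D).submatrix Sum.inl Sum.inl = A := by
      ext i j; rfl
    rwa [h2] at this
  let : Invertible A := hA.isUnit.invertible
  have hBt : Bᵀ = Bᴴ := (Matrix.conjTranspose_eq_transpose_of_trivial B).symm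
  have hS : (D - Bᴴ * A⁻¹ * B).PosSemidef := by
    rw [← Matrix.PosDef.fromBlocks₁₁ B D hA, ← hBt]
    exact h.posSemidef
  have hdet : (Matrix.fromBlocks A B Bᵀ D).det = A.det * (D - Bᴴ * A⁻¹ * B).det := by
    rw [Matrix.det_fromBlocks₁₁, hBt, Matrix.invOf_eq_nonsing_inv]
  have hA0 : 0 < A.det := hA.det_pos
  have h0 : 0 < (Matrix.fromBlocks A B Bᵀ D).det := h.det_pos
  have hS0 : 0 < (D - Bᴴ * A⁻¹ * B).det := by
    rw [hdet] at h0
    exact (mul_pos_iff_of_pos_left hA0).1 h0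
  have hSd : (D - Bᴴ * A⁻¹ * B).PosDef :=
    hS.posDef_iff_isUnit.2 ((Matrix.isUnit_iff_isUnit_det _).2 hS0.ne'.isUnit)
  have hT : (Bᴴ * A⁻¹ * B).PosSemidef := hA.inv.posSemidef.conjTranspose_mul_mul_same B
  have hm := det_mono _ _ hSd hT
  rw [sub_add_cancel] at hm
  rw [hdet]
  exact mul_le_mul_of_nonneg_left hm hA0.le

end Pool.Agent.MP_2a72d7_pr.Sm
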