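import Mathlib
import Pool.Agent.MP_2a72d7_pr.Defs
import Pool.Agent.MP_2a72d7_pr.Sm.Base
import Pool.Agent.MP_2a72d7_pr.Sm.P_fischer2

namespace Pool.Agent.MP_2a72d7_pr.Sm

open MeasureTheory Matrix

/-- The equivalence `κ ⊕ (Fin n × κ) ≃ Fin (n+1) × κ`. -/
def fischer_eqv (n : ℕ) (κ : Type*) : κ ⊕ (Fin n × κ) ≃ Fin (n + 1) × κ where
  toFun := Sum.elim (fun j => (0, j)) (fun p => (p.1.succ, p.2))
  invFun p := Fin.cases (motive := fun _ => κ ⊕ (Fin n × κ)) (Sum.inl p.2)
    (fun a => Sum.inr (a, p.2)) p.1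
  left_inv := by
    rintro (j | ⟨a, j⟩)
    · rfl
    · rfl
  right_inv := by
    rintro ⟨a, j⟩
    refine Fin.cases ?_ (fun a => ?_) a
    · rfl
    · rfl

/-- Fischer's inequality for `n` blocks: `det B ≤ ∏ₐ det Bₐₐ`.  Proof: induction on `n` with
`fischer2` and the equivalence `Fin (n+1) × κ ≃ κ ⊕ (Fin n × κ)`. -/
theorem fischer {n : ℕ} {κ : Type*} [Fintype κ] [DecidableEq κ]
    (B : Matrix (Fin n × κ) (Fin n × κ) ℝ) (hB : B.PosDef) :
    B.det ≤ ∏ a : Fin n, (Matrix.of fun j j' => B (a, j) (a, j')).det := by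
  induction n with
  | zero =>
    rw [Matrix.det_isEmpty, Finset.univ_eq_empty, Finset.prod_empty]
  | succ n ih =>
    have hM : (B.submatrix (fischer_eqv n κ) (fischer_eqv n κ)).PosDef :=
      hB.submatrix (fischer_eqv n κ).injective
    have hdet : (B.submatrix (fischer_eqv n κ) (fischer_eqv n κ)).det = B.det :=
      Matrix.det_submatrix_equiv_self _ _
    have hsym : ∀ p q, B p q = B q p := by
      intro p q
      have h2 := hB.isHermitian.apply p q
      rw [star_trivial] at h2
      exact h2.symm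
    have hblk : B.submatrix (fischer_eqv n κ) (fischer_eqv n κ) =
        Matrix.fromBlocks (Matrix.of fun j j' => B (0, j) (0, j'))
          (Matrix.of fun (j : κ) (p : Fin n × κ) => B (0, j) (p.1.succ, p.2))
          (Matrix.of fun (j : κ) (p : Fin n × κ) => B (0, j) (p.1.succ, p.2))ᵀ
          (Matrix.of fun p q : Fin n × κ => B (p.1.succ, p.2) (q.1.succ, q.2)) := by
      ext a b
      rcases a with j | p
      · rcases b with j' | q
        · rfl
        · rfl
      · rcases b with j' | q
        · exact hsym _ _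
        · rfl
    have hD : (Matrix.of fun p q : Fin n × κ => B (p.1.succ, p.2) (q.1.succ, q.2)).PosDef := by
      have h3 := hB.submatrix (e := fun p : Fin n × κ => ((p.1.succ, p.2) : Fin (n + 1) × κ))
        (by
          rintro ⟨a, j⟩ ⟨b, j'⟩ h
          have h4 := congrArg Prod.fst h
          have h5 := congrArg Prod.snd h
          exact Prod.ext (Fin.succ_injective _ h4) h5)
      exact h3
    have hA : (Matrix.of fun j j' : κ => B (0, j) (0, j')).PosDef := by
      have h3 := hB.submatrix (e := fun j : κ => (((0 : Fin (n + 1)), j) : Fin (n + 1) × κ))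
        (by
          intro j j' h
          exact congrArg Prod.snd h)
      exact h3
    rw [hblk] at hM hdet
    have h1 := fischer2 _ _ _ hM
    rw [hdet] at h1
    rw [Fin.prod_univ_succ]
    refine h1.trans (mul_le_mul_of_nonneg_left ?_ hA.det_pos.le)
    exact ih _ hD

end Pool.Agent.MP_2a72d7_pr.Sm
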