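import Mathlib
import Pool.Agent.MP_2a72d7_pr.Defs
import Pool.Agent.MP_2a72d7_pr.Sm.Base
import Pool.Agent.MP_2a72d7_pr.Sm.P_fischer
import Pool.Agent.MP_2a72d7_pr.Sm.P_con1

namespace Pool.Agent.MP_2a72d7_pr.Sm

open MeasureTheory Matrix

variable {n : ℕ} {κ : Type*} [Fintype κ] [DecidableEq κ]

/-- the matrix `X ⊗ 1` -/
noncomputable def fischercon_K (κ : Type*) [DecidableEq κ] (X : Fin n → Fin n → ℝ) :
    Matrix (Fin n × κ) (Fin n × κ) ℝ :=
  Matrix.kronecker (Matrix.of X) (1 : Matrix κ κ ℝ)

theorem fischercon_det (X : Fin n → Fin n → ℝ) :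
    (fischercon_K κ X).det = (Matrix.of X).det ^ Fintype.card κ := by
  unfold fischercon_K
  have h := Matrix.det_kronecker (Matrix.of X) (1 : Matrix κ κ ℝ)
  rw [Matrix.det_one, one_pow, mul_one] at h
  exact h

theorem fischercon_mul (A : Matrix (Fin n × κ) (Fin n × κ) ℝ) (X : Fin n → Fin n → ℝ) (a : Fin n)
    (j : κ) (q : Fin n × κ) :
    (fischercon_K κ X * A) (a, j) q = ∑ i, X a i * A (i, j) q := by
  rw [Matrix.mul_apply, Fintype.sum_prod_type]
  refine Finset.sum_congr rfl fun i _ => ?_
  rw [Finset.sum_eq_single j]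
  · simp [fischercon_K]
  · intro j' _ hj'
    simp [fischercon_K, Matrix.one_apply_ne (Ne.symm hj')]
  · intro h
    exact absurd (Finset.mem_univ j) h

theorem fischercon_block (A : Matrix (Fin n × κ) (Fin n × κ) ℝ) (X : Fin n → Fin n → ℝ)
    (a : Fin n) :
    (Matrix.of fun j j' => (fischercon_K κ X * A * (fischercon_K κ X)ᵀ) (a, j) (a, j') :
      Matrix κ κ ℝ) = con A (X a) := by
  ext j j'
  simp only [Matrix.of_apply, con]
  rw [Matrix.mul_apply, Fintype.sum_prod_type]
  have h1 : ∀ i' : Fin n, (∑ y : κ, (fischercon_K κ X * A) (a, j) (i', y) *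
      (fischercon_K κ X)ᵀ (i', y) (a, j')) = ∑ i, X a i * X a i' * A (i, j) (i', j') := by
    intro i'
    rw [Finset.sum_eq_single j']
    · rw [fischercon_mul, Finset.sum_mul]
      refine Finset.sum_congr rfl fun i _ => ?_
      simp only [Matrix.transpose_apply, fischercon_K, Matrix.kronecker, Matrix.kroneckerMap_apply,
        Matrix.of_apply, Matrix.one_apply_eq, mul_one]
      ring
    · intro y _ hy
      simp [fischercon_K, Matrix.one_apply_ne (Ne.symm hy)]
    · intro h
      exact absurd (Finset.mem_univ j') h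
  simp only [h1]
  rw [Finset.sum_comm]

/-- `(det X)^(2k) det A ≤ ∏ₐ det (con A Xₐ)`, `k = card κ`.  Proof: `B = (X ⊗ 1) A (X ⊗ 1)ᵀ`
has diagonal blocks `con A Xₐ` and determinant `(det X)^(2k) det A`
(`Matrix.det_kronecker`); if `det X ≠ 0` it is positive definite and `fischer` applies, if
`det X = 0` the left side is `0` and the right side is `≥ 0` (`con_posSemidef`). -/
theorem fischer_con [Nonempty κ] (A : Matrix (Fin n × κ) (Fin n × κ) ℝ) (hA : A.PosDef)
    (X : Fin n → Fin n → ℝ) :
    ((Matrix.of X).det) ^ (2 * Fintype.card κ) * A.det ≤ ∏ a, (con A (X a)).det := by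
  by_cases hX : (Matrix.of X).det = 0
  · rw [hX, zero_pow (by have := Fintype.card_pos (α := κ); omega), zero_mul]
    exact Finset.prod_nonneg fun a _ => (con_posSemidef A hA (X a)).det_nonneg
  · have hK : (fischercon_K κ X).det ≠ 0 := by
      rw [fischercon_det]
      exact pow_ne_zero _ hX
    have hinj : Function.Injective (fischercon_K κ X).vecMul := by
      rw [Matrix.vecMul_injective_iff_isUnit]
      rw [Matrix.isUnit_iff_isUnit_det]
      exact isUnit_iff_ne_zero.2 hK
    have hB : (fischercon_K κ X * A * (fischercon_K κ X)ᵀ).PosDef := by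
      have h := hA.mul_mul_conjTranspose_same hinj
      rwa [Matrix.conjTranspose_eq_transpose_of_trivial] at h
    have h := fischer _ hB
    simp only [fischercon_block] at h
    rw [Matrix.det_mul, Matrix.det_mul, Matrix.det_transpose, fischercon_det] at h
    calc ((Matrix.of X).det) ^ (2 * Fintype.card κ) * A.det =
        (Matrix.of X).det ^ Fintype.card κ * A.det * (Matrix.of X).det ^ Fintype.card κ := by
          rw [two_mul, pow_add]
          ring
      _ ≤ _ := h

end Pool.Agent.MP_2a72d7_pr.Sm
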