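import Mathlib
import Pool.Agent.MP_2a72d7_pr.Defs
import Pool.Agent.MP_2a72d7_pr.Sm.Base
import Pool.Agent.MP_2a72d7_pr.Sm.P_fischercon
import Pool.Agent.MP_2a72d7_pr.Sm.P_con1

namespace Pool.Agent.MP_2a72d7_pr.Sm

open MeasureTheory Matrix

variable {n : ℕ} {κ : Type*} [Fintype κ] [DecidableEq κ]

theorem detsq_pow {κ : Type*} [Fintype κ] [DecidableEq κ] [Nonempty κ] (B : Matrix κ κ ℝ)
    (hB : 0 ≤ B.det) : gm B ^ Fintype.card κ = B.det := by
  unfold gm
  rw [← Real.rpow_natCast, ← Real.rpow_mul hB, one_div, inv_mul_cancel₀, Real.rpow_one]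
  exact Nat.cast_ne_zero.2 Fintype.card_ne_zero

/-- If `gm (con A Xₐ) ≤ τ` for all rows then `(det X)² ≤ (τ / gm A)^n`.  Proof: `fischer_con`,
`det (con A Xₐ) = gm(..)^k ≤ τ^k`, `det A = (gm A)^(n k)`; take `k`-th roots
(`pow_le_pow_left` / `pow_le_pow_iff_left`). -/
theorem det_sq_le [Nonempty κ] (hn : 0 < n) (A : Matrix (Fin n × κ) (Fin n × κ) ℝ)
    (hA : A.PosDef) (X : Fin n → Fin n → ℝ) (τ : ℝ) (hτ : 0 < τ)
    (h : ∀ a, gm (con A (X a)) ≤ τ) :
    ((Matrix.of X).det) ^ 2 ≤ (τ / gm A) ^ n := by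
  have : Nonempty (Fin n) := ⟨⟨0, hn⟩⟩
  have hg : 0 < gm A := gm_pos A hA
  have hk : Fintype.card κ ≠ 0 := Fintype.card_ne_zero
  have h1 := fischer_con A hA X
  have h2 : ∏ a, (con A (X a)).det ≤ (τ ^ Fintype.card κ) ^ n := by
    calc ∏ a, (con A (X a)).det ≤ ∏ _a : Fin n, τ ^ Fintype.card κ := by
          refine Finset.prod_le_prod (fun a _ => (con_posSemidef A hA (X a)).det_nonneg)
            fun a _ => ?_
          rw [← detsq_pow _ (con_posSemidef A hA (X a)).det_nonneg]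
          refine pow_le_pow_left₀ ?_ (h a) _
          exact Real.rpow_nonneg (con_posSemidef A hA (X a)).det_nonneg _
      _ = (τ ^ Fintype.card κ) ^ n := by
          rw [Finset.prod_const, Finset.card_univ, Fintype.card_fin]
  have h3 : A.det = (gm A ^ n) ^ Fintype.card κ := by
    rw [← detsq_pow A hA.det_pos.le, Fintype.card_prod, Fintype.card_fin, pow_mul]
  have h4 : (((Matrix.of X).det ^ 2) * gm A ^ n) ^ Fintype.card κ ≤ (τ ^ n) ^ Fintype.card κ := by
    calc (((Matrix.of X).det ^ 2) * gm A ^ n) ^ Fintype.card κ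
        = ((Matrix.of X).det) ^ (2 * Fintype.card κ) * A.det := by
          rw [mul_pow, ← pow_mul, h3]
      _ ≤ (τ ^ Fintype.card κ) ^ n := h1.trans h2
      _ = (τ ^ n) ^ Fintype.card κ := by
          rw [← pow_mul, ← pow_mul, mul_comm]
  have h5 : ((Matrix.of X).det ^ 2) * gm A ^ n ≤ τ ^ n :=
    (pow_le_pow_iff_left₀ (mul_nonneg (sq_nonneg _) (pow_nonneg hg.le _))
      (pow_nonneg hτ.le _) hk).1 h4
  rw [div_pow, le_div_iff₀ (pow_pos hg n)]
  exact h5

end Pool.Agent.MP_2a72d7_pr.Sm
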