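import Mathlib
import Pool.Agent.MP_2a72d7_pr.Defs
import Pool.Agent.MP_2a72d7_pr.Sm.Base

namespace Pool.Agent.MP_2a72d7_pr.Sm

open MeasureTheory Matrix

theorem layer_point (a y : ℝ) (ha : 0 < a) (s : ℕ) :
    ((ENNReal.ofReal y)⁻¹) ^ s ≤ (ENNReal.ofReal a⁻¹) ^ s *
      (1 + ∑' k : ℕ, (if y ≤ a * (1 / 2) ^ k then ((2 : ENNReal) ^ (k + 1)) ^ s else 0)) := by
  have ha' : 0 < a⁻¹ := inv_pos.2 ha
  rcases le_or_gt y 0 with hy | hy
  · have h1 : (∑' k : ℕ, (if y ≤ a * (1 / 2) ^ k then ((2 : ENNReal) ^ (k + 1)) ^ s else 0)) = ⊤ := by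
      have h2 : ∀ k : ℕ, (1 : ENNReal) ≤ (if y ≤ a * (1 / 2) ^ k then ((2 : ENNReal) ^ (k + 1)) ^ s else 0) := by
        intro k
        rw [if_pos (hy.trans (by positivity))]
        exact one_le_pow₀ (one_le_pow₀ (by norm_num))
      have h3 : (∑' _ : ℕ, (1 : ENNReal)) = ⊤ := ENNReal.tsum_const_eq_top_of_ne_zero one_ne_zero
      exact top_le_iff.1 (h3 ▸ ENNReal.tsum_le_tsum h2)
    rw [h1, add_top, ENNReal.mul_top (pow_ne_zero _ (ENNReal.ofReal_pos.2 ha').ne')]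
    exact le_top
  · rw [← ENNReal.ofReal_inv_of_pos hy, ← mul_one (ENNReal.ofReal y⁻¹)] 
    rw [mul_one]
    rcases le_or_gt a y with hay | hay
    · have h1 : ENNReal.ofReal y⁻¹ ≤ ENNReal.ofReal a⁻¹ :=
        ENNReal.ofReal_le_ofReal (inv_anti₀ ha hay)
      calc ENNReal.ofReal y⁻¹ ^ s ≤ ENNReal.ofReal a⁻¹ ^ s := pow_le_pow_left' h1 s
        _ = ENNReal.ofReal a⁻¹ ^ s * 1 := (mul_one _).symm
        _ ≤ _ := mul_le_mul_right le_self_add _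
    · obtain ⟨k, hk⟩ : ∃ k : ℕ, a * (1 / 2) ^ (k + 1) < y ∧ y ≤ a * (1 / 2) ^ k := by
        have hyp : 0 < y / a := div_pos hy ha
        have h1 : y / a ≤ 1 := ((div_lt_one ha).2 hay).le
        obtain ⟨n, hn, hn'⟩ := exists_nat_pow_near_of_lt_one hyp h1 (by norm_num : (0 : ℝ) < 1 / 2) (by norm_num)
        refine ⟨n, ?_, ?_⟩
        · rw [mul_comm]
          exact (lt_div_iff₀ ha).1 hn
        · rw [mul_comm]
          exact (div_le_iff₀ ha).1 hn'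
      have h1 : ENNReal.ofReal y⁻¹ ≤ ENNReal.ofReal a⁻¹ * 2 ^ (k + 1) := by
        have e : (2 : ENNReal) ^ (k + 1) = ENNReal.ofReal (2 ^ (k + 1)) := by
          rw [ENNReal.ofReal_pow (by norm_num), ENNReal.ofReal_ofNat]
        rw [e, ← ENNReal.ofReal_mul ha'.le]
        apply ENNReal.ofReal_le_ofReal
        rw [← div_eq_inv_mul, inv_le_comm₀ hy (by positivity)]
        refine le_trans (le_of_eq ?_) hk.1.le
        rw [inv_div, one_div, inv_pow, div_eq_mul_inv]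
      calc ENNReal.ofReal y⁻¹ ^ s ≤ (ENNReal.ofReal a⁻¹ * 2 ^ (k + 1)) ^ s := pow_le_pow_left' h1 s
        _ = ENNReal.ofReal a⁻¹ ^ s * (if y ≤ a * (1 / 2) ^ k then ((2 : ENNReal) ^ (k + 1)) ^ s else 0) := by
            rw [if_pos hk.2, mul_pow]
        _ ≤ ENNReal.ofReal a⁻¹ ^ s * (∑' k : ℕ, (if y ≤ a * (1 / 2) ^ k then ((2 : ENNReal) ^ (k + 1)) ^ s else 0)) :=
            mul_le_mul_right (ENNReal.le_tsum k) _
        _ ≤ _ := mul_le_mul_right le_add_self _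

/-- If `P(Y ≤ τ) ≤ 4 √(τ/a)ⁿ` for all `τ > 0` and `n ≥ 2s+2`, `s ≥ 1`, then
`E Y^(-s) ≤ (18/a)^s`.  Proof: pointwise
`(Y/a)^(-s) ≤ 1 + ∑_{k ≥ 0} 2^((k+1)s) 1[Y ≤ a 2^(-k)]` (if `Y ≤ 0` the right side is `⊤`),
integrate: `≤ 1 + ∑ 2^((k+1)s) 4 2^(-kn/2) ≤ 1 + 8·2^s ≤ 18^s`
(`lintegral_tsum`, geometric series). -/
theorem layer {Ω : Type*} [MeasurableSpace Ω] (μ : Measure Ω) [IsProbabilityMeasure μ]
    (Y : Ω → ℝ) (hY : Measurable Y) (a : ℝ) (ha : 0 < a) (n s : ℕ) (hs : 1 ≤ s)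
    (hns : 2 * s + 2 ≤ n)
    (h : ∀ τ : ℝ, 0 < τ → μ {ω | Y ω ≤ τ} ≤ ENNReal.ofReal (4 * √(τ / a) ^ n)) :
    ∫⁻ ω, ((ENNReal.ofReal (Y ω))⁻¹) ^ s ∂μ ≤ ENNReal.ofReal ((18 / a) ^ s) := by
  have hm : ∀ k : ℕ, MeasurableSet {ω | Y ω ≤ a * (1 / 2) ^ k} := fun k => measurableSet_le hY measurable_const
  have hmf : ∀ k : ℕ, Measurable fun ω => (if Y ω ≤ a * (1 / 2) ^ k then ((2 : ENNReal) ^ (k + 1)) ^ s else 0) :=
    fun k => Measurable.ite (hm k) measurable_const measurable_const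
  have hterm : ∀ k : ℕ, ∫⁻ ω, (if Y ω ≤ a * (1 / 2) ^ k then ((2 : ENNReal) ^ (k + 1)) ^ s else 0) ∂μ ≤
      ENNReal.ofReal (4 * 2 ^ s * (1 / 2) ^ k) := by
    intro k
    have e1 : ∫⁻ ω, (if Y ω ≤ a * (1 / 2) ^ k then ((2 : ENNReal) ^ (k + 1)) ^ s else 0) ∂μ =
        ((2 : ENNReal) ^ (k + 1)) ^ s * μ {ω | Y ω ≤ a * (1 / 2) ^ k} := by
      rw [← lintegral_indicator_const (hm k)]
      rfl
    rw [e1]
    have h1 := h (a * (1 / 2) ^ k) (by positivity)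
    have e2 : a * (1 / 2) ^ k / a = (1 / 2) ^ k := by field_simp
    rw [e2] at h1
    have h2 : √((1 / 2 : ℝ) ^ k) ^ n ≤ (1 / 2) ^ (k * (s + 1)) := by
      have h3 : √((1 / 2 : ℝ) ^ k) ≤ 1 := by
        rw [Real.sqrt_le_one]
        exact pow_le_one₀ (by norm_num) (by norm_num)
      calc √((1 / 2 : ℝ) ^ k) ^ n ≤ √((1 / 2 : ℝ) ^ k) ^ (2 * (s + 1)) :=
            pow_le_pow_of_le_one (Real.sqrt_nonneg _) h3 (by omega)
        _ = _ := by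
          rw [pow_mul, Real.sq_sqrt (by positivity), pow_mul]
    have e : ((2 : ENNReal) ^ (k + 1)) ^ s = ENNReal.ofReal ((2 ^ (k + 1)) ^ s) := by
      rw [ENNReal.ofReal_pow (by positivity), ENNReal.ofReal_pow (by norm_num), ENNReal.ofReal_ofNat]
    rw [e]
    calc ENNReal.ofReal ((2 ^ (k + 1)) ^ s) * μ {ω | Y ω ≤ a * (1 / 2) ^ k}
        ≤ ENNReal.ofReal ((2 ^ (k + 1)) ^ s) * ENNReal.ofReal (4 * √((1 / 2) ^ k) ^ n) := mul_le_mul_right h1 _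
      _ = ENNReal.ofReal ((2 ^ (k + 1)) ^ s * (4 * √((1 / 2) ^ k) ^ n)) :=
          (ENNReal.ofReal_mul (by positivity)).symm
      _ ≤ _ := by
        apply ENNReal.ofReal_le_ofReal
        calc ((2 : ℝ) ^ (k + 1)) ^ s * (4 * √((1 / 2) ^ k) ^ n)
            ≤ ((2 : ℝ) ^ (k + 1)) ^ s * (4 * (1 / 2) ^ (k * (s + 1))) := by gcongr
          _ = 4 * 2 ^ s * (1 / 2) ^ k := by
            have h5 : ((2 : ℝ) ^ (k * s)) * (1 / 2) ^ (k * s) = 1 := by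
              rw [← mul_pow]
              norm_num
            have h6 : ((2 : ℝ) ^ (k + 1)) ^ s = 2 ^ (k * s) * 2 ^ s := by
              rw [← pow_mul, add_mul, one_mul, pow_add]
            have h7 : (1 / 2 : ℝ) ^ (k * (s + 1)) = (1 / 2) ^ (k * s) * (1 / 2) ^ k := by
              rw [mul_add, mul_one, pow_add]
            rw [h6, h7]
            linear_combination (4 * 2 ^ s * (1 / 2) ^ k) * h5
  have hsum : ∑' k : ℕ, ENNReal.ofReal (4 * 2 ^ s * (1 / 2) ^ k) = ENNReal.ofReal (8 * 2 ^ s) := by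
    rw [← ENNReal.ofReal_tsum_of_nonneg (fun k => by positivity) (summable_geometric_two.mul_left _), tsum_mul_left,
      tsum_geometric_two]
    congr 1
    ring
  have ha' : 0 < a⁻¹ := inv_pos.2 ha
  calc ∫⁻ ω, ((ENNReal.ofReal (Y ω))⁻¹) ^ s ∂μ
      ≤ ∫⁻ ω, (ENNReal.ofReal a⁻¹) ^ s *
        (1 + ∑' k : ℕ, (if Y ω ≤ a * (1 / 2) ^ k then ((2 : ENNReal) ^ (k + 1)) ^ s else 0)) ∂μ :=
        lintegral_mono fun ω => layer_point a (Y ω) ha s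
    _ = (ENNReal.ofReal a⁻¹) ^ s *
        (1 + ∑' k : ℕ, ∫⁻ ω, (if Y ω ≤ a * (1 / 2) ^ k then ((2 : ENNReal) ^ (k + 1)) ^ s else 0) ∂μ) := by
        rw [lintegral_const_mul' _ _ (ENNReal.pow_ne_top ENNReal.ofReal_ne_top), lintegral_add_left measurable_const,
          lintegral_const, measure_univ, one_mul, lintegral_tsum fun k => (hmf k).aemeasurable]
    _ ≤ (ENNReal.ofReal a⁻¹) ^ s * (1 + ∑' k : ℕ, ENNReal.ofReal (4 * 2 ^ s * (1 / 2) ^ k)) := by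
        gcongr with k
        exact hterm k
    _ = ENNReal.ofReal (a⁻¹ ^ s * (1 + 8 * 2 ^ s)) := by
        rw [hsum, ← ENNReal.ofReal_one, ← ENNReal.ofReal_add (by norm_num) (by positivity), ← ENNReal.ofReal_pow ha'.le,
          ← ENNReal.ofReal_mul (by positivity)]
    _ ≤ _ := by
        apply ENNReal.ofReal_le_ofReal
        rw [div_pow, div_eq_inv_mul, ← inv_pow]
        refine mul_le_mul_of_nonneg_left ?_ (by positivity)
        have h1 : (18 : ℝ) ^ s = 9 ^ s * 2 ^ s := by rw [← mul_pow]; norm_num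
        have h2 : (9 : ℝ) ≤ 9 ^ s := by
          calc (9 : ℝ) = 9 ^ 1 := (pow_one _).symm
            _ ≤ 9 ^ s := pow_le_pow_right₀ (by norm_num) hs
        have h3 : (1 : ℝ) ≤ 2 ^ s := one_le_pow₀ (by norm_num)
        rw [h1]
        nlinarith

end Pool.Agent.MP_2a72d7_pr.Sm
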