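import Mathlib
import Pool.Agent.MP_2a72d7_pr.Defs
import Pool.Agent.MP_2a72d7_pr.Sm.Base
import Pool.Agent.MP_2a72d7_pr.Sm.P_ball
import Pool.Agent.MP_2a72d7_pr.Sm.P_layer
import Pool.Agent.MP_2a72d7_pr.Sm.P_detsq
import Pool.Agent.MP_2a72d7_pr.Sm.P_con1

namespace Pool.Agent.MP_2a72d7_pr.Sm

open MeasureTheory Matrix

/-- One step: `E gm(con A x)^(-s) ≤ (2592 M²/(n gm A))^s`.
Proof: `layer` with `Y x = gm (con A x)`, `a = n gm A/(144 M²)`; the small ball bound is
`det_ball` with `K = {x : gm (con A x) ≤ τ}`, `D = (τ/gm A)^n` (`det_sq_le`):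
`4 (12M)^n √((τ/gm A)^n/n^n) = 4 √(144 M² τ/(n gm A))^n`. -/
theorem one_step {n : ℕ} {κ : Type*} [Fintype κ] [DecidableEq κ] [Nonempty κ] (hn : 0 < n)
    (μ : Measure (Fin n → ℝ)) [IsProbabilityMeasure μ] (M : ℝ) (hM : 0 < M)
    (hμ : ∀ S, MeasurableSet S → μ S ≤ ENNReal.ofReal (M ^ n) * volume S)
    (h2 : ∀ i, Integrable (fun x => x i ^ 2) μ)
    (A : Matrix (Fin n × κ) (Fin n × κ) ℝ) (hA : A.PosDef) (s : ℕ) (hs : 1 ≤ s)
    (hns : 2 * s + 2 ≤ n) :
    ∫⁻ x, ((ENNReal.ofReal (gm (con A x)))⁻¹) ^ s ∂μ ≤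
      ENNReal.ofReal ((2592 * M ^ 2 / (n * gm A)) ^ s) := by
  have hg : 0 < gm A := gm_pos A hA
  have hn' : (0 : ℝ) < n := by exact_mod_cast hn
  have ha : 0 < (n : ℝ) * gm A / (144 * M ^ 2) := by positivity
  have hY : Measurable fun x => gm (con A x) := by
    unfold gm
    exact (continuous_det_con A).measurable.pow_const _
  have key := layer μ (fun x => gm (con A x)) hY ((n : ℝ) * gm A / (144 * M ^ 2)) ha n s hs hns ?_
  · have e : (18 : ℝ) / ((n : ℝ) * gm A / (144 * M ^ 2)) = 2592 * M ^ 2 / (n * gm A) := by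
      field_simp
      ring
    rw [e] at key
    exact key
  · intro τ hτ
    have hb := det_ball hn μ M hM hμ h2 {x | gm (con A x) ≤ τ}
      (measurableSet_le hY measurable_const) ((τ / gm A) ^ n) (by positivity)
      (fun X hX => det_sq_le hn A hA X τ hτ hX)
    have e1 : (τ / gm A) ^ n / (n : ℝ) ^ n = (τ / gm A / n) ^ n := by rw [div_pow (τ / gm A)]
    have e2 : √((τ / gm A / n) ^ n) = √(τ / gm A / n) ^ n := by
      have h0 : 0 ≤ τ / gm A / n := by positivity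
      rw [Real.sqrt_eq_iff_mul_self_eq (by positivity) (by positivity), ← mul_pow,
        Real.mul_self_sqrt h0]
    have e3 : 12 * M * √(τ / gm A / n) = √(τ / ((n : ℝ) * gm A / (144 * M ^ 2))) := by
      have h0 : 0 ≤ τ / gm A / n := by positivity
      have h12 : (12 * M) = √((12 * M) ^ 2) := by rw [Real.sqrt_sq (by positivity)]
      rw [h12, ← Real.sqrt_mul (by positivity)]
      congr 1
      field_simp
      ring
    rw [e1, e2, mul_assoc, ← mul_pow, e3] at hb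
    exact hb

end Pool.Agent.MP_2a72d7_pr.Sm
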