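import Mathlib
import Pool.Agent.MP_2a72d7_pr.Defs
import Pool.Agent.MP_2a72d7_pr.Sm.Base
import Pool.Agent.MP_2a72d7_pr.Sm.P_onestep
import Pool.Agent.MP_2a72d7_pr.Sm.P_con1

namespace Pool.Agent.MP_2a72d7_pr.Sm

open MeasureTheory Matrix

theorem iter_quad_equiv {ι κ : Type*} [Fintype ι] [Fintype κ] (e : κ ≃ ι) (A : Matrix ι ι ℝ)
    (v : ι → ℝ) : quad A v = quad (A.submatrix e e) (fun p => v (e p)) := by
  unfold quad
  simp only [dotProduct, mulVec, Matrix.submatrix_apply]
  rw [← Equiv.sum_comp e]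
  refine Finset.sum_congr rfl fun i _ => ?_
  rw [← Equiv.sum_comp e (fun j => A (e i) j * v j)]

theorem iter_ten_cons {n d : ℕ} (x0 : Fin n → ℝ) (y : Fin d → Fin n → ℝ) (p : Fin n × (Fin d → Fin n)) :
    ten (Fin.cons x0 y : Fin (d + 1) → Fin n → ℝ)
      (Fin.consEquiv (fun _ : Fin (d + 1) => Fin n) p) = x0 p.1 * ten y p.2 := by
  unfold ten
  rw [Fin.prod_univ_succ]
  simp [Fin.consEquiv]

theorem iter_meas {n d : ℕ} (A : Matrix (Fin d → Fin n) (Fin d → Fin n) ℝ) (s : ℕ) :
    Measurable fun x : Fin d → Fin n → ℝ => ((ENNReal.ofReal (quad A (ten x)))⁻¹) ^ s := by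
  have h : Continuous fun x : Fin d → Fin n → ℝ => quad A (ten x) := by
    unfold quad ten
    simp only [dotProduct, mulVec]
    fun_prop
  exact ((ENNReal.measurable_ofReal.comp h.measurable).inv).pow_const s

/-- All factors: `E ⟨X, A X⟩^(-s) ≤ ((2592 M²/n)^d / gm A)^s`, `X = x₁ ⊗ ⋯ ⊗ x_d`.
Proof: induction on `d`.  `d = 0`: the index type is a singleton, `ten x = 1`,
`quad A = det A = gm A`.  `d + 1`: transport `A` to `A'` on `Fin n × (Fin d → Fin n)` with the
equivalence `Fin.consEquiv`-like `(Fin (d+1) → Fin n) ≃ Fin n × (Fin d → Fin n)` (same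
determinant, same `gm` power: `gm A = gm A'`), `quad A (ten x) = quad (con A' (x 0)) (ten (tail x))`
(`quad_con`), Tonelli for the splitting of the coordinate `0`
(`MeasureTheory.measurePreserving_piFinSuccAbove` at `0`); for `x 0 ≠ 0` (almost surely, by `hμ`)
the induction hypothesis applies to `con A' (x 0)` (`con_posDef`), then `one_step`. -/
theorem iter {n : ℕ} (hn : 0 < n) (M : ℝ) (hM : 0 < M) (s : ℕ) (hs : 1 ≤ s)
    (hns : 2 * s + 2 ≤ n) (d : ℕ)
    (μ : Fin d → Measure (Fin n → ℝ)) [∀ k, IsProbabilityMeasure (μ k)]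
    (hμ : ∀ k S, MeasurableSet S → μ k S ≤ ENNReal.ofReal (M ^ n) * volume S)
    (h2 : ∀ k i, Integrable (fun x => x i ^ 2) (μ k))
    (A : Matrix (Fin d → Fin n) (Fin d → Fin n) ℝ) (hA : A.PosDef) :
    ∫⁻ x, ((ENNReal.ofReal (quad A (ten x)))⁻¹) ^ s ∂(Measure.pi μ) ≤
      ENNReal.ofReal (((2592 * M ^ 2 / n) ^ d / gm A) ^ s) := by
  have : Nonempty (Fin n) := ⟨⟨0, hn⟩⟩
  induction d with
  | zero =>
    have hdet : 0 < A.det := hA.det_pos
    have h1 : ∀ x : Fin 0 → Fin n → ℝ, quad A (ten x) = A.det := by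
      intro x
      rw [Matrix.det_unique]
      unfold quad ten
      simp [dotProduct, mulVec]
    have hg : gm A = A.det := by
      unfold gm
      simp
    simp only [h1, lintegral_const, measure_univ, mul_one, hg, pow_zero]
    rw [ENNReal.ofReal_pow (by positivity), one_div, ENNReal.ofReal_inv_of_pos hdet]
  | succ d ih =>
    set e : Fin n × (Fin d → Fin n) ≃ (Fin (d + 1) → Fin n) :=
      Fin.consEquiv (fun _ : Fin (d + 1) => Fin n) with he
    set A' : Matrix (Fin n × (Fin d → Fin n)) (Fin n × (Fin d → Fin n)) ℝ :=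
      A.submatrix e e with hA'
    have hPD : A'.PosDef := hA.submatrix e.injective
    have hgm : gm A' = gm A := by
      unfold gm
      rw [hA', Matrix.det_submatrix_equiv_self, Fintype.card_congr e]
    have hgmpos : 0 < gm A := gm_pos A hA
    have hc : 0 ≤ 2592 * M ^ 2 / (n : ℝ) := by positivity
    have hn' : (0 : ℝ) < n := Nat.cast_pos.2 hn
    -- Tonelli
    have hmp := measurePreserving_piFinSuccAbove μ 0
    set F : (Fin (d + 1) → Fin n → ℝ) → ENNReal :=
      fun x => ((ENNReal.ofReal (quad A (ten x)))⁻¹) ^ s with hF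
    have hFm : Measurable F := iter_meas A s
    have hstep : ∫⁻ x, F x ∂(Measure.pi μ) =
        ∫⁻ x0, ∫⁻ y, F (Fin.cons x0 y) ∂(Measure.pi fun j => μ (Fin.succAbove 0 j)) ∂(μ 0) := by
      have h3 := hmp.symm
      rw [← h3.lintegral_comp hFm, lintegral_prod _ (by
        exact (hFm.comp (MeasurableEquiv.measurable _)).aemeasurable)]
      refine lintegral_congr fun x0 => lintegral_congr fun y => ?_
      congr 1
      funext k
      refine Fin.cases ?_ (fun j => ?_) k
      · rfl
      · rfl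
    rw [hstep]
    have hq : ∀ (x0 : Fin n → ℝ) (y : Fin d → Fin n → ℝ),
        quad A (ten (Fin.cons x0 y : Fin (d + 1) → Fin n → ℝ)) = quad (con A' x0) (ten y) := by
      intro x0 y
      rw [iter_quad_equiv e A, quad_con]
      congr 1
      funext p
      exact iter_ten_cons x0 y p
    have hae : ∀ᵐ x0 ∂(μ 0), x0 ≠ 0 := by
      rw [ae_iff]
      have h4 : {a : Fin n → ℝ | ¬ a ≠ 0} = {0} := by
        ext a
        simp
      rw [h4]
      have h5 := hμ 0 {0} (measurableSet_singleton 0)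
      have h7 : (volume : Measure (Fin n → ℝ)) {0} = 0 := measure_singleton 0
      rw [h7, mul_zero] at h5
      exact le_antisymm h5 zero_le
    have hin : ∀ᵐ x0 ∂(μ 0),
        ∫⁻ y, F (Fin.cons x0 y) ∂(Measure.pi fun j => μ (Fin.succAbove 0 j)) ≤
          ENNReal.ofReal (((2592 * M ^ 2 / n) ^ d) ^ s) *
            ((ENNReal.ofReal (gm (con A' x0)))⁻¹) ^ s := by
      filter_upwards [hae] with x0 hx0
      have hB : (con A' x0).PosDef := con_posDef A' hPD x0 hx0
      have hg : 0 < gm (con A' x0) := gm_pos _ hB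
      have h6 := ih (fun j => μ (Fin.succAbove 0 j)) (fun k S hS => hμ _ S hS)
        (fun k i => h2 _ i) (con A' x0) hB
      simp only [hF, hq]
      refine h6.trans (le_of_eq ?_)
      rw [div_pow, ENNReal.ofReal_div_of_pos (by positivity), ENNReal.div_eq_inv_mul, mul_comm,
        ENNReal.ofReal_pow hg.le, ENNReal.inv_pow]
    refine (lintegral_mono_ae hin).trans ?_
    have hos := one_step hn (μ 0) M hM (hμ 0) (h2 0) A' hPD s hs hns
    rw [lintegral_const_mul' _ _ ENNReal.ofReal_ne_top]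
    refine (mul_le_mul_right hos _).trans (le_of_eq ?_)
    rw [← ENNReal.ofReal_mul (by positivity), hgm, ← mul_pow]
    congr 2
    rw [← div_div]
    generalize 2592 * M ^ 2 / (n : ℝ) = c
    ring

end Pool.Agent.MP_2a72d7_pr.Sm
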