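import Mathlib
import Pool.Agent.MP_2a72d7_pr.Defs
import Pool.Agent.MP_2a72d7_pr.Sm.Base

namespace Pool.Agent.MP_2a72d7_pr.Sm

open MeasureTheory Matrix

private theorem meas_det {α : Type*} [MeasurableSpace α] {m : ℕ}
    (T : α → Matrix (Fin m) (Fin m) ℝ) (hT : ∀ i j, Measurable fun a => T a i j) :
    Measurable fun a => (T a).det := by
  simp only [Matrix.det_apply']
  exact Finset.measurable_sum _ fun σ _ =>
    measurable_const.mul (Finset.measurable_prod _ fun i _ => hT _ _)

/-- Entries of the inverse of a measurable family of matrices are measurable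
(`Matrix.inv_def`, determinants and adjugates are polynomials in the entries). -/
theorem measurable_inv_entry {α : Type*} [MeasurableSpace α] {m : ℕ}
    (T : α → Matrix (Fin m) (Fin m) ℝ) (hT : ∀ i j, Measurable fun a => T a i j) (i j : Fin m) :
    Measurable fun a => (T a)⁻¹ i j := by
  have h : (fun a => (T a)⁻¹ i j) = fun a =>
      ((T a).det)⁻¹ * ((T a).updateRow j (Pi.single i 1)).det := by
    funext a
    rw [Matrix.inv_def, Ring.inverse_eq_inv', Matrix.smul_apply, Matrix.adjugate_apply,
      smul_eq_mul]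
  rw [h]
  refine (meas_det T hT).inv.mul (meas_det _ fun k l => ?_)
  by_cases hk : k = j
  · subst hk
    simp only [Matrix.updateRow_self]
    exact measurable_const
  · simp only [Matrix.updateRow_ne hk]
    exact hT k l

theorem measurable_ten {n d : ℕ} (J : Fin d → Fin n) :
    Measurable fun x : Fin d → Fin n → ℝ => ten x J := by
  unfold ten
  exact Finset.measurable_prod _ fun k _ => (measurable_pi_apply (J k)).comp (measurable_pi_apply k)

theorem measurable_Rg_inv {n d m : ℕ} (η : ℝ) (i j : Fin m) :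
    Measurable fun X : Fin m → Fin d → Fin n → ℝ => (Rg (Zm X) η)⁻¹ i j := by
  refine measurable_inv_entry (fun X : Fin m → Fin d → Fin n → ℝ => Rg (Zm X) η)
    (fun k l => ?_) i j
  have h : (fun X : Fin m → Fin d → Fin n → ℝ => Rg (Zm X) η k l) = fun X =>
      η * (1 : Matrix (Fin m) (Fin m) ℝ) k l + ∑ J, ten (X k) J * ten (X l) J := by
    funext X
    unfold Rg Zm
    rw [Matrix.add_apply, Matrix.smul_apply, Matrix.mul_apply, smul_eq_mul]
    rfl
  rw [h]
  refine measurable_const.add (Finset.measurable_sum _ fun J _ => ?_)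
  exact ((measurable_ten J).comp (measurable_pi_apply k)).mul
    ((measurable_ten J).comp (measurable_pi_apply l))

theorem measurable_quad_Pe {n d m : ℕ} (η : ℝ) :
    Measurable fun p : (Fin d → Fin n → ℝ) × (Fin m → Fin d → Fin n → ℝ) =>
      quad (Pe (Zm p.2) η) (ten p.1) := by
  have h : (fun p : (Fin d → Fin n → ℝ) × (Fin m → Fin d → Fin n → ℝ) =>
      quad (Pe (Zm p.2) η) (ten p.1)) = fun p =>
      ∑ J, ten p.1 J * ∑ J', ((1 : Matrix (Fin d → Fin n) (Fin d → Fin n) ℝ) J J' -
        ∑ l, (∑ k, ten (p.2 k) J * (Rg (Zm p.2) η)⁻¹ k l) * ten (p.2 l) J') * ten p.1 J' := by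
    funext p
    unfold quad
    rw [dotProduct]
    refine Finset.sum_congr rfl fun J _ => ?_
    rfl
  rw [h]
  have h1 : ∀ J : Fin d → Fin n, Measurable
      fun p : (Fin d → Fin n → ℝ) × (Fin m → Fin d → Fin n → ℝ) => ten p.1 J := fun J =>
    (measurable_ten J).comp measurable_fst
  have h2 : ∀ (k : Fin m) (J : Fin d → Fin n), Measurable
      fun p : (Fin d → Fin n → ℝ) × (Fin m → Fin d → Fin n → ℝ) => ten (p.2 k) J := fun k J =>
    (measurable_ten J).comp ((measurable_pi_apply k).comp measurable_snd)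
  have h3 : ∀ k l : Fin m, Measurable
      fun p : (Fin d → Fin n → ℝ) × (Fin m → Fin d → Fin n → ℝ) => (Rg (Zm p.2) η)⁻¹ k l :=
    fun k l => (measurable_Rg_inv η k l).comp measurable_snd
  refine Finset.measurable_sum _ fun J _ => (h1 J).mul (Finset.measurable_sum _ fun J' _ => ?_)
  refine Measurable.mul (measurable_const.sub (Finset.measurable_sum _ fun l _ => ?_)) (h1 J')
  exact Measurable.mul (Finset.measurable_sum _ fun k _ => (h2 k J).mul (h3 k l)) (h2 l J')

end Pool.Agent.MP_2a72d7_pr.Sm
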