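import Mathlib
import Pool.Agent.MP_2a72d7_pr.Defs
import Pool.Agent.MP_2a72d7_pr.Sm.Base

namespace Pool.Agent.MP_2a72d7_pr.Sm

open MeasureTheory Matrix

variable {m : ℕ} {ι : Type*} [Fintype ι] [DecidableEq ι]

omit [DecidableEq ι] in
private theorem reg1_yyt (Y : Matrix (Fin m) ι ℝ) : (Y * Yᵀ).PosSemidef := by
  have h := posSemidef_self_mul_conjTranspose Y
  rwa [conjTranspose_eq_transpose_of_trivial] at h

omit [DecidableEq ι] in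
private theorem reg1_sq (v : ι → ℝ) : v ⬝ᵥ v = ∑ J, v J ^ 2 := by
  unfold dotProduct
  exact Finset.sum_congr rfl fun J _ => by ring

/-- the quadratic form of `Pe` -/
private theorem reg1_quad (Y : Matrix (Fin m) ι ℝ) (η : ℝ) (v : ι → ℝ) :
    quad (Pe Y η) v = v ⬝ᵥ v - (Y *ᵥ v) ⬝ᵥ ((Rg Y η)⁻¹ *ᵥ (Y *ᵥ v)) := by
  unfold quad Pe
  rw [sub_mulVec, one_mulVec, dotProduct_sub]
  congr 1
  rw [← mulVec_mulVec, ← mulVec_mulVec, dotProduct_mulVec v, vecMul_transpose]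

theorem Rg_posDef (Y : Matrix (Fin m) ι ℝ) (η : ℝ) (hη : 0 < η) : (Rg Y η).PosDef := by
  unfold Rg
  exact (PosDef.one.smul hη).add_posSemidef (reg1_yyt Y)

theorem Pe_symm (Y : Matrix (Fin m) ι ℝ) (η : ℝ) : (Pe Y η).IsHermitian := by
  have hR : (Rg Y η).IsHermitian := by
    unfold Rg
    refine IsHermitian.add ?_ (reg1_yyt Y).isHermitian
    unfold IsHermitian
    rw [conjTranspose_smul, conjTranspose_one]
    rfl
  have h1 : (Yᵀ * (Rg Y η)⁻¹ * Y).IsHermitian := by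
    have h2 := isHermitian_conjTranspose_mul_mul Y hR.inv
    rwa [conjTranspose_eq_transpose_of_trivial] at h2
  unfold Pe
  exact isHermitian_one.sub h1

/-- `⟨v, P v⟩ = ‖v - Yᵀa‖² + η‖a‖² ≥ 0` with `a = (Rg Y η)⁻¹ Y v`. -/
theorem Pe_nonneg (Y : Matrix (Fin m) ι ℝ) (η : ℝ) (hη : 0 < η) (v : ι → ℝ) :
    0 ≤ quad (Pe Y η) v := by
  rw [reg1_quad]
  set w : Fin m → ℝ := Y *ᵥ v with hw
  set a : Fin m → ℝ := (Rg Y η)⁻¹ *ᵥ w with ha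
  have hR := Rg_posDef Y η hη
  have hRa : Rg Y η *ᵥ a = w := by
    rw [ha, mulVec_mulVec, mul_nonsing_inv _ ((isUnit_iff_isUnit_det _).1 hR.isUnit), one_mulVec]
  have h1 : a ⬝ᵥ w = η * (a ⬝ᵥ a) + (Yᵀ *ᵥ a) ⬝ᵥ (Yᵀ *ᵥ a) := by
    conv_lhs => rw [← hRa]
    unfold Rg
    rw [add_mulVec, smul_mulVec, one_mulVec, dotProduct_add, dotProduct_smul, smul_eq_mul,
      ← mulVec_mulVec, dotProduct_mulVec a Y, ← mulVec_transpose]
  have h2 : (Yᵀ *ᵥ a) ⬝ᵥ v = a ⬝ᵥ w := by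
    rw [hw, dotProduct_mulVec, mulVec_transpose]
  have h3 : 0 ≤ (v - Yᵀ *ᵥ a) ⬝ᵥ (v - Yᵀ *ᵥ a) := by
    rw [reg1_sq]
    exact Finset.sum_nonneg fun J _ => sq_nonneg _
  have h4 : 0 ≤ a ⬝ᵥ a := by
    unfold dotProduct
    exact Finset.sum_nonneg fun J _ => mul_self_nonneg _
  rw [sub_dotProduct, dotProduct_sub, dotProduct_sub, h2, dotProduct_comm v (Yᵀ *ᵥ a), h2] at h3
  rw [dotProduct_comm w a]
  nlinarith [mul_nonneg hη.le h4]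

theorem Pe_le (Y : Matrix (Fin m) ι ℝ) (η : ℝ) (hη : 0 < η) (v : ι → ℝ) :
    quad (Pe Y η) v ≤ ∑ J, v J ^ 2 := by
  rw [reg1_quad, ← reg1_sq]
  have h1 := (Rg_posDef Y η hη).inv.posSemidef.dotProduct_mulVec_nonneg (Y *ᵥ v)
  rw [star_trivial] at h1
  linarith

theorem zP_posDef (Y : Matrix (Fin m) ι ℝ) (η : ℝ) (hη : 0 < η) (z : ℝ) (hz : 0 < z) :
    (z • (1 : Matrix ι ι ℝ) + Pe Y η).PosDef := by
  refine (PosDef.one.smul hz).add_posSemidef ?_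
  refine PosSemidef.of_dotProduct_mulVec_nonneg (Pe_symm Y η) fun x => ?_
  rw [star_trivial]
  exact Pe_nonneg Y η hη x

theorem quad_zP (Y : Matrix (Fin m) ι ℝ) (η z : ℝ) (v : ι → ℝ) :
    quad (z • (1 : Matrix ι ι ℝ) + Pe Y η) v = quad (Pe Y η) v + z * ∑ J, v J ^ 2 := by
  unfold quad
  rw [add_mulVec, smul_mulVec, one_mulVec, dotProduct_add, dotProduct_smul, smul_eq_mul, reg1_sq]
  ring

end Pool.Agent.MP_2a72d7_pr.Sm
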