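import Mathlib
import Pool.Agent.MP_2a72d7_pr.Defs
import Pool.Agent.MP_2a72d7_pr.Sm.Base
import Pool.Agent.MP_2a72d7_pr.Sm.P_reg1

namespace Pool.Agent.MP_2a72d7_pr.Sm

open MeasureTheory Matrix

variable {m : ℕ} {ι : Type*} [Fintype ι] [DecidableEq ι]

theorem schur_quad (Y : Matrix (Fin m) ι ℝ) (η : ℝ) (x : ι → ℝ) :
    quad (Pe Y η) x = x ⬝ᵥ x - (Y *ᵥ x) ⬝ᵥ ((Rg Y η)⁻¹ *ᵥ (Y *ᵥ x)) := by
  unfold quad Pe
  rw [Matrix.sub_mulVec, Matrix.one_mulVec, dotProduct_sub]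
  congr 1
  rw [← Matrix.mulVec_mulVec, ← Matrix.mulVec_mulVec, Matrix.dotProduct_mulVec,
    Matrix.vecMul_transpose]

theorem schur_unit (Y : Matrix (Fin m) ι ℝ) (η : ℝ) (hη : 0 < η) : IsUnit (Rg Y η).det :=
  (Matrix.isUnit_iff_isUnit_det _).1 (Rg_posDef Y η hη).isUnit

theorem schur_key (Z : Matrix (Fin (m + 1)) ι ℝ) (η : ℝ) (hη : 0 < η) (i : Fin (m + 1))
    (Y : Matrix (Fin m) ι ℝ) (hY : Y = Matrix.of fun j => Z (i.succAbove j)) (u : Fin m → ℝ)
    (hu : u = (Rg Y η)⁻¹ *ᵥ (Y *ᵥ Z i)) (a : ℝ) (ha : a = η + quad (Pe Y η) (Z i))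
    (p : Fin (m + 1)) :
    (Rg Z η)⁻¹ p i = Fin.insertNth (α := fun _ => ℝ) i (a⁻¹) (fun j => -(u j) * a⁻¹) p := by
  have ha0 : a ≠ 0 := by
    have := Pe_nonneg Y η hη (Z i)
    rw [ha]
    positivity
  have hu1 : (Rg Y η) *ᵥ u = Y *ᵥ Z i := by
    rw [hu, Matrix.mulVec_mulVec, Matrix.mul_nonsing_inv _ (schur_unit Y η hη),
      Matrix.one_mulVec]
  have ha1 : a = η + (Z i ⬝ᵥ Z i - (Y *ᵥ Z i) ⬝ᵥ u) := by
    rw [ha, schur_quad, ← hu]
  set w : Fin (m + 1) → ℝ :=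
    Fin.insertNth (α := fun _ => ℝ) i (a⁻¹) (fun j => -(u j) * a⁻¹) with hw
  have hwi : w i = a⁻¹ := Fin.insertNth_apply_same _ _ _
  have hwj : ∀ j, w (i.succAbove j) = -(u j) * a⁻¹ := fun j => Fin.insertNth_apply_succAbove _ _ _ _
  have hR : ∀ p q, (Rg Z η) p q = (if p = q then η else 0) + Z p ⬝ᵥ Z q := by
    intro p q
    unfold Rg
    rw [Matrix.add_apply, Matrix.smul_apply, Matrix.one_apply, Matrix.mul_apply]
    congr 1
    by_cases h : p = q
    · rw [if_pos h, if_pos h, smul_eq_mul, mul_one]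
    · rw [if_neg h, if_neg h, smul_zero]
  have hRY : ∀ p q, (Rg Y η) p q = (if p = q then η else 0) + Y p ⬝ᵥ Y q := by
    intro p q
    unfold Rg
    rw [Matrix.add_apply, Matrix.smul_apply, Matrix.one_apply, Matrix.mul_apply]
    congr 1
    by_cases h : p = q
    · rw [if_pos h, if_pos h, smul_eq_mul, mul_one]
    · rw [if_neg h, if_neg h, smul_zero]
  have hYr : ∀ j, Y j = Z (i.succAbove j) := by
    intro j
    rw [hY]
    rfl
  have hmul : (Rg Z η) *ᵥ w = Pi.single i 1 := by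
    funext q
    show ∑ p, (Rg Z η) q p * w p = _
    rw [Fin.sum_univ_succAbove _ i, hwi]
    simp only [hwj, hR]
    rcases Fin.eq_self_or_eq_succAbove i q with rfl | ⟨j, rfl⟩
    · rw [Pi.single_eq_same, if_pos rfl]
      have h1 : ∀ j, ((if q = q.succAbove j then η else 0) + Z q ⬝ᵥ Z (q.succAbove j)) *
          (-(u j) * a⁻¹) = -((Y *ᵥ Z q) j * u j) * a⁻¹ := by
        intro j
        rw [if_neg (Fin.succAbove_ne q j).symm]
        have : (Y *ᵥ Z q) j = Z q ⬝ᵥ Z (q.succAbove j) := by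
          show Y j ⬝ᵥ Z q = _
          rw [hYr, dotProduct_comm]
        rw [this]
        ring
      rw [Finset.sum_congr rfl fun j _ => h1 j, ← Finset.sum_mul, Finset.sum_neg_distrib]
      have h2 : ∑ j, (Y *ᵥ Z q) j * u j = (Y *ᵥ Z q) ⬝ᵥ u := rfl
      rw [h2, ← add_mul]
      have h3 : η + Z q ⬝ᵥ Z q + -((Y *ᵥ Z q) ⬝ᵥ u) = a := by
        rw [ha1]
        ring
      rw [h3, mul_inv_cancel₀ ha0]
    · rw [Pi.single_eq_of_ne (Fin.succAbove_ne i j), if_neg (Fin.succAbove_ne i j)]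
      have h1 : ∀ j', ((if i.succAbove j = i.succAbove j' then η else 0) +
          Z (i.succAbove j) ⬝ᵥ Z (i.succAbove j')) * (-(u j') * a⁻¹) =
          -((Rg Y η) j j' * u j') * a⁻¹ := by
        intro j'
        rw [hRY, hYr, hYr]
        have h4 : (i.succAbove j = i.succAbove j') = (j = j') :=
          propext (Fin.succAbove_right_injective.eq_iff)
        simp only [h4]
        ring
      rw [Finset.sum_congr rfl fun j _ => h1 j, ← Finset.sum_mul, Finset.sum_neg_distrib]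
      have h2 : ∑ j', (Rg Y η) j j' * u j' = (Y *ᵥ Z i) j := by
        rw [← hu1]
        rfl
      have h3 : (Y *ᵥ Z i) j = Z (i.succAbove j) ⬝ᵥ Z i := by
        show Y j ⬝ᵥ Z i = _
        rw [hYr]
      rw [h2, h3]
      ring
  have hinv : (Rg Z η)⁻¹ *ᵥ (Pi.single i 1) = w := by
    rw [← hmul, Matrix.mulVec_mulVec, Matrix.nonsing_inv_mul _ (schur_unit Z η hη),
      Matrix.one_mulVec]
  rw [← hinv, Matrix.mulVec_single_one]
  rfl

/-- Schur complement, diagonal entry (arbitrary index `i`).  Proof: with `Y` the other rows,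
`x = Z i`, `u = (Rg Y η)⁻¹ (Y x)`, `a = η + ⟨x, P x⟩ = η + ‖x‖² - (Y x)·u`, the vector `w` with
`w i = 1/a`, `w (succAbove i j) = - u j / a` satisfies `(Rg Z η) w = eᵢ`
(`Fin.sum_univ_succAbove`), so `w` is the `i`-th column of `(Rg Z η)⁻¹`. -/
theorem schur_diag (Z : Matrix (Fin (m + 1)) ι ℝ) (η : ℝ) (hη : 0 < η) (i : Fin (m + 1)) :
    (Rg Z η)⁻¹ i i =
      (η + quad (Pe (Matrix.of fun j => Z (i.succAbove j)) η) (Z i))⁻¹ := by
  rw [schur_key Z η hη i _ rfl _ rfl _ rfl i]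
  exact Fin.insertNth_apply_same _ _ _

/-- Schur complement, off-diagonal entry. -/
theorem schur_off (Z : Matrix (Fin (m + 1)) ι ℝ) (η : ℝ) (hη : 0 < η) (i : Fin (m + 1))
    (j : Fin m) :
    (Rg Z η)⁻¹ (i.succAbove j) i =
      -(∑ J, bvec (Matrix.of fun j => Z (i.succAbove j)) η j J * Z i J) *
        (η + quad (Pe (Matrix.of fun j => Z (i.succAbove j)) η) (Z i))⁻¹ := by
  rw [schur_key Z η hη i _ rfl _ rfl _ rfl (i.succAbove j), Fin.insertNth_apply_succAbove]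
  congr 2
  unfold bvec
  show ∑ k, (Rg (Matrix.of fun j => Z (i.succAbove j)) η)⁻¹ j k *
    (∑ J, (Matrix.of fun j => Z (i.succAbove j)) k J * Z i J) = _
  simp only [Finset.mul_sum, Finset.sum_mul]
  rw [Finset.sum_comm]
  refine Finset.sum_congr rfl fun J _ => Finset.sum_congr rfl fun k _ => ?_
  ring

end Pool.Agent.MP_2a72d7_pr.Sm
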