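import Mathlib
import Pool.Agent.MP_2a72d7_pr.Defs
import Pool.Agent.MP_2a72d7_pr.Sm.Base
import Pool.Agent.MP_2a72d7_pr.Sm.P_reg1

namespace Pool.Agent.MP_2a72d7_pr.Sm

open MeasureTheory Matrix

variable {m : ℕ} {ι : Type*} [Fintype ι] [DecidableEq ι]

/-- `‖bⱼ‖² = (R⁻¹ Y Yᵀ R⁻¹)ⱼⱼ = (R⁻¹)ⱼⱼ - η (R⁻²)ⱼⱼ ≤ (R⁻¹)ⱼⱼ`. -/
theorem bvec_sq (Y : Matrix (Fin m) ι ℝ) (η : ℝ) (hη : 0 < η) (j : Fin m) :
    ∑ J, bvec Y η j J ^ 2 ≤ (Rg Y η)⁻¹ j j := by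
  have hR := Rg_posDef Y η hη
  have hdet : IsUnit (Rg Y η).det := hR.det_pos.ne'.isUnit
  have hsym : ((Rg Y η)⁻¹)ᵀ = (Rg Y η)⁻¹ := by
    have h1 := hR.inv.isHermitian
    rw [Matrix.IsHermitian, Matrix.conjTranspose_eq_transpose_of_trivial] at h1
    exact h1
  have h1 : ∑ J, bvec Y η j J ^ 2 =
      ((Rg Y η)⁻¹ * (Y * Yᵀ) * (Rg Y η)⁻¹) j j := by
    have h2 : (Rg Y η)⁻¹ * (Y * Yᵀ) * (Rg Y η)⁻¹ =
        ((Rg Y η)⁻¹ * Y) * ((Rg Y η)⁻¹ * Y)ᵀ := by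
      rw [Matrix.transpose_mul, hsym]
      simp only [Matrix.mul_assoc]
    rw [h2, Matrix.mul_apply]
    refine Finset.sum_congr rfl fun J _ => ?_
    rw [Matrix.transpose_apply, sq]
    rfl
  have h3 : Y * Yᵀ = Rg Y η - η • (1 : Matrix (Fin m) (Fin m) ℝ) := by
    unfold Rg
    rw [add_sub_cancel_left]
  have h4 : (Rg Y η)⁻¹ * (Y * Yᵀ) * (Rg Y η)⁻¹ =
      (Rg Y η)⁻¹ - η • ((Rg Y η)⁻¹ * (Rg Y η)⁻¹) := by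
    rw [h3, Matrix.mul_sub, Matrix.nonsing_inv_mul _ hdet, Matrix.sub_mul, Matrix.one_mul,
      Matrix.mul_smul, Matrix.mul_one, Matrix.smul_mul]
  rw [h1, h4, Matrix.sub_apply, Matrix.smul_apply, smul_eq_mul]
  have h5 : 0 ≤ ((Rg Y η)⁻¹ * (Rg Y η)⁻¹) j j := by
    rw [Matrix.mul_apply]
    refine Finset.sum_nonneg fun k _ => ?_
    have h6 : (Rg Y η)⁻¹ k j = (Rg Y η)⁻¹ j k := by
      conv_lhs => rw [← hsym]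
      rfl
    rw [h6]
    exact mul_self_nonneg _
  have h7 := mul_nonneg hη.le h5
  linarith

end Pool.Agent.MP_2a72d7_pr.Sm
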