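import Mathlib
import Pool.Agent.MP_2a72d7_pr.Defs
import Pool.Agent.MP_2a72d7_pr.Sm.Base

namespace Pool.Agent.MP_2a72d7_pr.Sm

open MeasureTheory Matrix

variable {m : ℕ} {ι : Type*} [Fintype ι] [DecidableEq ι]

/-- `‖a‖⁴ ≤ ⟨a, T a⟩² ‖T⁻¹‖_F²`.  Proof: Cauchy-Schwarz for the positive form `T`:
`(a·a)² = (a·T(T⁻¹a))² ≤ (a·Ta)(a·T⁻¹a)` and `a·T⁻¹a ≤ ‖a‖² ‖T⁻¹‖_F`. -/
theorem lin (T : Matrix (Fin m) (Fin m) ℝ) (hT : T.PosDef) (a : Fin m → ℝ) :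
    (∑ i, a i ^ 2) ^ 2 ≤ quad T a ^ 2 * ∑ i, ∑ j, (T⁻¹ i j) ^ 2 := by
  have hF : 0 ≤ ∑ i, ∑ j, (T⁻¹ i j) ^ 2 := Finset.sum_nonneg fun i _ => Finset.sum_nonneg fun j _ => sq_nonneg _
  by_cases ha : a = 0
  · subst ha
    have h1 : ∑ i : Fin m, (0 : Fin m → ℝ) i ^ 2 = 0 := by simp
    rw [h1, zero_pow two_ne_zero]
    exact mul_nonneg (sq_nonneg _) hF
  have hdet : IsUnit T.det := hT.det_pos.ne'.isUnit
  set y : Fin m → ℝ := T⁻¹ *ᵥ a with hy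
  have hTy : T *ᵥ y = a := by
    rw [hy, Matrix.mulVec_mulVec, Matrix.mul_nonsing_inv _ hdet, Matrix.one_mulVec]
  have hsym : Tᵀ = T := by
    have := hT.isHermitian
    rwa [Matrix.IsHermitian, Matrix.conjTranspose_eq_transpose_of_trivial] at this
  have haa : ∑ i, a i ^ 2 = a ⬝ᵥ a := by
    rw [dotProduct]
    exact Finset.sum_congr rfl fun i _ => sq _
  set A : ℝ := a ⬝ᵥ a with hA
  set p : ℝ := a ⬝ᵥ y with hp
  have hA0 : 0 < A := by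
    rw [← haa]
    obtain ⟨i, hi⟩ := Function.ne_iff.1 ha
    exact Finset.sum_pos' (fun j _ => sq_nonneg _) ⟨i, Finset.mem_univ _, by
      have : a i ≠ 0 := hi
      positivity⟩
  have hpos : ∀ v : Fin m → ℝ, 0 ≤ v ⬝ᵥ (T *ᵥ v) := by
    intro v
    have := hT.posSemidef.dotProduct_mulVec_nonneg v
    simpa using this
  have hyTa : y ⬝ᵥ (T *ᵥ a) = A := by
    rw [Matrix.dotProduct_mulVec, ← Matrix.mulVec_transpose, hsym, hTy]
  have hpy : p = y ⬝ᵥ (T *ᵥ y) := by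
    rw [hTy, hp, dotProduct_comm]
  have hy0 : y ≠ 0 := by
    intro h
    apply ha
    rw [← hTy, h, Matrix.mulVec_zero]
  have hp0 : 0 < p := by
    rw [hpy]
    have := hT.dotProduct_mulVec_pos hy0
    simpa using this
  have hCS : A ^ 2 ≤ quad T a * p := by
    have h1 := hpos (a - (A / p) • y)
    have h2 : (a - (A / p) • y) ⬝ᵥ (T *ᵥ (a - (A / p) • y)) = quad T a - A ^ 2 / p := by
      rw [Matrix.mulVec_sub, Matrix.mulVec_smul, hTy, sub_dotProduct, dotProduct_sub, dotProduct_sub,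
        smul_dotProduct, smul_dotProduct, dotProduct_smul, dotProduct_smul, hyTa, ← hA]
      have h3 : y ⬝ᵥ a = p := by rw [hp, dotProduct_comm]
      rw [h3]
      unfold quad
      simp only [smul_eq_mul]
      field_simp
      ring
    rw [h2] at h1
    have h3 : A ^ 2 / p ≤ quad T a := by linarith
    rwa [div_le_iff₀ hp0] at h3
  have hpF : p ^ 2 ≤ A ^ 2 * ∑ i, ∑ j, (T⁻¹ i j) ^ 2 := by
    have h1 : p ^ 2 ≤ (∑ i, a i ^ 2) * ∑ i, y i ^ 2 := by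
      rw [hp, dotProduct]
      exact Finset.sum_mul_sq_le_sq_mul_sq _ _ _
    have h2 : ∑ i, y i ^ 2 ≤ (∑ i, ∑ j, (T⁻¹ i j) ^ 2) * A := by
      rw [Finset.sum_mul]
      refine Finset.sum_le_sum fun i _ => ?_
      rw [← haa]
      change (∑ j, T⁻¹ i j * a j) ^ 2 ≤ _
      exact Finset.sum_mul_sq_le_sq_mul_sq _ _ _
    rw [haa] at h1
    calc p ^ 2 ≤ A * ∑ i, y i ^ 2 := h1
      _ ≤ A * ((∑ i, ∑ j, (T⁻¹ i j) ^ 2) * A) := mul_le_mul_of_nonneg_left h2 hA0.le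
      _ = _ := by ring
  rw [haa]
  have hq0 : 0 ≤ quad T a := hpos a
  have h4 : A ^ 2 * A ^ 2 ≤ A ^ 2 * (quad T a ^ 2 * ∑ i, ∑ j, (T⁻¹ i j) ^ 2) := by
    calc A ^ 2 * A ^ 2 ≤ (quad T a * p) * (quad T a * p) :=
          mul_le_mul hCS hCS (by positivity) (by positivity)
      _ = quad T a ^ 2 * p ^ 2 := by ring
      _ ≤ quad T a ^ 2 * (A ^ 2 * ∑ i, ∑ j, (T⁻¹ i j) ^ 2) := mul_le_mul_of_nonneg_left hpF (by positivity)
      _ = _ := by ring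
  exact le_of_mul_le_mul_left h4 (by positivity)

end Pool.Agent.MP_2a72d7_pr.Sm
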