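import Mathlib
import Pool.Agent.MP_2a72d7_pr.Defs
import Pool.Agent.MP_2a72d7_pr.Sm.Base
import Pool.Agent.MP_2a72d7_pr.Sm.P_lin
import Pool.Agent.MP_2a72d7_pr.Sm.P_reg1

namespace Pool.Agent.MP_2a72d7_pr.Sm

open MeasureTheory Matrix

theorem frobge_quad {m : ℕ} {ι : Type*} [Fintype ι] (Y : Matrix (Fin m) ι ℝ) (η : ℝ)
    (v : Fin m → ℝ) :
    quad (Rg Y η) v = η * ∑ i, v i ^ 2 + ∑ J, (∑ i, v i * Y i J) ^ 2 := by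
  have h1 : quad (Rg Y η) v = η * (v ⬝ᵥ v) + (Yᵀ *ᵥ v) ⬝ᵥ (Yᵀ *ᵥ v) := by
    unfold quad Rg
    rw [Matrix.add_mulVec, dotProduct_add, Matrix.smul_mulVec, Matrix.one_mulVec,
      dotProduct_smul, smul_eq_mul, ← Matrix.mulVec_mulVec, Matrix.dotProduct_mulVec,
      ← Matrix.mulVec_transpose]
  rw [h1]
  congr 1
  · congr 1
    exact Finset.sum_congr rfl fun i _ => (sq (v i)).symm
  · refine Finset.sum_congr rfl fun J _ => ?_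
    have h2 : (Yᵀ *ᵥ v) J = ∑ i, v i * Y i J := by
      show ∑ i, Y i J * v i = ∑ i, v i * Y i J
      exact Finset.sum_congr rfl fun i _ => mul_comm (Y i J) (v i)
    rw [h2, sq]

theorem frobge_norm {n d m : ℕ} (X : Fin m → Fin d → Fin n → ℝ) (a : EuclideanSpace ℝ (Fin m)) :
    ‖∑ i, a i • simpleTensor (X i)‖ ^ 2 = ∑ J, (∑ i, a i * Zm X i J) ^ 2 := by
  rw [EuclideanSpace.norm_sq_eq]
  refine Finset.sum_congr rfl fun J _ => ?_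
  have h2 : (∑ i, a i • simpleTensor (X i)) J = ∑ i, a i * Zm X i J := by
    rw [WithLp.ofLp_sum, Finset.sum_apply]
    rfl
  rw [h2, Real.norm_eq_abs, sq_abs]

/-- If `σ_min < σ` then `‖(Z Zᵀ + σ²)⁻¹‖_F² ≥ 1/(4σ⁴)`.  Proof: `a` with
`‖∑ aᵢ Xᵢ‖ < σ‖a‖`; `quad (Rg Z σ²) a = σ²‖a‖² + ‖∑ aᵢ Xᵢ‖² ≤ 2σ²‖a‖²`; `lin`. -/
theorem frob_ge {n d m : ℕ} (X : Fin m → Fin d → Fin n → ℝ) (σ : ℝ) (hσ : 0 < σ)
    (h : ¬ SigmaMinGE (fun i => simpleTensor (X i)) σ) :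
    1 ≤ 4 * σ ^ 4 * ∑ i, ∑ j, ((Rg (Zm X) (σ ^ 2))⁻¹ i j) ^ 2 := by
  unfold SigmaMinGE at h
  push Not at h
  obtain ⟨a, ha⟩ := h
  have hS0 : 0 ≤ ∑ i, ∑ j, ((Rg (Zm X) (σ ^ 2))⁻¹ i j) ^ 2 :=
    Finset.sum_nonneg fun i _ => Finset.sum_nonneg fun j _ => sq_nonneg _
  have hpos : 0 < ‖a‖ := by
    have h1 : 0 < σ * ‖a‖ := lt_of_le_of_lt (norm_nonneg _) ha
    exact (mul_pos_iff_of_pos_left hσ).1 h1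
  have hn : ‖a‖ ^ 2 = ∑ i, a i ^ 2 := by
    rw [EuclideanSpace.norm_sq_eq]
    exact Finset.sum_congr rfl fun i _ => by rw [Real.norm_eq_abs, sq_abs]
  have hlin := lin (Rg (Zm X) (σ ^ 2)) (Rg_posDef (Zm X) (σ ^ 2) (by positivity)) (fun i => a i)
  have hq := frobge_quad (Zm X) (σ ^ 2) (fun i => a i)
  rw [← frobge_norm, ← hn] at hq
  rw [← hn] at hlin
  have hsq : ‖∑ i, a i • simpleTensor (X i)‖ ^ 2 ≤ σ ^ 2 * ‖a‖ ^ 2 := by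
    rw [← mul_pow]
    exact pow_le_pow_left₀ (norm_nonneg _) ha.le 2
  have hq0 : 0 ≤ quad (Rg (Zm X) (σ ^ 2)) (fun i => a i) := by
    rw [hq]
    positivity
  have hq1 : quad (Rg (Zm X) (σ ^ 2)) (fun i => a i) ≤ 2 * σ ^ 2 * ‖a‖ ^ 2 := by
    rw [hq]
    linarith
  have hq2 : quad (Rg (Zm X) (σ ^ 2)) (fun i => a i) ^ 2 ≤ (2 * σ ^ 2 * ‖a‖ ^ 2) ^ 2 :=
    pow_le_pow_left₀ hq0 hq1 2
  have hfin : (‖a‖ ^ 2) ^ 2 * 1 ≤ (‖a‖ ^ 2) ^ 2 *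
      (4 * σ ^ 4 * ∑ i, ∑ j, ((Rg (Zm X) (σ ^ 2))⁻¹ i j) ^ 2) := by
    calc (‖a‖ ^ 2) ^ 2 * 1 = (‖a‖ ^ 2) ^ 2 := mul_one _
      _ ≤ quad (Rg (Zm X) (σ ^ 2)) (fun i => a i) ^ 2 *
          ∑ i, ∑ j, ((Rg (Zm X) (σ ^ 2))⁻¹ i j) ^ 2 := hlin
      _ ≤ (2 * σ ^ 2 * ‖a‖ ^ 2) ^ 2 * ∑ i, ∑ j, ((Rg (Zm X) (σ ^ 2))⁻¹ i j) ^ 2 :=
          mul_le_mul_of_nonneg_right hq2 hS0
      _ = _ := by ring
  exact le_of_mul_le_mul_left hfin (by positivity)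

end Pool.Agent.MP_2a72d7_pr.Sm
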