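import Mathlib
import Pool.Agent.MP_2a72d7_pr.Defs

/-! The standard Gaussian law is admissible with a bounded density. -/

namespace Pool.Agent.MP_2a72d7_pr.Sm

open MeasureTheory ProbabilityTheory

theorem gauss_dens : gaussianReal 0 1 ≤ ENNReal.ofReal 1 • volume := by
  rw [gaussianReal_of_var_ne_zero 0 one_ne_zero, ENNReal.ofReal_one, one_smul]
  calc volume.withDensity (gaussianPDF 0 1) ≤ volume.withDensity 1 := by
        apply withDensity_mono
        refine Filter.Eventually.of_forall fun x => ?_
        rw [gaussianPDF, Pi.one_apply, ENNReal.ofReal_le_one, gaussianPDFReal]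
        have h1 : (√(2 * Real.pi * ((1 : NNReal) : ℝ)))⁻¹ ≤ 1 := by
          apply inv_le_one_of_one_le₀
          rw [Real.one_le_sqrt]
          have := Real.pi_gt_three
          simp only [NNReal.coe_one, mul_one]
          linarith
        have h2 : Real.exp (-(x - 0) ^ 2 / (2 * ((1 : NNReal) : ℝ))) ≤ 1 := by
          rw [Real.exp_le_one_iff]
          simp only [NNReal.coe_one, mul_one, sub_zero]
          have := sq_nonneg x
          linarith
        calc _ ≤ (1 : ℝ) * 1 := by
              apply mul_le_mul h1 h2 (Real.exp_pos _).le (by norm_num)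
          _ = 1 := one_mul 1
    _ = volume := withDensity_one

theorem gauss_adm : Admissible 2 (gaussianReal 0 1) := by
  refine ⟨inferInstance, by norm_num, ?_, ?_, ?_⟩
  · exact integral_id_gaussianReal
  · have h1 := variance_id_gaussianReal (μ := 0) (v := 1)
    rw [variance_eq_integral (by fun_prop)] at h1
    simp only [id_eq, integral_id_gaussianReal, sub_zero, NNReal.coe_one] at h1
    exact h1
  · rw [gaussianReal_of_var_ne_zero 0 one_ne_zero,
      lintegral_withDensity_eq_lintegral_mul _ (measurable_gaussianPDF 0 1) (by fun_prop)]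
    have h1 : ∀ x : ℝ, (gaussianPDF 0 1 * fun x => ENNReal.ofReal (Real.exp (x ^ 2 / 2 ^ 2))) x =
        ENNReal.ofReal ((√(2 * Real.pi))⁻¹ * Real.exp (-(1 / 4) * x ^ 2)) := by
      intro x
      rw [Pi.mul_apply, gaussianPDF, ← ENNReal.ofReal_mul (gaussianPDFReal_nonneg 0 1 x),
        gaussianPDFReal]
      simp only [NNReal.coe_one, mul_one, sub_zero]
      rw [mul_assoc, ← Real.exp_add]
      congr 3
      ring
    rw [lintegral_congr h1, ← ofReal_integral_eq_lintegral_ofReal, integral_const_mul,
      integral_gaussian]
    · rw [show (2 : ENNReal) = ENNReal.ofReal 2 by norm_num]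
      apply ENNReal.ofReal_le_ofReal
      rw [← Real.sqrt_inv, ← Real.sqrt_mul (by positivity)]
      rw [Real.sqrt_le_left (by norm_num)]
      have := Real.pi_pos
      rw [inv_mul_le_iff₀ (by positivity)]
      rw [div_le_iff₀ (by norm_num)]
      nlinarith
    · exact (integrable_exp_neg_mul_sq (by norm_num : (0 : ℝ) < 1 / 4)).const_mul _
    · exact Filter.Eventually.of_forall fun x => by positivity

end Pool.Agent.MP_2a72d7_pr.Sm
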