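import Mathlib
import Pool.Agent.MP_2a72d7_pr.Defs
import Pool.Agent.MP_2a72d7_pr.Sm.Base
import Pool.Agent.MP_2a72d7_pr.Sm.P_detmono
import Pool.Agent.MP_2a72d7_pr.Sm.P_reg1

namespace Pool.Agent.MP_2a72d7_pr.Sm

open MeasureTheory Matrix

variable {m : ℕ} {ι : Type*} [Fintype ι] [DecidableEq ι]

theorem det_zP (Y : Matrix (Fin m) ι ℝ) (η : ℝ) (hη : 0 < η) (z : ℝ) (hz : 0 < z)
    (hm : m ≤ Fintype.card ι) :
    z ^ m ≤ (z • (1 : Matrix ι ι ℝ) + Pe Y η).det := by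
  have hc : 0 < 1 + z := by linarith
  have hR := Rg_posDef Y η hη
  have hu : IsUnit (Rg Y η).det := hR.isUnit.map Matrix.detMonoidHom
  have e1 : z • (1 : Matrix ι ι ℝ) + Pe Y η =
      (1 + z) • (1 - ((1 + z)⁻¹ • Yᵀ) * ((Rg Y η)⁻¹ * Y)) := by
    rw [smul_sub, Matrix.smul_mul, smul_smul, mul_inv_cancel₀ hc.ne', one_smul, Pe,
      ← Matrix.mul_assoc, add_smul, one_smul]
    abel
  have e2 : ((Rg Y η)⁻¹ * Y) * ((1 + z)⁻¹ • Yᵀ) =
      (1 + z)⁻¹ • (1 - η • (Rg Y η)⁻¹) := by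
    rw [Matrix.mul_smul, Matrix.mul_assoc]
    congr 1
    have : Y * Yᵀ = Rg Y η - η • (1 : Matrix (Fin m) (Fin m) ℝ) := by
      rw [Rg]; abel
    rw [this, Matrix.mul_sub, Matrix.nonsing_inv_mul _ hu, Matrix.mul_smul, Matrix.mul_one]
  have e3 : (1 : Matrix (Fin m) (Fin m) ℝ) - (1 + z)⁻¹ • (1 - η • (Rg Y η)⁻¹) =
      (z / (1 + z)) • (1 : Matrix (Fin m) (Fin m) ℝ) + (η / (1 + z)) • (Rg Y η)⁻¹ := by
    have : z / (1 + z) = 1 - (1 + z)⁻¹ := by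
      field_simp
      ring
    rw [this, smul_sub, smul_smul, sub_smul, one_smul, div_eq_inv_mul]
    abel
  have h1 : ((z / (1 + z)) • (1 : Matrix (Fin m) (Fin m) ℝ)).PosDef :=
    Matrix.PosDef.one.smul (by positivity)
  have h2 : ((η / (1 + z)) • (Rg Y η)⁻¹).PosSemidef :=
    hR.inv.posSemidef.smul (by positivity)
  have h3 := det_mono _ _ h1 h2
  rw [Matrix.det_smul, Matrix.det_one, mul_one, Fintype.card_fin] at h3
  rw [e1, Matrix.det_smul, Matrix.det_one_sub_mul_comm, e2, e3]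
  obtain ⟨r, hr⟩ := Nat.exists_eq_add_of_le hm
  calc z ^ m = (1 + z) ^ m * (z / (1 + z)) ^ m := by
        rw [← mul_pow, mul_div_cancel₀ _ hc.ne']
    _ ≤ (1 + z) ^ Fintype.card ι * (z / (1 + z)) ^ m := by
        apply mul_le_mul_of_nonneg_right _ (by positivity)
        exact pow_le_pow_right₀ (by linarith) hm
    _ ≤ _ := mul_le_mul_of_nonneg_left h3 (by positivity)

end Pool.Agent.MP_2a72d7_pr.Sm
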