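import Mathlib
import Pool.Agent.MP_2a72d7_pr.Defs
import Pool.Agent.MP_2a72d7_pr.Sm.Base
import Pool.Agent.MP_2a72d7_pr.Sm.P_mom1

namespace Pool.Agent.MP_2a72d7_pr.Sm

open MeasureTheory Matrix

/-- `E ‖x‖^(2r) ≤ 2 r! L^(2r) n^r` (power mean inequality
`(∑ xᵢ²)^r ≤ n^(r-1) ∑ xᵢ^(2r)`; `inner_le_nnorm_mul_nnorm` or
`inv_mul_... ` : `Real.pow_sum_div_card_le_sum_pow` / `inner_..`). -/
theorem mom_vec {L : ℝ} {n : ℕ} (ν : Fin n → Measure ℝ) (h : ∀ i, Admissible L (ν i)) (r : ℕ) :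
    ∫⁻ x, ENNReal.ofReal ((∑ i, x i ^ 2) ^ r) ∂(Measure.pi ν) ≤
      ENNReal.ofReal (2 * r.factorial * L ^ (2 * r) * n ^ r) := by
  have hp : ∀ i, IsProbabilityMeasure (ν i) := fun i => (h i).prob
  rcases r with _ | r
  · simp only [pow_zero, lintegral_const, measure_univ, mul_one, Nat.factorial_zero, Nat.cast_one,
      mul_zero]
    exact ENNReal.ofReal_le_ofReal (by norm_num)
  have hpt : ∀ x : Fin n → ℝ, ENNReal.ofReal ((∑ i, x i ^ 2) ^ (r + 1)) ≤
      ENNReal.ofReal ((n : ℝ) ^ r) * ∑ i, ENNReal.ofReal (x i ^ (2 * (r + 1))) := by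
    intro x
    rw [← ENNReal.ofReal_sum_of_nonneg fun i _ => (even_two_mul (r + 1)).pow_nonneg _,
      ← ENNReal.ofReal_mul (by positivity)]
    apply ENNReal.ofReal_le_ofReal
    have h1 := pow_sum_div_card_le_sum_pow (s := Finset.univ) (f := fun i => x i ^ 2)
      (fun i _ => sq_nonneg _) r
    rw [Finset.card_univ, Fintype.card_fin] at h1
    rcases Nat.eq_zero_or_pos n with hn | hn
    · subst hn
      simp
    · have hn' : (0 : ℝ) < (n : ℝ) ^ r := by positivity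
      rw [div_le_iff₀ hn'] at h1
      refine h1.trans (le_of_eq ?_)
      rw [mul_comm]
      congr 1
      refine Finset.sum_congr rfl fun i _ => ?_
      rw [← pow_mul]
  have hm : ∀ i : Fin n, ∫⁻ x : Fin n → ℝ, ENNReal.ofReal (x i ^ (2 * (r + 1))) ∂(Measure.pi ν) ≤
      ENNReal.ofReal (2 * (r + 1).factorial * L ^ (2 * (r + 1))) := by
    intro i
    have h1 := (measurePreserving_eval ν i).lintegral_comp
      (f := fun t : ℝ => ENNReal.ofReal (t ^ (2 * (r + 1)))) (by fun_prop)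
    exact (le_of_eq h1).trans (mom_coord (h i) (r + 1))
  have hL : (0 : ℝ) ≤ 2 * (r + 1).factorial * L ^ (2 * (r + 1)) := by
    have : 0 ≤ L ^ (2 * (r + 1)) := (even_two_mul (r + 1)).pow_nonneg L
    positivity
  calc ∫⁻ x, ENNReal.ofReal ((∑ i, x i ^ 2) ^ (r + 1)) ∂(Measure.pi ν)
      ≤ ∫⁻ x, ENNReal.ofReal ((n : ℝ) ^ r) * ∑ i, ENNReal.ofReal (x i ^ (2 * (r + 1)))
          ∂(Measure.pi ν) := lintegral_mono hpt
    _ = ENNReal.ofReal ((n : ℝ) ^ r) * ∑ i, ∫⁻ x, ENNReal.ofReal (x i ^ (2 * (r + 1)))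
          ∂(Measure.pi ν) := by
        rw [lintegral_const_mul' _ _ ENNReal.ofReal_ne_top, lintegral_finsetSum]
        intro i _
        fun_prop
    _ ≤ ENNReal.ofReal ((n : ℝ) ^ r) * ∑ _i : Fin n,
          ENNReal.ofReal (2 * (r + 1).factorial * L ^ (2 * (r + 1))) := by
        gcongr with i
        exact hm i
    _ = ENNReal.ofReal (2 * (r + 1).factorial * L ^ (2 * (r + 1)) * n ^ (r + 1)) := by
        rw [Finset.sum_const, Finset.card_univ, Fintype.card_fin, nsmul_eq_mul,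
          ← ENNReal.ofReal_natCast, ← ENNReal.ofReal_mul (by positivity),
          ← ENNReal.ofReal_mul (by positivity)]
        congr 1
        ring

end Pool.Agent.MP_2a72d7_pr.Sm
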