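import Mathlib
import Pool.Agent.MP_2a72d7_pr.Defs
import Pool.Agent.MP_2a72d7_pr.Sm.Base
import Pool.Agent.MP_2a72d7_pr.Sm.P_momvec

namespace Pool.Agent.MP_2a72d7_pr.Sm

open MeasureTheory Matrix

theorem momten_sq {n d : ℕ} (x : Fin d → Fin n → ℝ) :
    ∑ J, ten x J ^ 2 = ∏ k, ∑ i, x k i ^ 2 := by
  rw [Finset.prod_univ_sum, Fintype.piFinset_univ]
  refine Finset.sum_congr rfl fun J _ => ?_
  unfold ten
  rw [Finset.prod_pow]

/-- `E ‖X‖^(2r) ≤ (2 r! L^(2r) n^r)^d`: `‖X‖² = ∏ₖ ‖xₖ‖²` (`Finset.prod_univ_sum`,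
`Fintype.piFinset_univ`) and independence (`lintegral_fintype_prod_eq_prod` or similar). -/
theorem mom_ten {L : ℝ} {n d : ℕ} (ν : Fin d → Fin n → Measure ℝ)
    (h : ∀ k i, Admissible L (ν k i)) (r : ℕ) :
    ∫⁻ x, ENNReal.ofReal ((∑ J, ten x J ^ 2) ^ r) ∂(tenLaw ν) ≤
      ENNReal.ofReal ((2 * r.factorial * L ^ (2 * r) * n ^ r) ^ d) := by
  have hp : ∀ k i, IsProbabilityMeasure (ν k i) := fun k i => (h k i).prob
  have hfm : Measurable fun y : Fin n → ℝ => ENNReal.ofReal ((∑ i, y i ^ 2) ^ r) := by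
    apply ENNReal.measurable_ofReal.comp
    apply Measurable.pow_const
    exact Finset.measurable_fun_sum _ fun i _ => (measurable_pi_apply i).pow_const 2
  have h1 : ∀ x : Fin d → Fin n → ℝ, ENNReal.ofReal ((∑ J, ten x J ^ 2) ^ r) =
      ∏ k, ENNReal.ofReal ((∑ i, x k i ^ 2) ^ r) := by
    intro x
    rw [momten_sq, ← Finset.prod_pow, ENNReal.ofReal_prod_of_nonneg fun k _ =>
      pow_nonneg (Finset.sum_nonneg fun i _ => sq_nonneg _) _]
  have hind : ProbabilityTheory.iIndepFun (fun (k : Fin d) (x : Fin d → Fin n → ℝ) =>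
      ENNReal.ofReal ((∑ i, x k i ^ 2) ^ r)) (tenLaw ν) := by
    unfold tenLaw
    exact ProbabilityTheory.iIndepFun_pi (X := fun _ (y : Fin n → ℝ) => ENNReal.ofReal ((∑ i, y i ^ 2) ^ r))
      fun _ => hfm.aemeasurable
  have h2 : ∀ k : Fin d, ∫⁻ x : Fin d → Fin n → ℝ, ENNReal.ofReal ((∑ i, x k i ^ 2) ^ r) ∂(tenLaw ν) =
      ∫⁻ y, ENNReal.ofReal ((∑ i, y i ^ 2) ^ r) ∂(Measure.pi (ν k)) := by
    intro k
    have := (measurePreserving_eval (fun k => Measure.pi (ν k)) k).lintegral_comp hfm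
    exact this
  rw [lintegral_congr h1, ProbabilityTheory.lintegral_prod_eq_prod_lintegral_of_indepFun Finset.univ _ hind
    (fun k => hfm.comp (measurable_pi_apply k)), Finset.prod_congr rfl fun k _ => h2 k]
  have hL : 0 ≤ 2 * r.factorial * L ^ (2 * r) * (n : ℝ) ^ r := by
    have : 0 ≤ L ^ (2 * r) := (even_two_mul r).pow_nonneg L
    positivity
  calc ∏ k, ∫⁻ y, ENNReal.ofReal ((∑ i, y i ^ 2) ^ r) ∂(Measure.pi (ν k))
      ≤ ∏ _k : Fin d, ENNReal.ofReal (2 * r.factorial * L ^ (2 * r) * n ^ r) :=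
        Finset.prod_le_prod' fun k _ => mom_vec (ν k) (h k) r
    _ = ENNReal.ofReal ((2 * r.factorial * L ^ (2 * r) * n ^ r) ^ d) := by
        rw [Finset.prod_const, Finset.card_univ, Fintype.card_fin, ENNReal.ofReal_pow hL]

end Pool.Agent.MP_2a72d7_pr.Sm
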