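import Mathlib
import Pool.Agent.MP_2a72d7_pr.Defs
import Pool.Agent.MP_2a72d7_pr.Sm.Base

namespace Pool.Agent.MP_2a72d7_pr.Sm

open MeasureTheory Matrix

theorem dyad_exists (a b u : ℝ) (ha : 0 < a) (hua : u ≤ a) (hub : u ≤ b) :
    ∃ k : ℕ, u ≤ b / 2 ^ k ∧ b / 2 ^ (k + 1) ≤ a := by
  classical
  have hex : ∃ k : ℕ, b / 2 ^ (k + 1) ≤ a := by
    obtain ⟨n, hn⟩ := pow_unbounded_of_one_lt (b / a) (one_lt_two : (1 : ℝ) < 2)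
    refine ⟨n, ?_⟩
    rw [div_le_iff₀ (by positivity)]
    rw [div_lt_iff₀ ha] at hn
    have h1 : (2 : ℝ) ^ n * a ≤ 2 ^ (n + 1) * a := by
      apply mul_le_mul_of_nonneg_right _ ha.le
      exact pow_le_pow_right₀ one_le_two (Nat.le_succ n)
    nlinarith [h1, hn]
  refine ⟨Nat.find hex, ?_, Nat.find_spec hex⟩
  rcases Nat.eq_zero_or_pos (Nat.find hex) with h0 | hpos
  · rw [h0]
    simpa using hub
  · obtain ⟨j, hj⟩ : ∃ j, Nat.find hex = j + 1 := ⟨Nat.find hex - 1, by omega⟩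
    have h1 := Nat.find_min hex (m := j) (by omega)
    rw [hj]
    push Not at h1
    exact hua.trans h1.le

theorem dyad_real (a b u : ℝ) (ha : 0 < a) (hb : 0 < b) (hu0 : 0 ≤ u) (k q m : ℕ)
    (h1 : u ≤ b / 2 ^ k) (h2 : b / 2 ^ (k + 1) ≤ a) :
    a⁻¹ ^ q * b⁻¹ ^ m ≤ 2 ^ (q + (q + m)) / 2 ^ (k * m) * ((u + b / 2 ^ k)⁻¹) ^ (q + m) := by
  have hk : (0 : ℝ) < 2 ^ k := by positivity
  have h3 : (2 * (b / 2 ^ k))⁻¹ ≤ (u + b / 2 ^ k)⁻¹ := by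
    apply inv_anti₀
    · positivity
    · linarith
  have h4 : a⁻¹ ≤ (b / 2 ^ (k + 1))⁻¹ := inv_anti₀ (by positivity) h2
  have h5 : a⁻¹ ^ q ≤ ((b / 2 ^ (k + 1))⁻¹) ^ q := pow_le_pow_left₀ (by positivity) h4 q
  have h6 : ((2 * (b / 2 ^ k))⁻¹) ^ (q + m) ≤ ((u + b / 2 ^ k)⁻¹) ^ (q + m) :=
    pow_le_pow_left₀ (by positivity) h3 _
  have h7 : ((b / 2 ^ (k + 1))⁻¹) ^ q * b⁻¹ ^ m =
      2 ^ (q + (q + m)) / 2 ^ (k * m) * ((2 * (b / 2 ^ k))⁻¹) ^ (q + m) := by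
    have hb' : b ≠ 0 := hb.ne'
    rw [show (b / 2 ^ (k + 1))⁻¹ = 2 * 2 ^ k * b⁻¹ by
        rw [inv_div, pow_succ]
        ring,
      show (2 * (b / 2 ^ k))⁻¹ = 2⁻¹ * 2 ^ k * b⁻¹ by
        rw [mul_inv, inv_div]
        ring]
    simp only [mul_pow, pow_add, pow_mul (2 : ℝ) k m, inv_pow (2 : ℝ)]
    have e1 : (2 : ℝ) ^ q ≠ 0 := by positivity
    have e2 : (2 : ℝ) ^ m ≠ 0 := by positivity
    have e3 : ((2 : ℝ) ^ k) ^ m ≠ 0 := by positivity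
    generalize (2 : ℝ) ^ q = x at *
    generalize (2 : ℝ) ^ m = y at *
    generalize ((2 : ℝ) ^ k) ^ m = z at *
    generalize ((2 : ℝ) ^ k) ^ q = w at *
    generalize b⁻¹ ^ q = v at *
    generalize b⁻¹ ^ m = r at *
    field_simp
  calc a⁻¹ ^ q * b⁻¹ ^ m ≤ ((b / 2 ^ (k + 1))⁻¹) ^ q * b⁻¹ ^ m :=
        mul_le_mul_of_nonneg_right h5 (by positivity)
    _ = 2 ^ (q + (q + m)) / 2 ^ (k * m) * ((2 * (b / 2 ^ k))⁻¹) ^ (q + m) := h7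
    _ ≤ _ := mul_le_mul_of_nonneg_left h6 (by positivity)

/-- Pointwise dyadic inequality:
`a^(-q) b^(-(s-q)) ≤ ∑ₖ 2^(q+s) 2^(-k(s-q)) (u + b/2^k)^(-s)` for `0 ≤ u ≤ a`, `u ≤ b`.
Proof: if `b = 0` then `u = 0` and the term `k = 0` is `⊤`.  If `a ≥ b > 0` the term `k = 0` is
enough: `u + b ≤ 2b`, so it is `≥ 2^q b^(-s) ≥ a^(-q) b^(q-s)`.  If `a < b` choose `k` with
`2^(-k-1) b < a ≤ 2^(-k) b`: `u + b/2^k ≤ 2b/2^k`, so the term is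
`≥ 2^q (b/2^k)^(-q) b^(-(s-q)) ≥ a^(-q) b^(-(s-q))`. -/
theorem dyad (a b u : ℝ) (ha : 0 < a) (hb : 0 ≤ b) (hu0 : 0 ≤ u) (hua : u ≤ a) (hub : u ≤ b)
    (q s : ℕ) (hs : 1 ≤ s) (hqs : q ≤ s) :
    (ENNReal.ofReal a)⁻¹ ^ q * (ENNReal.ofReal b)⁻¹ ^ (s - q) ≤
      ∑' k : ℕ, ENNReal.ofReal (2 ^ (q + s) / 2 ^ (k * (s - q))) *
        ((ENNReal.ofReal (u + b / 2 ^ k))⁻¹) ^ s := by
  rcases hb.eq_or_lt with hb0 | hbpos
  · have hu : u = 0 := le_antisymm (by rw [hb0]; exact hub) hu0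
    have h1 : ENNReal.ofReal (2 ^ (q + s) / 2 ^ (0 * (s - q))) *
        ((ENNReal.ofReal (u + b / 2 ^ 0))⁻¹) ^ s = ⊤ := by
      rw [hu, ← hb0]
      have h2 : ENNReal.ofReal ((0 : ℝ) + 0 / 2 ^ 0) = 0 := by simp
      rw [h2, ENNReal.inv_zero, ENNReal.top_pow (by omega : s ≠ 0)]
      apply ENNReal.mul_top
      have h3 : (0 : ℝ) < 2 ^ (q + s) / 2 ^ (0 * (s - q)) := by positivity
      exact (ENNReal.ofReal_pos.2 h3).ne'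
    refine le_trans ?_ (ENNReal.le_tsum 0)
    rw [h1]
    exact le_top
  · obtain ⟨m, rfl⟩ : ∃ m, s = q + m := ⟨s - q, by omega⟩
    obtain ⟨k, hk1, hk2⟩ := dyad_exists a b u ha hua hub
    refine le_trans ?_ (ENNReal.le_tsum k)
    have h1 := dyad_real a b u ha hbpos hu0 k q m hk1 hk2
    have h2 : q + m - q = m := by omega
    have hpos : 0 < u + b / 2 ^ k := by positivity
    rw [h2, ← ENNReal.ofReal_inv_of_pos ha, ← ENNReal.ofReal_inv_of_pos hbpos,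
      ← ENNReal.ofReal_inv_of_pos hpos, ← ENNReal.ofReal_pow (by positivity),
      ← ENNReal.ofReal_pow (by positivity), ← ENNReal.ofReal_pow (by positivity),
      ← ENNReal.ofReal_mul (by positivity), ← ENNReal.ofReal_mul (by positivity)]
    exact ENNReal.ofReal_le_ofReal h1

end Pool.Agent.MP_2a72d7_pr.Sm
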