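import Mathlib
import Pool.Agent.MP_2a72d7_pr.Defs
import Pool.Agent.MP_2a72d7_pr.Sm.Base
import Pool.Agent.MP_2a72d7_pr.Sm.P_detzP
import Pool.Agent.MP_2a72d7_pr.Sm.P_reg1

namespace Pool.Agent.MP_2a72d7_pr.Sm

open MeasureTheory Matrix

variable {m : ℕ} {ι : Type*} [Fintype ι] [DecidableEq ι]

/-- If `m ≤ (1-ε) N` and `0 < z ≤ 1` then `gm (z + P) ≥ z^(1-ε)`. -/
theorem gm_zP [Nonempty ι] (Y : Matrix (Fin m) ι ℝ) (η : ℝ) (hη : 0 < η) (z : ℝ) (hz : 0 < z)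
    (hz1 : z ≤ 1) (ε : ℝ) (hε : 0 < ε) (hm : (m : ℝ) ≤ (1 - ε) * Fintype.card ι) :
    z ^ (1 - ε) ≤ gm (z • (1 : Matrix ι ι ℝ) + Pe Y η) := by
  have hN : (0 : ℝ) < Fintype.card ι := Nat.cast_pos.2 Fintype.card_pos
  have hm' : m ≤ Fintype.card ι := by
    have h : (m : ℝ) ≤ Fintype.card ι := by nlinarith
    exact_mod_cast h
  have h1 := det_zP Y η hη z hz hm'
  have h2 : (m : ℝ) * (1 / (Fintype.card ι : ℝ)) ≤ 1 - ε := by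
    rw [mul_one_div, div_le_iff₀ hN]
    exact hm
  unfold gm
  calc z ^ (1 - ε) ≤ z ^ ((m : ℝ) * (1 / (Fintype.card ι : ℝ))) :=
        Real.rpow_le_rpow_of_exponent_ge hz hz1 h2
    _ = (z ^ m) ^ (1 / (Fintype.card ι : ℝ)) := by
        rw [Real.rpow_mul hz.le, Real.rpow_natCast]
    _ ≤ (z • (1 : Matrix ι ι ℝ) + Pe Y η).det ^ (1 / (Fintype.card ι : ℝ)) :=
        Real.rpow_le_rpow (pow_nonneg hz.le m) h1 (by positivity)

end Pool.Agent.MP_2a72d7_pr.Sm
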