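import Mathlib
import Pool.Agent.MP_2a72d7_pr.Defs
import Pool.Agent.MP_2a72d7_pr.Sm.Base
import Pool.Agent.MP_2a72d7_pr.Sm.P_iter
import Pool.Agent.MP_2a72d7_pr.Sm.P_dyad
import Pool.Agent.MP_2a72d7_pr.Sm.P_gmzP
import Pool.Agent.MP_2a72d7_pr.Sm.P_reg1
import Pool.Agent.MP_2a72d7_pr.Sm.P_con1

namespace Pool.Agent.MP_2a72d7_pr.Sm

open MeasureTheory Matrix

theorem negmix_meas_ten {n d : ℕ} (J : Fin d → Fin n) :
    Measurable fun x : Fin d → Fin n → ℝ => ten x J := by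
  unfold ten
  exact Finset.measurable_prod _ fun k _ =>
    (measurable_pi_apply (J k)).comp (measurable_pi_apply k)

theorem negmix_meas_quad {n d : ℕ} (A : Matrix (Fin d → Fin n) (Fin d → Fin n) ℝ) :
    Measurable fun x : Fin d → Fin n → ℝ => quad A (ten x) := by
  unfold quad
  simp only [dotProduct, Matrix.mulVec]
  exact Finset.measurable_sum _ fun J _ => (negmix_meas_ten J).mul
    (Finset.measurable_sum _ fun J' _ => (negmix_meas_ten J').const_mul _)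

theorem negmix_arith (s q k : ℕ) (hqs : q ≤ s) (ε : ℝ) (hεs : (q : ℝ) + 1 ≤ ε * s)
    (D g : ℝ) (hD : 0 < D) (hg : ((2 : ℝ) ^ k)⁻¹ ^ (1 - ε) ≤ g) :
    (2 : ℝ) ^ (q + s) / 2 ^ (k * (s - q)) * (D / g) ^ s ≤
      2 ^ (q + s) * D ^ s * (1 / 2) ^ k := by
  have h2k : (0 : ℝ) < 2 ^ k := by positivity
  have hz : (0 : ℝ) < ((2 : ℝ) ^ k)⁻¹ ^ (1 - ε) := Real.rpow_pos_of_pos (by positivity) _
  have hg0 : 0 < g := lt_of_lt_of_le hz hg
  have h1 : (D / g) ^ s ≤ D ^ s * (2 : ℝ) ^ ((k : ℝ) * ((1 - ε) * s)) := by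
    have h3 : D / g ≤ D * (2 : ℝ) ^ ((k : ℝ) * (1 - ε)) := by
      rw [div_eq_mul_inv]
      apply mul_le_mul_of_nonneg_left _ hD.le
      rw [inv_le_comm₀ hg0 (by positivity)]
      refine le_trans (le_of_eq ?_) hg
      rw [← Real.rpow_natCast 2 k, ← Real.rpow_neg (by norm_num), ← Real.rpow_neg (by norm_num),
        ← Real.rpow_mul (by norm_num)]
      congr 1
      ring
    calc (D / g) ^ s ≤ (D * (2 : ℝ) ^ ((k : ℝ) * (1 - ε))) ^ s :=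
          pow_le_pow_left₀ (by positivity) h3 s
      _ = D ^ s * (2 : ℝ) ^ ((k : ℝ) * ((1 - ε) * s)) := by
          rw [mul_pow, ← Real.rpow_natCast ((2 : ℝ) ^ ((k : ℝ) * (1 - ε))) s,
            ← Real.rpow_mul (by norm_num)]
          congr 2
          ring
  have h4 : (2 : ℝ) ^ ((k : ℝ) * ((1 - ε) * s)) / 2 ^ (k * (s - q)) ≤ (1 / 2) ^ k := by
    have e1 : (2 : ℝ) ^ (k * (s - q)) = (2 : ℝ) ^ ((k : ℝ) * ((s : ℝ) - q)) := by
      rw [← Real.rpow_natCast]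
      congr 1
      push_cast [Nat.cast_sub hqs]
      ring
    have e2 : ((1 : ℝ) / 2) ^ k = (2 : ℝ) ^ (-(k : ℝ)) := by
      rw [Real.rpow_neg (by norm_num), Real.rpow_natCast, one_div, inv_pow]
    rw [e1, e2, ← Real.rpow_sub (by norm_num)]
    apply Real.rpow_le_rpow_of_exponent_le (by norm_num)
    have hk : (0 : ℝ) ≤ k := Nat.cast_nonneg k
    nlinarith [mul_le_mul_of_nonneg_left hεs hk]
  calc (2 : ℝ) ^ (q + s) / 2 ^ (k * (s - q)) * (D / g) ^ s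
      ≤ (2 : ℝ) ^ (q + s) / 2 ^ (k * (s - q)) *
          (D ^ s * (2 : ℝ) ^ ((k : ℝ) * ((1 - ε) * s))) :=
        mul_le_mul_of_nonneg_left h1 (by positivity)
    _ = 2 ^ (q + s) * D ^ s * ((2 : ℝ) ^ ((k : ℝ) * ((1 - ε) * s)) / 2 ^ (k * (s - q))) := by
        ring
    _ ≤ 2 ^ (q + s) * D ^ s * (1 / 2) ^ k :=
        mul_le_mul_of_nonneg_left h4 (by positivity)

/-- `E (η + ⟨X,PX⟩)^(-q) ‖X‖^(-2(s-q)) ≤ 2^(q+s+1) ((2592M²/n)^d)^s` if `q + 1 ≤ ε s`.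
Proof: `dyad` with `a = η + ⟨X,PX⟩`, `b = ‖X‖²`, `u = ⟨X,PX⟩`; `u + b/2^k = quad (z + P) X` with
`z = 2^(-k)` (`quad_zP`); integrate with `lintegral_tsum` and `iter`; `gm_zP`:
`gm (z+P)^(-s) ≤ 2^(k(1-ε)s)`; the sum over `k` of
`2^(q+s) 2^(-k(s-q)) 2^(k(1-ε)s) = 2^(q+s) 2^(-k(εs-q)) ≤ 2^(q+s) 2^(-k)` is `≤ 2^(q+s+1)`. -/
theorem neg_mix {n : ℕ} (hn : 0 < n) (M : ℝ) (hM : 0 < M) (s q : ℕ) (hs : 1 ≤ s) (hqs : q ≤ s)
    (hns : 2 * s + 2 ≤ n) (d : ℕ)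
    (μ : Fin d → Measure (Fin n → ℝ)) [∀ k, IsProbabilityMeasure (μ k)]
    (hμ : ∀ k S, MeasurableSet S → μ k S ≤ ENNReal.ofReal (M ^ n) * volume S)
    (h2 : ∀ k i, Integrable (fun x => x i ^ 2) (μ k))
    (ε : ℝ) (hε : 0 < ε) (hεs : (q : ℝ) + 1 ≤ ε * s) (m : ℕ)
    (hm : (m : ℝ) ≤ (1 - ε) * (n : ℝ) ^ d) (Y : Matrix (Fin m) (Fin d → Fin n) ℝ) (η : ℝ)
    (hη : 0 < η) :
    ∫⁻ x, (ENNReal.ofReal (η + quad (Pe Y η) (ten x)))⁻¹ ^ q *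
        (ENNReal.ofReal (∑ J, ten x J ^ 2))⁻¹ ^ (s - q) ∂(Measure.pi μ) ≤
      ENNReal.ofReal (2 ^ (q + s + 1) * ((2592 * M ^ 2 / n) ^ d) ^ s) := by
  have : Nonempty (Fin d → Fin n) := ⟨fun _ => ⟨0, hn⟩⟩
  have hn' : (0 : ℝ) < n := by exact_mod_cast hn
  have hDp : 0 < (2592 * M ^ 2 / (n : ℝ)) ^ d := by positivity
  have hcard : (m : ℝ) ≤ (1 - ε) * Fintype.card (Fin d → Fin n) := by
    simpa using hm
  have hquad : ∀ (k : ℕ) (x : Fin d → Fin n → ℝ),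
      quad (Pe Y η) (ten x) + (∑ J, ten x J ^ 2) / 2 ^ k =
        quad (((2 : ℝ) ^ k)⁻¹ • (1 : Matrix (Fin d → Fin n) (Fin d → Fin n) ℝ) + Pe Y η)
          (ten x) := by
    intro k x
    rw [quad_zP, div_eq_inv_mul]
  have key : ∀ k : ℕ, ∫⁻ x, ENNReal.ofReal (2 ^ (q + s) / 2 ^ (k * (s - q))) *
      ((ENNReal.ofReal (quad (Pe Y η) (ten x) + (∑ J, ten x J ^ 2) / 2 ^ k))⁻¹) ^ s
        ∂(Measure.pi μ) ≤
      ENNReal.ofReal (2 ^ (q + s) * ((2592 * M ^ 2 / (n : ℝ)) ^ d) ^ s * (1 / 2) ^ k) := by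
    intro k
    have hz : (0 : ℝ) < ((2 : ℝ) ^ k)⁻¹ := by positivity
    have hz1 : ((2 : ℝ) ^ k)⁻¹ ≤ 1 := inv_le_one_of_one_le₀ (one_le_pow₀ (by norm_num))
    rw [lintegral_const_mul' _ _ ENNReal.ofReal_ne_top]
    have h1 := iter hn M hM s hs hns d μ hμ h2
      (((2 : ℝ) ^ k)⁻¹ • (1 : Matrix (Fin d → Fin n) (Fin d → Fin n) ℝ) + Pe Y η)
      (zP_posDef Y η hη _ hz)
    simp only [hquad k]
    refine (mul_le_mul_right h1 _).trans ?_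
    rw [← ENNReal.ofReal_mul (by positivity)]
    apply ENNReal.ofReal_le_ofReal
    exact negmix_arith s q k hqs ε hεs _ _ hDp
      (gm_zP Y η hη _ hz hz1 ε hε hcard)
  calc ∫⁻ x, (ENNReal.ofReal (η + quad (Pe Y η) (ten x)))⁻¹ ^ q *
        (ENNReal.ofReal (∑ J, ten x J ^ 2))⁻¹ ^ (s - q) ∂(Measure.pi μ)
      ≤ ∫⁻ x, ∑' k : ℕ, ENNReal.ofReal (2 ^ (q + s) / 2 ^ (k * (s - q))) *
          ((ENNReal.ofReal (quad (Pe Y η) (ten x) + (∑ J, ten x J ^ 2) / 2 ^ k))⁻¹) ^ s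
          ∂(Measure.pi μ) := by
        apply lintegral_mono
        intro x
        have h0 := Pe_nonneg Y η hη (ten x)
        exact dyad (η + quad (Pe Y η) (ten x)) (∑ J, ten x J ^ 2) (quad (Pe Y η) (ten x))
          (by linarith) (Finset.sum_nonneg fun J _ => sq_nonneg _) h0 (by linarith)
          (Pe_le Y η hη (ten x)) q s hs hqs
    _ = ∑' k : ℕ, ∫⁻ x, ENNReal.ofReal (2 ^ (q + s) / 2 ^ (k * (s - q))) *
          ((ENNReal.ofReal (quad (Pe Y η) (ten x) + (∑ J, ten x J ^ 2) / 2 ^ k))⁻¹) ^ s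
          ∂(Measure.pi μ) := by
        rw [lintegral_tsum]
        intro k
        simp only [hquad k]
        exact ((((negmix_meas_quad _).ennreal_ofReal.inv).pow_const s).const_mul _).aemeasurable
    _ ≤ ∑' k : ℕ, ENNReal.ofReal
          (2 ^ (q + s) * ((2592 * M ^ 2 / (n : ℝ)) ^ d) ^ s * (1 / 2) ^ k) :=
        ENNReal.tsum_le_tsum key
    _ = ENNReal.ofReal (2 ^ (q + s + 1) * ((2592 * M ^ 2 / n) ^ d) ^ s) := by
        rw [← ENNReal.ofReal_tsum_of_nonneg (fun k => by positivity)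
          (summable_geometric_two.mul_left _)]
        rw [tsum_mul_left, tsum_geometric_two]
        congr 1
        ring

end Pool.Agent.MP_2a72d7_pr.Sm
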