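import Mathlib
import Pool.Agent.MP_2a72d7_pr.Defs
import Pool.Agent.MP_2a72d7_pr.Sm.Base

namespace Pool.Agent.MP_2a72d7_pr.Sm

open MeasureTheory Matrix

theorem pidom_mono {n : ℕ} (ν μ : Fin n → Measure ℝ) (h : ∀ i, ν i ≤ μ i) (S : Set (Fin n → ℝ))
    (hS : MeasurableSet S) : Measure.pi ν S ≤ Measure.pi μ S := by
  rw [Measure.pi, Measure.pi, toMeasure_apply _ _ hS, toMeasure_apply _ _ hS]
  have h1 : (OuterMeasure.pi fun i => (ν i).toOuterMeasure) ≤ OuterMeasure.pi fun i => (μ i).toOuterMeasure := by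
    rw [OuterMeasure.le_pi]
    intro s _
    exact (OuterMeasure.pi_pi_le _ s).trans (Finset.prod_le_prod' fun i _ => h i (s i))
  exact h1 S

/-- Product measures of laws with densities at most `M` have density at most `Mⁿ`.  Proof:
`Measure.pi ν ≤ Measure.pi (M • volume)` (monotonicity of `OuterMeasure.boundedBy`, or
induction on `n`, or `pi_eq` with densities) and
`Measure.pi (M • volume) = Mⁿ • volume` (`Measure.pi_eq`). -/
theorem pi_dom {n : ℕ} (ν : Fin n → Measure ℝ) [∀ i, IsProbabilityMeasure (ν i)] (M : ℝ)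
    (hM : 0 < M) (h : ∀ i, ν i ≤ ENNReal.ofReal M • volume) (S : Set (Fin n → ℝ))
    (hS : MeasurableSet S) :
    Measure.pi ν S ≤ ENNReal.ofReal (M ^ n) * volume S := by
  have h1 := pidom_mono ν (fun _ => ENNReal.ofReal M • volume) h S hS
  refine h1.trans (le_of_eq ?_)
  have hsf : SigmaFinite (ENNReal.ofReal M • (volume : Measure ℝ)) :=
    inferInstanceAs (SigmaFinite (M.toNNReal • (volume : Measure ℝ)))
  have h2 : Measure.pi (fun _ : Fin n => ENNReal.ofReal M • (volume : Measure ℝ)) =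
      ENNReal.ofReal (M ^ n) • (volume : Measure (Fin n → ℝ)) := by
    refine Measure.pi_eq fun s hs => ?_
    rw [Measure.smul_apply, smul_eq_mul, volume_pi_pi]
    have h3 : ∀ i, (ENNReal.ofReal M • (volume : Measure ℝ)) (s i) = ENNReal.ofReal M * volume (s i) := fun i => by
      rw [Measure.smul_apply, smul_eq_mul]
    simp only [h3, Finset.prod_mul_distrib, Finset.prod_const, Finset.card_univ, Fintype.card_fin,
      ENNReal.ofReal_pow hM.le]
  rw [h2, Measure.smul_apply, smul_eq_mul]

end Pool.Agent.MP_2a72d7_pr.Sm
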