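import Mathlib
import Pool.Agent.MP_2a72d7_pr.Defs
import Pool.Agent.MP_2a72d7_pr.Sm.Base
import Pool.Agent.MP_2a72d7_pr.Sm.P_negmix
import Pool.Agent.MP_2a72d7_pr.Sm.P_momten
import Pool.Agent.MP_2a72d7_pr.Sm.P_pidom
import Pool.Agent.MP_2a72d7_pr.Sm.P_mom1

namespace Pool.Agent.MP_2a72d7_pr.Sm

open MeasureTheory Matrix

theorem neg_integrable {L : ℝ} {n : ℕ} (ν : Fin n → Measure ℝ) (h : ∀ i, Admissible L (ν i))
    (i : Fin n) : Integrable (fun x : Fin n → ℝ => x i ^ 2) (Measure.pi ν) := by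
  have hp : ∀ i, IsProbabilityMeasure (ν i) := fun i => (h i).prob
  have h1 : Integrable (fun y : ℝ => y ^ 2) (ν i) :=
    integrable_of_integral_eq_one (h i).unit_variance
  exact (measurePreserving_eval ν i).integrable_comp_of_integrable h1

/-- pointwise factorisation -/
theorem neg_point (a b : ℝ) (ha : 0 < a) (hb : 0 < b) (q r : ℕ) :
    (ENNReal.ofReal a)⁻¹ ^ q =
      (((ENNReal.ofReal a)⁻¹ ^ (2 * q) * (ENNReal.ofReal b)⁻¹ ^ r) ^ ((1 : ℝ) / 2)) *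
        ((ENNReal.ofReal (b ^ r)) ^ ((1 : ℝ) / 2)) := by
  rw [← ENNReal.mul_rpow_of_nonneg _ _ (by norm_num : (0 : ℝ) ≤ 1 / 2), mul_assoc]
  have h1 : (ENNReal.ofReal b)⁻¹ ^ r * ENNReal.ofReal (b ^ r) = 1 := by
    rw [ENNReal.ofReal_pow hb.le, ← mul_pow, ENNReal.inv_mul_cancel
      (by simpa using hb) ENNReal.ofReal_ne_top, one_pow]
  rw [h1, mul_one, mul_comm 2 q, pow_mul, ← ENNReal.rpow_natCast (_ ^ q) 2,
    ← ENNReal.rpow_mul]
  norm_num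

theorem neg_arith (M L : ℝ) (s q r n d : ℕ) (hn : 0 < n) (hr : r + 2 * q = s) (C : ℝ)
    (hC1 : 1 ≤ C) (hC2 : (2 : ℝ) ^ (2 * q + s + 1) ≤ C)
    (hC3 : (2592 * M ^ 2) ^ s * (2 * r.factorial * L ^ (2 * r)) ≤ C) :
    (2 ^ (2 * q + s + 1) * ((2592 * M ^ 2 / (n : ℝ)) ^ d) ^ s) ^ ((1 : ℝ) / 2) *
      ((2 * r.factorial * L ^ (2 * r) * (n : ℝ) ^ r) ^ d) ^ ((1 : ℝ) / 2) ≤
        C ^ (d + 1) / ((n : ℝ) ^ d) ^ q := by
  have hn' : (0 : ℝ) < n := by exact_mod_cast hn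
  have hL : 0 ≤ L ^ (2 * r) := by rw [pow_mul]; positivity
  set K : ℝ := (2592 * M ^ 2) ^ s * (2 * r.factorial * L ^ (2 * r)) with hK
  have hK0 : 0 ≤ K := by positivity
  rw [← Real.mul_rpow (by positivity) (by positivity)]
  have e1 : 2 ^ (2 * q + s + 1) * ((2592 * M ^ 2 / (n : ℝ)) ^ d) ^ s *
      (2 * r.factorial * L ^ (2 * r) * (n : ℝ) ^ r) ^ d =
      (2 ^ (2 * q + s + 1) * K ^ d) / (((n : ℝ) ^ d) ^ q) ^ 2 := by
    have hs : (n : ℝ) ^ s = (n : ℝ) ^ r * ((n : ℝ) ^ q) ^ 2 := by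
      rw [← hr, pow_add, ← pow_mul, mul_comm q 2]
    have h2 : ((2592 * M ^ 2 / (n : ℝ)) ^ d) ^ s * (2 * r.factorial * L ^ (2 * r) *
        (n : ℝ) ^ r) ^ d = ((2592 * M ^ 2) ^ s / (n : ℝ) ^ s *
          (2 * r.factorial * L ^ (2 * r) * (n : ℝ) ^ r)) ^ d := by
      rw [← pow_mul, mul_comm d s, pow_mul, ← mul_pow, div_pow]
    have h3 : (2592 * M ^ 2) ^ s / (n : ℝ) ^ s *
          (2 * r.factorial * L ^ (2 * r) * (n : ℝ) ^ r) = K / ((n : ℝ) ^ q) ^ 2 := by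
      rw [hs, hK]
      field_simp
    rw [mul_assoc, h2, h3, div_pow]
    have h4 : ((((n : ℝ) ^ q) ^ 2) ^ d) = (((n : ℝ) ^ d) ^ q) ^ 2 := by
      simp only [← pow_mul]
      congr 1
      ring
    rw [h4]
    ring
  rw [e1, Real.div_rpow (by positivity) (by positivity), ← Real.sqrt_eq_rpow,
    ← Real.sqrt_eq_rpow, Real.sqrt_sq (by positivity)]
  apply div_le_div_of_nonneg_right _ (by positivity)
  have h5 : (2 : ℝ) ^ (2 * q + s + 1) * K ^ d ≤ C ^ (d + 1) := by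
    rw [pow_succ' C d]
    exact mul_le_mul hC2 (pow_le_pow_left₀ hK0 hC3 d) (by positivity) (by positivity)
  have h6 : 1 ≤ C ^ (d + 1) := one_le_pow₀ hC1
  calc Real.sqrt (2 ^ (2 * q + s + 1) * K ^ d) ≤ Real.sqrt (C ^ (d + 1)) :=
        Real.sqrt_le_sqrt h5
    _ ≤ C ^ (d + 1) := by
        rw [Real.sqrt_le_left (by positivity)]
        nlinarith

/-- `E (η + ⟨X,PX⟩)^(-q) ≤ C^(d+1) N^(-q)`, `N = n^d`, with `C`, `n₀` depending only on
`L, M, ε, q`.  Proof: `s` with `2q + 1 ≤ ε s`, `n₀ = 2s+2`; pointwise (for `‖X‖ > 0`)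
`a^(-q) = (a^(-2q) b^(-(s-2q)))^(1/2) (b^(s-2q))^(1/2)`, Cauchy-Schwarz
(`ENNReal.lintegral_mul_le_Lp_mul_Lq` with `p = q = 2`), `neg_mix` (with `2q`), `mom_ten` (with
`r = s-2q`): `≤ (2^(2q+s+1) (2592M²)^(ds) n^(-ds))^(1/2) ((2 r! L^(2r))^d n^(dr))^(1/2)`. -/
theorem neg {L M ε : ℝ} (hM : 0 < M) (hε : 0 < ε) (hε1 : ε < 1) (q : ℕ) :
    ∃ C : ℝ, 1 ≤ C ∧ ∃ n₀ : ℕ, ∀ n ≥ n₀, ∀ (d : ℕ) (ν : Fin d → Fin n → Measure ℝ),
      (∀ k i, Admissible L (ν k i)) → (∀ k i, ν k i ≤ ENNReal.ofReal M • volume) →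
      ∀ m : ℕ, (m : ℝ) ≤ (1 - ε) * (n : ℝ) ^ d →
      ∀ (Y : Matrix (Fin m) (Fin d → Fin n) ℝ) (η : ℝ), 0 < η →
      ∫⁻ x, (ENNReal.ofReal (η + quad (Pe Y η) (ten x)))⁻¹ ^ q ∂(tenLaw ν) ≤
        ENNReal.ofReal (C ^ (d + 1) / ((n : ℝ) ^ d) ^ q) := by
  obtain ⟨s, hs⟩ := exists_nat_ge ((2 * (q : ℝ) + 1) / ε)
  have hεs : 2 * (q : ℝ) + 1 ≤ ε * s := by
    rw [div_le_iff₀ hε] at hs
    linarith
  have hs2 : 2 * q + 1 < s := by
    have h1 : ε * (s : ℝ) < s ∨ (s : ℝ) = 0 := by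
      rcases (Nat.cast_nonneg s : (0 : ℝ) ≤ s).eq_or_lt with h | h
      · exact Or.inr h.symm
      · left
        nlinarith
    have h3 : (0 : ℝ) ≤ q := Nat.cast_nonneg q
    have h2 : (2 * (q : ℝ) + 1) < s := by
      rcases h1 with h1 | h1
      · linarith
      · rw [h1, mul_zero] at hεs
        linarith
    exact_mod_cast h2
  set r := s - 2 * q with hrdef
  have hr : r + 2 * q = s := by omega
  set K : ℝ := (2592 * M ^ 2) ^ s * (2 * r.factorial * L ^ (2 * r)) with hK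
  refine ⟨max (2 ^ (2 * q + s + 1)) K, le_max_of_le_left (one_le_pow₀ (by norm_num)),
    2 * s + 2, ?_⟩
  intro n hn d ν hν hdom m hm Y η hη
  have hn0 : 0 < n := by omega
  have hp : ∀ k i, IsProbabilityMeasure (ν k i) := fun k i => (hν k i).prob
  have hp2 : ∀ k, IsProbabilityMeasure (Measure.pi (ν k)) := fun k => inferInstance
  have hmix := neg_mix hn0 M hM s (2 * q) (by omega) (by omega) (by omega) d
    (fun k => Measure.pi (ν k)) (fun k S hS => pi_dom (ν k) M hM (hdom k) S hS)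
    (fun k i => neg_integrable (ν k) (hν k) i) ε hε (by push_cast; linarith) m hm Y η hη
  have hten := mom_ten ν hν r
  rw [← hrdef] at hmix
  change ∫⁻ x, _ ∂(tenLaw ν) ≤ _ at hmix
  have hmF : Measurable fun x : Fin d → Fin n → ℝ =>
      (ENNReal.ofReal (η + quad (Pe Y η) (ten x)))⁻¹ ^ (2 * q) *
        (ENNReal.ofReal (∑ J, ten x J ^ 2))⁻¹ ^ r :=
    ((((negmix_meas_quad _).const_add η).ennreal_ofReal.inv).pow_const _).mul
      (((Finset.measurable_sum _ fun J _ =>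
        (negmix_meas_ten J).pow_const 2).ennreal_ofReal.inv).pow_const _)
  have hmG : Measurable fun x : Fin d → Fin n → ℝ =>
      ENNReal.ofReal ((∑ J, ten x J ^ 2) ^ r) :=
    ((Finset.measurable_sum _ fun J _ =>
        (negmix_meas_ten J).pow_const 2).pow_const r).ennreal_ofReal
  have hae := ae_lt_top hmF (lt_of_le_of_lt hmix ENNReal.ofReal_lt_top).ne
  have hpt : ∀ᵐ x ∂(tenLaw ν), (ENNReal.ofReal (η + quad (Pe Y η) (ten x)))⁻¹ ^ q =
      ((fun x : Fin d → Fin n → ℝ =>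
        ((ENNReal.ofReal (η + quad (Pe Y η) (ten x)))⁻¹ ^ (2 * q) *
        (ENNReal.ofReal (∑ J, ten x J ^ 2))⁻¹ ^ r) ^ ((1 : ℝ) / 2)) *
      (fun x : Fin d → Fin n → ℝ =>
        (ENNReal.ofReal ((∑ J, ten x J ^ 2) ^ r)) ^ ((1 : ℝ) / 2))) x := by
    filter_upwards [hae] with x hx
    have h0 := Pe_nonneg Y η hη (ten x)
    have ha : 0 < η + quad (Pe Y η) (ten x) := by linarith
    have hb0 : 0 ≤ ∑ J, ten x J ^ 2 := Finset.sum_nonneg fun J _ => sq_nonneg _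
    have hb : 0 < ∑ J, ten x J ^ 2 := by
      rcases hb0.eq_or_lt with h | h
      · exfalso
        rw [← h, ENNReal.ofReal_zero, ENNReal.inv_zero, ENNReal.top_pow (by omega),
          ENNReal.mul_top] at hx
        · exact lt_irrefl _ hx
        · exact pow_ne_zero _ (ENNReal.inv_ne_zero.mpr ENNReal.ofReal_ne_top)
      · exact h
    exact neg_point _ _ ha hb q r
  rw [lintegral_congr_ae hpt]
  refine (ENNReal.lintegral_mul_le_Lp_mul_Lq (tenLaw ν)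
    (Real.HolderConjugate.two_two) (hmF.pow_const _).aemeasurable
    (hmG.pow_const _).aemeasurable).trans ?_
  have e2 : ∀ y : ENNReal, (y ^ ((1 : ℝ) / 2)) ^ (2 : ℝ) = y := by
    intro y
    rw [← ENNReal.rpow_mul]
    norm_num
  simp only [e2]
  refine (mul_le_mul' (ENNReal.rpow_le_rpow hmix (by norm_num))
    (ENNReal.rpow_le_rpow hten (by norm_num))).trans ?_
  have hL : 0 ≤ L ^ (2 * r) := by rw [pow_mul]; positivity
  rw [ENNReal.ofReal_rpow_of_nonneg (by positivity) (by norm_num),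
    ENNReal.ofReal_rpow_of_nonneg (by positivity) (by norm_num),
    ← ENNReal.ofReal_mul (by positivity)]
  apply ENNReal.ofReal_le_ofReal
  exact neg_arith M L s q r n d hn0 hr _ (le_max_of_le_left (one_le_pow₀ (by norm_num)))
    (le_max_left _ _) (le_max_right _ _)

end Pool.Agent.MP_2a72d7_pr.Sm
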