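import Mathlib
import Pool.Agent.MP_2a72d7_pr.Defs
import Pool.Agent.MP_2a72d7_pr.Sm.Base
import Pool.Agent.MP_2a72d7_pr.Sm.P_neg
import Pool.Agent.MP_2a72d7_pr.Sm.P_schur
import Pool.Agent.MP_2a72d7_pr.Sm.P_meas
import Pool.Agent.MP_2a72d7_pr.Sm.P_reg1

namespace Pool.Agent.MP_2a72d7_pr.Sm

open MeasureTheory Matrix

/-- Diagonal entries: `E (R⁻¹)ᵢᵢ^q ≤ C^(d+1) N^(-q)`.  Proof: `schur_diag`, split off the
coordinate `i` (`MeasureTheory.measurePreserving_piFinSuccAbove`), Tonelli, `neg` for the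
`m - 1` other columns. -/
theorem diag {L M ε : ℝ} (hM : 0 < M) (hε : 0 < ε) (hε1 : ε < 1) (q : ℕ) :
    ∃ C : ℝ, 1 ≤ C ∧ ∃ n₀ : ℕ, ∀ n ≥ n₀, ∀ (d : ℕ) (ν : Fin d → Fin n → Measure ℝ),
      (∀ k i, Admissible L (ν k i)) → (∀ k i, ν k i ≤ ENNReal.ofReal M • volume) →
      ∀ m : ℕ, (m : ℝ) ≤ (1 - ε) * (n : ℝ) ^ d → ∀ η : ℝ, 0 < η → ∀ i : Fin m,
      ∫⁻ X, ENNReal.ofReal ((Rg (Zm X) η)⁻¹ i i) ^ q ∂(Measure.pi fun _ : Fin m => tenLaw ν) ≤
        ENNReal.ofReal (C ^ (d + 1) / ((n : ℝ) ^ d) ^ q) := by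
  obtain ⟨C, hC, n₀, hneg⟩ := neg (L := L) hM hε hε1 q
  refine ⟨C, hC, n₀, fun n hn d ν hν hνM m hm η hη i => ?_⟩
  obtain _ | m := m
  · exact i.elim0
  have hprob : ∀ k i, IsProbabilityMeasure (ν k i) := fun k i => (hν k i).prob
  have hten : IsProbabilityMeasure (tenLaw ν) := by
    unfold tenLaw
    infer_instance
  -- the integrand after the splitting
  obtain ⟨f, hf⟩ : ∃ f : (Fin d → Fin n → ℝ) × (Fin m → Fin d → Fin n → ℝ) → ENNReal,
      f = fun p => (ENNReal.ofReal (η + quad (Pe (Zm p.2) η) (ten p.1)))⁻¹ ^ q := ⟨_, rfl⟩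
  have hfm : Measurable f := by
    rw [hf]
    exact ((measurable_quad_Pe η).const_add η).ennreal_ofReal.inv.pow_const q
  have hmp := measurePreserving_piFinSuccAbove (fun _ : Fin (m + 1) => tenLaw ν) i
  have h1 : ∀ X : Fin (m + 1) → Fin d → Fin n → ℝ,
      ENNReal.ofReal ((Rg (Zm X) η)⁻¹ i i) ^ q =
        f (MeasurableEquiv.piFinSuccAbove (fun _ : Fin (m + 1) => Fin d → Fin n → ℝ) i X) := by
    intro X
    have h2 : (Matrix.of fun j => Zm X (i.succAbove j)) = Zm fun j => X (i.succAbove j) := rfl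
    have h3 : Zm X i = ten (X i) := rfl
    have h4 : 0 < η + quad (Pe (Zm fun j => X (i.succAbove j)) η) (ten (X i)) :=
      add_pos_of_pos_of_nonneg hη (Pe_nonneg _ η hη _)
    rw [schur_diag (Zm X) η hη i, h2, h3, ENNReal.ofReal_inv_of_pos h4, hf]
    rfl
  calc ∫⁻ X, ENNReal.ofReal ((Rg (Zm X) η)⁻¹ i i) ^ q
        ∂(Measure.pi fun _ : Fin (m + 1) => tenLaw ν)
      = ∫⁻ X, f (MeasurableEquiv.piFinSuccAbove (fun _ : Fin (m + 1) => Fin d → Fin n → ℝ) i X)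
        ∂(Measure.pi fun _ : Fin (m + 1) => tenLaw ν) := lintegral_congr h1
    _ = ∫⁻ p, f p ∂((tenLaw ν).prod (Measure.pi fun _ : Fin m => tenLaw ν)) :=
        hmp.lintegral_comp hfm
    _ = ∫⁻ X', ∫⁻ x, f (x, X') ∂(tenLaw ν) ∂(Measure.pi fun _ : Fin m => tenLaw ν) :=
        lintegral_prod_symm f hfm.aemeasurable
    _ ≤ ∫⁻ _, ENNReal.ofReal (C ^ (d + 1) / ((n : ℝ) ^ d) ^ q)
        ∂(Measure.pi fun _ : Fin m => tenLaw ν) := by
        refine lintegral_mono fun X' => ?_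
        rw [hf]
        refine hneg n hn d ν hν hνM m (le_trans ?_ hm) (Zm X') η hη
        push_cast
        linarith
    _ = ENNReal.ofReal (C ^ (d + 1) / ((n : ℝ) ^ d) ^ q) := by
        rw [lintegral_const, measure_univ, mul_one]

end Pool.Agent.MP_2a72d7_pr.Sm
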