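import Mathlib
import Pool.Agent.MP_2a72d7_pr.Defs
import Pool.Agent.MP_2a72d7_pr.Sm.Base
import Pool.Agent.MP_2a72d7_pr.Sm.P_mom1

namespace Pool.Agent.MP_2a72d7_pr.Sm

open MeasureTheory Matrix

/-- One coordinate: `E ‖v + ξ b‖⁴ ≤ (‖v‖² + 4L²‖b‖²)²`, in the form with a constant `w ≥ 0`
added: `E (‖v + ξ b‖² + w)² ≤ (‖v‖² + 4L²‖b‖² + w)²`.  Here `p = ‖v‖²`, `r = ⟨v,b⟩`, `t = ‖b‖²`,
`r² ≤ p t`.  Proof: expand; `E ξ = 0`, `E ξ² = 1`, `E ξ⁴ ≤ 4L⁴`, `E |ξ|³ ≤ 2L²`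
(Cauchy-Schwarz), `4 |r| t · 2L² ≤ 2 p t + 8 L⁴ t²`, `L² ≥ 1`. -/
theorem four_coord {L : ℝ} {ν : Measure ℝ} (h : Admissible L ν) (p r t w : ℝ) (hp : 0 ≤ p)
    (ht : 0 ≤ t) (hw : 0 ≤ w) (hr : r ^ 2 ≤ p * t) :
    ∫⁻ x, ENNReal.ofReal ((p + 2 * x * r + x ^ 2 * t + w) ^ 2) ∂ν ≤
      ENNReal.ofReal ((p + 4 * L ^ 2 * t + w) ^ 2) := by
  have _ := h.prob
  have hL := one_le_L h
  have h4l := mom_coord h 2
  have hm : ∀ n : ℕ, AEStronglyMeasurable (fun x : ℝ => x ^ n) ν := fun n =>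
    (continuous_pow n).aestronglyMeasurable
  have hI4 : Integrable (fun x : ℝ => x ^ 4) ν := by
    have h1 : ∫⁻ x, ENNReal.ofReal (x ^ 4) ∂ν ≠ ⊤ :=
      ne_top_of_le_ne_top ENNReal.ofReal_ne_top h4l
    exact (lintegral_ofReal_ne_top_iff_integrable (hm 4)
      (Filter.Eventually.of_forall fun x => by
        show (0 : ℝ) ≤ x ^ 4
        positivity)).1 h1
  have hI1' : Integrable (fun x : ℝ => 1 + x ^ 4) ν := (integrable_const 1).add hI4
  have hI3 : Integrable (fun x : ℝ => x ^ 3) ν := by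
    refine hI1'.mono' (hm 3) (Filter.Eventually.of_forall fun x => ?_)
    rw [Real.norm_eq_abs, abs_le]
    constructor <;> nlinarith [sq_nonneg (x ^ 2 - 1), sq_nonneg (x ^ 2 + x), sq_nonneg (x ^ 2 - x),
      sq_nonneg x, sq_nonneg (x ^ 2)]
  have hI2 : Integrable (fun x : ℝ => x ^ 2) ν := by
    refine hI1'.mono' (hm 2) (Filter.Eventually.of_forall fun x => ?_)
    rw [Real.norm_eq_abs, abs_le]
    constructor <;> nlinarith [sq_nonneg (x ^ 2 - 1), sq_nonneg x, sq_nonneg (x ^ 2)]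
  have hI1 : Integrable (fun x : ℝ => x) ν := by
    refine hI1'.mono' (by simpa using hm 1) (Filter.Eventually.of_forall fun x => ?_)
    rw [Real.norm_eq_abs, abs_le]
    constructor <;> nlinarith [sq_nonneg (x ^ 2 - 1), sq_nonneg x, sq_nonneg (x ^ 2),
      sq_nonneg (x + 1), sq_nonneg (x - 1)]
  have hE4 : ∫ x, x ^ 4 ∂ν ≤ 4 * L ^ 4 := by
    have h1 : ENNReal.ofReal (∫ x, x ^ 4 ∂ν) ≤ ENNReal.ofReal (4 * L ^ 4) := by
      rw [ofReal_integral_eq_lintegral_ofReal hI4 (Filter.Eventually.of_forall fun x => by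
        show (0 : ℝ) ≤ x ^ 4
        positivity)]
      refine h4l.trans (le_of_eq ?_)
      congr 1
      norm_num [Nat.factorial]
    exact (ENNReal.ofReal_le_ofReal_iff (by positivity)).1 h1
  -- the real integral
  have hf : ∀ x : ℝ, (p + 2 * x * r + x ^ 2 * t + w) ^ 2 = (p + w) ^ 2 +
      ((4 * (p + w) * r) * x + ((4 * r ^ 2 + 2 * (p + w) * t) * x ^ 2 +
        ((4 * r * t) * x ^ 3 + t ^ 2 * x ^ 4))) := fun x => by ring
  have hIf : Integrable (fun x : ℝ => (p + 2 * x * r + x ^ 2 * t + w) ^ 2) ν := by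
    simp only [hf]
    exact (integrable_const _).add ((hI1.const_mul _).add ((hI2.const_mul _).add
      ((hI3.const_mul _).add (hI4.const_mul _))))
  have hIg : Integrable (fun x : ℝ => (p + w) ^ 2 + ((4 * (p + w) * r) * x +
      ((6 * r ^ 2 + 2 * (p + w) * t) * x ^ 2 + (3 * t ^ 2) * x ^ 4))) ν :=
    (integrable_const _).add ((hI1.const_mul _).add ((hI2.const_mul _).add (hI4.const_mul _)))
  have hle : ∫ x, (p + 2 * x * r + x ^ 2 * t + w) ^ 2 ∂ν ≤ ∫ x, ((p + w) ^ 2 +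
      ((4 * (p + w) * r) * x + ((6 * r ^ 2 + 2 * (p + w) * t) * x ^ 2 +
        (3 * t ^ 2) * x ^ 4))) ∂ν := by
    refine integral_mono hIf hIg fun x => ?_
    show (p + 2 * x * r + x ^ 2 * t + w) ^ 2 ≤ _
    rw [hf x]
    nlinarith [sq_nonneg (r * x - t * x ^ 2)]
  have hval : ∫ x, ((p + w) ^ 2 + ((4 * (p + w) * r) * x +
      ((6 * r ^ 2 + 2 * (p + w) * t) * x ^ 2 + (3 * t ^ 2) * x ^ 4))) ∂ν =
      (p + w) ^ 2 + (6 * r ^ 2 + 2 * (p + w) * t) + 3 * t ^ 2 * ∫ x, x ^ 4 ∂ν := by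
    have i1 : Integrable (fun x : ℝ => (3 * t ^ 2) * x ^ 4) ν := hI4.const_mul _
    have i2 : Integrable (fun x : ℝ => (6 * r ^ 2 + 2 * (p + w) * t) * x ^ 2) ν :=
      hI2.const_mul _
    have i12 : Integrable (fun x : ℝ => (6 * r ^ 2 + 2 * (p + w) * t) * x ^ 2 +
      (3 * t ^ 2) * x ^ 4) ν := i2.add i1
    have i3 : Integrable (fun x : ℝ => (4 * (p + w) * r) * x) ν := hI1.const_mul _
    have i123 : Integrable (fun x : ℝ => (4 * (p + w) * r) * x +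
      ((6 * r ^ 2 + 2 * (p + w) * t) * x ^ 2 + (3 * t ^ 2) * x ^ 4)) ν := i3.add i12
    rw [integral_add (integrable_const _) i123, integral_add i3 i12, integral_add i2 i1,
      integral_const_mul, integral_const_mul, integral_const_mul, h.mean_zero, h.unit_variance]
    simp
    ring
  rw [← ofReal_integral_eq_lintegral_ofReal hIf (Filter.Eventually.of_forall fun x => sq_nonneg _)]
  refine ENNReal.ofReal_le_ofReal (hle.trans ?_)
  rw [hval]
  have ht2 : 3 * t ^ 2 * ∫ x, x ^ 4 ∂ν ≤ 3 * t ^ 2 * (4 * L ^ 4) :=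
    mul_le_mul_of_nonneg_left hE4 (by positivity)
  have h1 : 6 * r ^ 2 ≤ 6 * ((p + w) * t) := by nlinarith [mul_nonneg hw ht]
  have h2 : 8 * ((p + w) * t) ≤ 8 * L ^ 2 * ((p + w) * t) := by
    have : 0 ≤ (p + w) * t := mul_nonneg (by linarith) ht
    nlinarith
  have h3 : 0 ≤ L ^ 4 * t ^ 2 := by positivity
  nlinarith

end Pool.Agent.MP_2a72d7_pr.Sm
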