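import Mathlib
import Pool.Agent.MP_2a72d7_pr.Defs
import Pool.Agent.MP_2a72d7_pr.Sm.Base
import Pool.Agent.MP_2a72d7_pr.Sm.P_four1

namespace Pool.Agent.MP_2a72d7_pr.Sm

open MeasureTheory Matrix

theorem fourvec_aux {L : ℝ} {κ : Type*} [Fintype κ] : ∀ (n : ℕ) (ν : Fin n → Measure ℝ)
    (_ : ∀ i, Admissible L (ν i)) (b : Fin n → κ → ℝ) (v : κ → ℝ) (w : ℝ) (_ : 0 ≤ w),
    ∫⁻ x, ENNReal.ofReal ((∑ j, (v j + ∑ i, x i * b i j) ^ 2 + w) ^ 2) ∂(Measure.pi ν) ≤
      ENNReal.ofReal ((∑ j, v j ^ 2 + 4 * L ^ 2 * ∑ i, ∑ j, b i j ^ 2 + w) ^ 2) := by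
  intro n
  induction n with
  | zero =>
    intro ν h b v w hw
    have : ∀ i, IsProbabilityMeasure (ν i) := fun i => (h i).prob
    simp only [Finset.univ_eq_empty, Finset.sum_empty, add_zero, mul_zero]
    rw [lintegral_const, measure_univ, mul_one]
  | succ n ih =>
    intro ν h b v w hw
    have : ∀ i, IsProbabilityMeasure (ν i) := fun i => (h i).prob
    have hmp := (measurePreserving_piFinSuccAbove ν 0).symm
    have hmeas : Measurable fun x : Fin (n + 1) → ℝ =>
        ENNReal.ofReal ((∑ j, (v j + ∑ i, x i * b i j) ^ 2 + w) ^ 2) := by fun_prop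
    have hmeas2 := hmeas.comp hmp.measurable
    simp only [Function.comp_def] at hmeas2
    rw [← hmp.lintegral_comp hmeas, lintegral_prod _ hmeas2.aemeasurable]
    have hW : 0 ≤ 4 * L ^ 2 * ∑ i : Fin n, ∑ j, b i.succ j ^ 2 + w := by
      have : 0 ≤ ∑ i : Fin n, ∑ j, b i.succ j ^ 2 :=
        Finset.sum_nonneg fun i _ => Finset.sum_nonneg fun j _ => sq_nonneg _
      positivity
    calc _ ≤ ∫⁻ x, ENNReal.ofReal ((∑ j, v j ^ 2 + 2 * x * (∑ j, v j * b 0 j)
          + x ^ 2 * (∑ j, b 0 j ^ 2)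
          + (4 * L ^ 2 * ∑ i : Fin n, ∑ j, b i.succ j ^ 2 + w)) ^ 2) ∂(ν 0) := by
          refine lintegral_mono fun x => ?_
          have h1 := ih (fun j => ν ((0 : Fin (n + 1)).succAbove j)) (fun j => h _)
            (fun i => b i.succ) (fun j => v j + x * b 0 j) w hw
          refine le_trans (le_of_eq ?_) (h1.trans (le_of_eq ?_))
          · refine lintegral_congr fun y => ?_
            congr 3
            refine Finset.sum_congr rfl fun j _ => ?_
            congr 1
            rw [Fin.sum_univ_succ]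
            have e1 : (MeasurableEquiv.piFinSuccAbove (fun _ => ℝ) 0).symm (x, y)
                = (Fin.cons x y : Fin (n + 1) → ℝ) := by
              funext i
              refine Fin.cases ?_ (fun i => ?_) i
              · simp [MeasurableEquiv.piFinSuccAbove]
              · simp [MeasurableEquiv.piFinSuccAbove]
            rw [e1]
            simp only [Fin.cons_zero, Fin.cons_succ]
            ring
          · congr 2
            have e2 : ∑ j, (v j + x * b 0 j) ^ 2 = ∑ j, v j ^ 2 + 2 * x * (∑ j, v j * b 0 j)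
                + x ^ 2 * (∑ j, b 0 j ^ 2) := by
              rw [Finset.mul_sum, Finset.mul_sum, ← Finset.sum_add_distrib,
                ← Finset.sum_add_distrib]
              exact Finset.sum_congr rfl fun j _ => by ring
            rw [e2]
            ring
      _ ≤ ENNReal.ofReal ((∑ j, v j ^ 2 + 4 * L ^ 2 * (∑ j, b 0 j ^ 2)
          + (4 * L ^ 2 * ∑ i : Fin n, ∑ j, b i.succ j ^ 2 + w)) ^ 2) := by
          refine four_coord (h 0) _ _ _ _ (Finset.sum_nonneg fun j _ => sq_nonneg _)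
            (Finset.sum_nonneg fun j _ => sq_nonneg _) hW ?_
          exact Finset.sum_mul_sq_le_sq_mul_sq Finset.univ v (b 0)
      _ = _ := by
          congr 2
          rw [Fin.sum_univ_succ]
          ring

/-- One factor: `E ‖∑ xᵢ bᵢ‖⁴ ≤ (4L² ∑ ‖bᵢ‖²)²` for vectors `bᵢ ∈ ℝ^κ`.  Proof: by induction on
`n`, the stronger statement `E (‖v + ∑ xᵢ bᵢ‖² + w)² ≤ (‖v‖² + 4L² ∑ ‖bᵢ‖² + w)²` (Tonelli,
`MeasureTheory.measurePreserving_piFinSuccAbove` at `0`, `four_coord` for the coordinate `x 0`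
applied after the induction hypothesis for the others). -/
theorem four_vec {L : ℝ} {n : ℕ} {κ : Type*} [Fintype κ] (ν : Fin n → Measure ℝ)
    (h : ∀ i, Admissible L (ν i)) (b : Fin n → κ → ℝ) :
    ∫⁻ x, ENNReal.ofReal ((∑ j, (∑ i, x i * b i j) ^ 2) ^ 2) ∂(Measure.pi ν) ≤
      ENNReal.ofReal ((4 * L ^ 2 * ∑ i, ∑ j, b i j ^ 2) ^ 2) := by
  have h1 := fourvec_aux (L := L) n ν h b (fun _ => 0) 0 le_rfl
  simpa using h1

end Pool.Agent.MP_2a72d7_pr.Sm
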