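import Mathlib
import Pool.Agent.MP_2a72d7_pr.Defs
import Pool.Agent.MP_2a72d7_pr.Sm.Base
import Pool.Agent.MP_2a72d7_pr.Sm.P_fourvec

namespace Pool.Agent.MP_2a72d7_pr.Sm

open MeasureTheory Matrix

theorem fourten_sum {n d : ℕ} (b : (Fin (d + 1) → Fin n) → ℝ) (x0 : Fin n → ℝ)
    (y : Fin d → Fin n → ℝ) :
    ∑ J, b J * ten (Fin.cons x0 y : Fin (d + 1) → Fin n → ℝ) J =
      ∑ J' : Fin d → Fin n, (∑ i, x0 i * b (Fin.cons i J')) * ten y J' := by
  rw [← Equiv.sum_comp (Fin.consEquiv (fun _ : Fin (d + 1) => Fin n)), Fintype.sum_prod_type,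
    Finset.sum_comm]
  refine Finset.sum_congr rfl fun J' _ => ?_
  rw [Finset.sum_mul]
  refine Finset.sum_congr rfl fun i _ => ?_
  have h1 : (Fin.consEquiv (fun _ : Fin (d + 1) => Fin n)) (i, J') = Fin.cons i J' := rfl
  have h2 : ten (Fin.cons x0 y : Fin (d + 1) → Fin n → ℝ) (Fin.cons i J') = x0 i * ten y J' := by
    unfold ten
    rw [Fin.prod_univ_succ]
    simp only [Fin.cons_zero, Fin.cons_succ]
  rw [h1, h2]
  ring

theorem fourten_sq {n d : ℕ} (b : (Fin (d + 1) → Fin n) → ℝ) :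
    ∑ i, ∑ J' : Fin d → Fin n, b (Fin.cons i J') ^ 2 = ∑ J, b J ^ 2 := by
  rw [← Equiv.sum_comp (Fin.consEquiv (fun _ : Fin (d + 1) => Fin n)) (fun J => b J ^ 2),
    Fintype.sum_prod_type]
  rfl

/-- `E ⟨X, b⟩⁴ ≤ ((4L²)^d ‖b‖²)²`.  Proof: induction on `d` (splitting the factor `0`, as in
`iter`): `⟨x₀ ⊗ X', b⟩ = ⟨X', b_{x₀}⟩` with `b_{x₀} J' = ∑ᵢ x₀ᵢ b(i, J')`, induction hypothesis
and `four_vec`. -/
theorem four_ten {L : ℝ} {n d : ℕ} (ν : Fin d → Fin n → Measure ℝ)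
    (h : ∀ k i, Admissible L (ν k i)) (b : (Fin d → Fin n) → ℝ) :
    ∫⁻ x, ENNReal.ofReal ((∑ J, b J * ten x J) ^ 4) ∂(tenLaw ν) ≤
      ENNReal.ofReal (((4 * L ^ 2) ^ d * ∑ J, b J ^ 2) ^ 2) := by
  have hp : ∀ k i, IsProbabilityMeasure (ν k i) := fun k i => (h k i).prob
  unfold tenLaw
  induction d with
  | zero =>
    have h1 : ∀ x : Fin 0 → Fin n → ℝ, ENNReal.ofReal ((∑ J, b J * ten x J) ^ 4) =
        ENNReal.ofReal (((4 * L ^ 2) ^ 0 * ∑ J, b J ^ 2) ^ 2) := by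
      intro x
      congr 1
      rw [Fintype.sum_unique, Fintype.sum_unique]
      unfold ten
      rw [Finset.univ_eq_empty, Finset.prod_empty]
      ring
    rw [lintegral_congr h1, lintegral_const, measure_univ, mul_one]
  | succ d ih =>
    have hmp := measurePreserving_piFinSuccAbove (fun k => Measure.pi (ν k)) 0
    set F : (Fin (d + 1) → Fin n → ℝ) → ENNReal :=
      fun x => ENNReal.ofReal ((∑ J, b J * ten x J) ^ 4) with hF
    have hFm : Measurable F := by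
      have h1 : Continuous fun x : Fin (d + 1) → Fin n → ℝ => (∑ J, b J * ten x J) ^ 4 := by
        unfold ten
        fun_prop
      exact ENNReal.measurable_ofReal.comp h1.measurable
    have hstep : ∫⁻ x, F x ∂(Measure.pi fun k => Measure.pi (ν k)) =
        ∫⁻ x0, ∫⁻ y, F (Fin.cons x0 y)
          ∂(Measure.pi fun j => Measure.pi (ν (Fin.succAbove 0 j))) ∂(Measure.pi (ν 0)) := by
      have h3 := hmp.symm
      rw [← h3.lintegral_comp hFm, lintegral_prod _ (by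
        exact (hFm.comp (MeasurableEquiv.measurable _)).aemeasurable)]
      refine lintegral_congr fun x0 => lintegral_congr fun y => ?_
      congr 1
      funext k
      refine Fin.cases ?_ (fun j => ?_) k
      · rfl
      · rfl
    have hc : (0 : ℝ) ≤ (4 * L ^ 2) ^ d := by positivity
    rw [hstep]
    calc ∫⁻ x0, ∫⁻ y, F (Fin.cons x0 y)
          ∂(Measure.pi fun j => Measure.pi (ν (Fin.succAbove 0 j))) ∂(Measure.pi (ν 0))
        ≤ ∫⁻ x0, ENNReal.ofReal (((4 * L ^ 2) ^ d) ^ 2) * ENNReal.ofReal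
            ((∑ J' : Fin d → Fin n, (∑ i, x0 i * b (Fin.cons i J')) ^ 2) ^ 2)
            ∂(Measure.pi (ν 0)) := by
          refine lintegral_mono fun x0 => ?_
          simp only [hF, fourten_sum]
          refine (ih (fun k => ν (Fin.succAbove 0 k)) (fun k i => h _ i)
            (fun J' => ∑ i, x0 i * b (Fin.cons i J')) (fun k i => hp _ i)).trans (le_of_eq ?_)
          rw [← ENNReal.ofReal_mul (by positivity), mul_pow]
      _ = ENNReal.ofReal (((4 * L ^ 2) ^ d) ^ 2) * ∫⁻ x0, ENNReal.ofReal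
            ((∑ J' : Fin d → Fin n, (∑ i, x0 i * b (Fin.cons i J')) ^ 2) ^ 2)
            ∂(Measure.pi (ν 0)) := lintegral_const_mul' _ _ ENNReal.ofReal_ne_top
      _ ≤ ENNReal.ofReal (((4 * L ^ 2) ^ d) ^ 2) * ENNReal.ofReal
            ((4 * L ^ 2 * ∑ i, ∑ J' : Fin d → Fin n, b (Fin.cons i J') ^ 2) ^ 2) := by
          gcongr
          exact four_vec (ν 0) (h 0) fun i J' => b (Fin.cons i J')
      _ = ENNReal.ofReal (((4 * L ^ 2) ^ (d + 1) * ∑ J, b J ^ 2) ^ 2) := by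
          rw [← ENNReal.ofReal_mul (by positivity), fourten_sq]
          congr 1
          ring

end Pool.Agent.MP_2a72d7_pr.Sm
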