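import Mathlib
import Pool.Agent.MP_2a72d7_pr.Defs
import Pool.Agent.MP_2a72d7_pr.Sm.Base
import Pool.Agent.MP_2a72d7_pr.Sm.P_diag
import Pool.Agent.MP_2a72d7_pr.Sm.P_neg
import Pool.Agent.MP_2a72d7_pr.Sm.P_fourten
import Pool.Agent.MP_2a72d7_pr.Sm.P_bvec
import Pool.Agent.MP_2a72d7_pr.Sm.P_schur
import Pool.Agent.MP_2a72d7_pr.Sm.P_meas
import Pool.Agent.MP_2a72d7_pr.Sm.P_reg1

namespace Pool.Agent.MP_2a72d7_pr.Sm

open MeasureTheory Matrix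

/-- Cauchy-Schwarz for squares in `ENNReal`. -/
theorem off_cs {α : Type*} [MeasurableSpace α] (μ : Measure α) (F G : α → ENNReal)
    (hF : AEMeasurable F μ) (hG : AEMeasurable G μ) {A B : ℝ} (hA : 0 ≤ A) (hB : 0 ≤ B)
    (h1 : ∫⁻ x, F x ^ 2 ∂μ ≤ ENNReal.ofReal (A ^ 2))
    (h2 : ∫⁻ x, G x ^ 2 ∂μ ≤ ENNReal.ofReal (B ^ 2)) :
    ∫⁻ x, F x * G x ∂μ ≤ ENNReal.ofReal (A * B) := by
  have hpq : (2 : ℝ).HolderConjugate 2 := Real.HolderConjugate.two_two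
  have h := ENNReal.lintegral_mul_le_Lp_mul_Lq μ hpq hF hG
  have h1' : (∫⁻ x, F x ^ (2 : ℝ) ∂μ) ^ (1 / (2 : ℝ)) ≤ ENNReal.ofReal A := by
    have : (∫⁻ x, F x ^ (2 : ℝ) ∂μ) ≤ ENNReal.ofReal (A ^ 2) := by
      simpa [ENNReal.rpow_two] using h1
    calc (∫⁻ x, F x ^ (2 : ℝ) ∂μ) ^ (1 / (2 : ℝ))
        ≤ (ENNReal.ofReal (A ^ 2)) ^ (1 / (2 : ℝ)) :=
          ENNReal.rpow_le_rpow this (by norm_num)
      _ = ENNReal.ofReal A := by
          rw [ENNReal.ofReal_rpow_of_nonneg (by positivity) (by norm_num)]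
          congr 1
          rw [← Real.sqrt_eq_rpow, Real.sqrt_sq hA]
  have h2' : (∫⁻ x, G x ^ (2 : ℝ) ∂μ) ^ (1 / (2 : ℝ)) ≤ ENNReal.ofReal B := by
    have : (∫⁻ x, G x ^ (2 : ℝ) ∂μ) ≤ ENNReal.ofReal (B ^ 2) := by
      simpa [ENNReal.rpow_two] using h2
    calc (∫⁻ x, G x ^ (2 : ℝ) ∂μ) ^ (1 / (2 : ℝ))
        ≤ (ENNReal.ofReal (B ^ 2)) ^ (1 / (2 : ℝ)) :=
          ENNReal.rpow_le_rpow this (by norm_num)
      _ = ENNReal.ofReal B := by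
          rw [ENNReal.ofReal_rpow_of_nonneg (by positivity) (by norm_num)]
          congr 1
          rw [← Real.sqrt_eq_rpow, Real.sqrt_sq hB]
  calc ∫⁻ x, F x * G x ∂μ
      ≤ (∫⁻ x, F x ^ (2 : ℝ) ∂μ) ^ (1 / (2 : ℝ)) * (∫⁻ x, G x ^ (2 : ℝ) ∂μ) ^ (1 / (2 : ℝ)) := by
        simpa using h
    _ ≤ ENNReal.ofReal A * ENNReal.ofReal B := mul_le_mul' h1' h2'
    _ = ENNReal.ofReal (A * B) := (ENNReal.ofReal_mul hA).symm

theorem off_symm {m : ℕ} {ι : Type*} [Fintype ι] [DecidableEq ι] (Y : Matrix (Fin m) ι ℝ)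
    (η : ℝ) (hη : 0 < η) (i j : Fin m) : (Rg Y η)⁻¹ i j = (Rg Y η)⁻¹ j i := by
  have h : ((Rg Y η)⁻¹).IsHermitian := (Rg_posDef Y η hη).isHermitian.inv
  have := h.apply i j
  simpa using this.symm

theorem off_measurable_ip {n d m : ℕ} (η : ℝ) (j : Fin m) :
    Measurable fun p : (Fin d → Fin n → ℝ) × (Fin m → Fin d → Fin n → ℝ) =>
      ∑ J, bvec (Zm p.2) η j J * ten p.1 J := by
  refine Finset.measurable_sum _ fun J _ => ?_
  refine Measurable.mul ?_ ((measurable_ten J).comp measurable_fst)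
  unfold bvec
  refine Finset.measurable_sum _ fun k _ => ?_
  refine Measurable.mul ((measurable_Rg_inv η j k).comp measurable_snd) ?_
  have : Measurable fun X : Fin m → Fin d → Fin n → ℝ => ten (X k) J :=
    (measurable_ten J).comp (measurable_pi_apply k)
  exact this.comp measurable_snd

/-- the integral over one family, the others fixed -/
theorem off_inner {L C₂ N : ℝ} {n d m : ℕ} (ν : Fin d → Fin n → Measure ℝ)
    (h : ∀ k i, Admissible L (ν k i)) (hC₂ : 1 ≤ C₂) (hN : 0 < N)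
    (X' : Fin m → Fin d → Fin n → ℝ) (η : ℝ) (hη : 0 < η) (j : Fin m)
    (hneg : ∫⁻ x, (ENNReal.ofReal (η + quad (Pe (Zm X') η) (ten x)))⁻¹ ^ 4 ∂(tenLaw ν) ≤
        ENNReal.ofReal (C₂ ^ (d + 1) / N ^ 4)) :
    ∫⁻ x, ENNReal.ofReal ((-(∑ J, bvec (Zm X') η j J * ten x J) *
        (η + quad (Pe (Zm X') η) (ten x))⁻¹) ^ 2) ∂(tenLaw ν) ≤
      ENNReal.ofReal ((4 * L ^ 2) ^ d * (C₂ ^ (d + 1) / N ^ 2)) *
        ENNReal.ofReal ((Rg (Zm X') η)⁻¹ j j) := by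
  set b := bvec (Zm X') η j with hb
  have hpos : ∀ x : Fin d → Fin n → ℝ, 0 < η + quad (Pe (Zm X') η) (ten x) := fun x => by
    have := Pe_nonneg (Zm X') η hη (ten x)
    linarith
  have hmten : Measurable fun x : Fin d → Fin n → ℝ => ∑ J, b J * ten x J :=
    Finset.measurable_sum _ fun J _ => (measurable_ten J).const_mul _
  have hmq : Measurable fun x : Fin d → Fin n → ℝ => quad (Pe (Zm X') η) (ten x) :=
    (measurable_quad_Pe (n := n) (d := d) (m := m) η).comp (measurable_id.prodMk measurable_const)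
  have hbsq : 0 ≤ ∑ J, b J ^ 2 := Finset.sum_nonneg fun J _ => sq_nonneg _
  have hb2 : ∑ J, b J ^ 2 ≤ (Rg (Zm X') η)⁻¹ j j := bvec_sq (Zm X') η hη j
  have hcs := off_cs (tenLaw ν) (fun x => ENNReal.ofReal ((∑ J, b J * ten x J) ^ 2))
    (fun x => (ENNReal.ofReal (η + quad (Pe (Zm X') η) (ten x)))⁻¹ ^ 2)
    (hmten.pow_const 2).ennreal_ofReal.aemeasurable
    ((measurable_const.add hmq).ennreal_ofReal.inv.pow_const 2).aemeasurable
    (A := (4 * L ^ 2) ^ d * ∑ J, b J ^ 2) (B := C₂ ^ (d + 1) / N ^ 2)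
    (by positivity) (by positivity)
    (by
      refine le_trans (le_of_eq ?_) (four_ten ν h b)
      refine lintegral_congr fun x => ?_
      rw [← ENNReal.ofReal_pow (sq_nonneg _)]
      congr 1
      ring)
    (by
      refine le_trans (le_of_eq ?_) (le_trans hneg ?_)
      · refine lintegral_congr fun x => ?_
        rw [← pow_mul]
      · refine ENNReal.ofReal_le_ofReal ?_
        have h1 : (1 : ℝ) ≤ C₂ ^ (d + 1) := one_le_pow₀ hC₂
        have h2 : C₂ ^ (d + 1) ≤ (C₂ ^ (d + 1)) ^ 2 := by nlinarith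
        have h7 : (C₂ ^ (d + 1) / N ^ 2) ^ 2 = (C₂ ^ (d + 1)) ^ 2 / N ^ 4 := by
          rw [div_pow, ← pow_mul N]
        rw [h7]
        exact div_le_div_of_nonneg_right h2 (by positivity))
  refine le_trans (le_of_eq ?_) (le_trans hcs ?_)
  · refine lintegral_congr fun x => ?_
    have hp := hpos x
    rw [← ENNReal.ofReal_inv_of_pos hp, ← ENNReal.ofReal_pow (inv_nonneg.mpr hp.le),
      ← ENNReal.ofReal_mul (sq_nonneg _)]
    congr 1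
    ring
  · rw [← ENNReal.ofReal_mul (by positivity)]
    refine ENNReal.ofReal_le_ofReal ?_
    have h3 : 0 ≤ (4 * L ^ 2) ^ d * (C₂ ^ (d + 1) / N ^ 2) := by positivity
    calc (4 * L ^ 2) ^ d * (∑ J, b J ^ 2) * (C₂ ^ (d + 1) / N ^ 2)
        = (4 * L ^ 2) ^ d * (C₂ ^ (d + 1) / N ^ 2) * ∑ J, b J ^ 2 := by ring
      _ ≤ (4 * L ^ 2) ^ d * (C₂ ^ (d + 1) / N ^ 2) * (Rg (Zm X') η)⁻¹ j j :=
        mul_le_mul_of_nonneg_left hb2 h3

/-- Off-diagonal entries: `E (R⁻¹)ᵢⱼ² ≤ C^(d+1) N^(-3)`.  Proof: by symmetry of `R⁻¹` the entry is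
`(R⁻¹) (i.succAbove j') i`, `schur_off`; split off the coordinate `i`; for fixed other columns
(Cauchy-Schwarz, `four_ten`, `neg` with `q = 4`)
`E ⟨X,b⟩² (η + ⟨X,PX⟩)^(-2) ≤ (4L²)^d ‖b‖² (C^(d+1) N^(-4))^(1/2)`, `b = bvec`, `‖b‖² ≤` diagonal
entry of the inverse for the other columns (`bvec_sq`), and `diag` with `q = 1` for the others. -/
theorem off {L M ε : ℝ} (hM : 0 < M) (hε : 0 < ε) (hε1 : ε < 1) :
    ∃ C : ℝ, 1 ≤ C ∧ ∃ n₀ : ℕ, ∀ n ≥ n₀, ∀ (d : ℕ) (ν : Fin d → Fin n → Measure ℝ),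
      (∀ k i, Admissible L (ν k i)) → (∀ k i, ν k i ≤ ENNReal.ofReal M • volume) →
      ∀ m : ℕ, (m : ℝ) ≤ (1 - ε) * (n : ℝ) ^ d → ∀ η : ℝ, 0 < η → ∀ i j : Fin m, i ≠ j →
      ∫⁻ X, ENNReal.ofReal (((Rg (Zm X) η)⁻¹ i j) ^ 2)
          ∂(Measure.pi fun _ : Fin m => tenLaw ν) ≤
        ENNReal.ofReal (C ^ (d + 1) / ((n : ℝ) ^ d) ^ 3) := by
  obtain ⟨C₁, hC₁, n₁, H₁⟩ := diag (L := L) hM hε hε1 1
  obtain ⟨C₂, hC₂, n₂, H₂⟩ := neg (L := L) hM hε hε1 4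
  have hL1 : (1 : ℝ) ≤ 4 * L ^ 2 + 1 := by nlinarith [sq_nonneg L]
  refine ⟨(4 * L ^ 2 + 1) * C₁ * C₂, ?_, max n₁ n₂, ?_⟩
  · have h1 : (1 : ℝ) ≤ (4 * L ^ 2 + 1) * C₁ := one_le_mul_of_one_le_of_one_le hL1 hC₁
    exact one_le_mul_of_one_le_of_one_le h1 hC₂
  intro n hn d ν hadm hdom m hm η hη i j hij
  have hn1 : n₁ ≤ n := le_trans (le_max_left _ _) hn
  have hn2 : n₂ ≤ n := le_trans (le_max_right _ _) hn
  rcases m with _ | m
  · exact i.elim0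
  have hm' : (m : ℝ) ≤ (1 - ε) * (n : ℝ) ^ d := by
    push_cast at hm
    linarith
  have hN : (0 : ℝ) < (n : ℝ) ^ d := by
    have h0 : (0 : ℝ) < (1 - ε) * (n : ℝ) ^ d := by
      have : (0 : ℝ) ≤ (m : ℝ) := Nat.cast_nonneg m
      push_cast at hm
      linarith
    have h1 : (0 : ℝ) < 1 - ε := by linarith
    exact (pos_iff_pos_of_mul_pos h0).mp h1
  obtain ⟨j', rfl⟩ := Fin.exists_succAbove_eq hij.symm
  have : ∀ k i, IsProbabilityMeasure (ν k i) := fun k i => (hadm k i).prob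
  have : IsProbabilityMeasure (tenLaw ν) := by
    unfold tenLaw
    infer_instance
  set e := MeasurableEquiv.piFinSuccAbove (fun _ : Fin (m + 1) => Fin d → Fin n → ℝ) i with he
  have hmp : MeasurePreserving e (Measure.pi fun _ : Fin (m + 1) => tenLaw ν)
      ((tenLaw ν).prod (Measure.pi fun _ : Fin m => tenLaw ν)) :=
    measurePreserving_piFinSuccAbove (fun _ : Fin (m + 1) => tenLaw ν) i
  set g : (Fin d → Fin n → ℝ) × (Fin m → Fin d → Fin n → ℝ) → ENNReal := fun p =>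
    ENNReal.ofReal ((-(∑ J, bvec (Zm p.2) η j' J * ten p.1 J) *
        (η + quad (Pe (Zm p.2) η) (ten p.1))⁻¹) ^ 2) with hg
  have hgm : Measurable g := by
    refine Measurable.ennreal_ofReal (Measurable.pow_const (Measurable.mul ?_ ?_) 2)
    · exact (off_measurable_ip η j').neg
    · exact (measurable_const.add (measurable_quad_Pe η)).inv
  have hstep : ∀ X : Fin (m + 1) → Fin d → Fin n → ℝ,
      ENNReal.ofReal (((Rg (Zm X) η)⁻¹ i (i.succAbove j')) ^ 2) = g (e X) := by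
    intro X
    rw [off_symm (Zm X) η hη i (i.succAbove j'), schur_off (Zm X) η hη i j']
    rfl
  calc ∫⁻ X, ENNReal.ofReal (((Rg (Zm X) η)⁻¹ i (i.succAbove j')) ^ 2)
          ∂(Measure.pi fun _ : Fin (m + 1) => tenLaw ν)
      = ∫⁻ X, g (e X) ∂(Measure.pi fun _ : Fin (m + 1) => tenLaw ν) :=
        lintegral_congr hstep
    _ = ∫⁻ p, g p ∂((tenLaw ν).prod (Measure.pi fun _ : Fin m => tenLaw ν)) :=
        hmp.lintegral_comp hgm
    _ = ∫⁻ X', ∫⁻ x, g (x, X') ∂(tenLaw ν) ∂(Measure.pi fun _ : Fin m => tenLaw ν) :=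
        lintegral_prod_symm _ hgm.aemeasurable
    _ ≤ ∫⁻ X', ENNReal.ofReal ((4 * L ^ 2) ^ d * (C₂ ^ (d + 1) / ((n : ℝ) ^ d) ^ 2)) *
          ENNReal.ofReal ((Rg (Zm X') η)⁻¹ j' j') ∂(Measure.pi fun _ : Fin m => tenLaw ν) := by
        refine lintegral_mono fun X' => ?_
        exact off_inner ν hadm hC₂ hN X' η hη j' (H₂ n hn2 d ν hadm hdom m hm' (Zm X') η hη)
    _ = ENNReal.ofReal ((4 * L ^ 2) ^ d * (C₂ ^ (d + 1) / ((n : ℝ) ^ d) ^ 2)) *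
          ∫⁻ X', ENNReal.ofReal ((Rg (Zm X') η)⁻¹ j' j') ^ 1
            ∂(Measure.pi fun _ : Fin m => tenLaw ν) := by
        rw [lintegral_const_mul _ (measurable_Rg_inv η j' j').ennreal_ofReal]
        simp only [pow_one]
    _ ≤ ENNReal.ofReal ((4 * L ^ 2) ^ d * (C₂ ^ (d + 1) / ((n : ℝ) ^ d) ^ 2)) *
          ENNReal.ofReal (C₁ ^ (d + 1) / ((n : ℝ) ^ d) ^ 1) :=
        mul_le_mul' le_rfl (H₁ n hn1 d ν hadm hdom m hm' η hη j')
    _ ≤ ENNReal.ofReal (((4 * L ^ 2 + 1) * C₁ * C₂) ^ (d + 1) / ((n : ℝ) ^ d) ^ 3) := by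
        rw [← ENNReal.ofReal_mul (by positivity)]
        refine ENNReal.ofReal_le_ofReal ?_
        have h4 : (4 * L ^ 2) ^ d ≤ (4 * L ^ 2 + 1) ^ (d + 1) := by
          calc (4 * L ^ 2) ^ d ≤ (4 * L ^ 2 + 1) ^ d :=
                pow_le_pow_left₀ (by positivity) (by linarith) d
            _ ≤ (4 * L ^ 2 + 1) ^ (d + 1) := pow_le_pow_right₀ hL1 (Nat.le_succ d)
        have h5 : (4 * L ^ 2) ^ d * (C₂ ^ (d + 1) / ((n : ℝ) ^ d) ^ 2) *
            (C₁ ^ (d + 1) / ((n : ℝ) ^ d) ^ 1) =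
            ((4 * L ^ 2) ^ d * (C₁ ^ (d + 1) * C₂ ^ (d + 1))) / ((n : ℝ) ^ d) ^ 3 := by
          field_simp
        rw [h5]
        refine div_le_div_of_nonneg_right ?_ (by positivity)
        have h6 : 0 ≤ C₁ ^ (d + 1) * C₂ ^ (d + 1) := by positivity
        calc (4 * L ^ 2) ^ d * (C₁ ^ (d + 1) * C₂ ^ (d + 1))
            ≤ (4 * L ^ 2 + 1) ^ (d + 1) * (C₁ ^ (d + 1) * C₂ ^ (d + 1)) :=
              mul_le_mul_of_nonneg_right h4 h6
          _ = ((4 * L ^ 2 + 1) * C₁ * C₂) ^ (d + 1) := by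
              rw [mul_pow, mul_pow]
              ring

end Pool.Agent.MP_2a72d7_pr.Sm
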