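import Mathlib
import Pool.Agent.MP_2a72d7_pr.Defs
import Pool.Agent.MP_2a72d7_pr.Sm.Base
import Pool.Agent.MP_2a72d7_pr.Sm.P_diag
import Pool.Agent.MP_2a72d7_pr.Sm.P_off
import Pool.Agent.MP_2a72d7_pr.Sm.P_meas
import Pool.Agent.MP_2a72d7_pr.Sm.P_reg1

namespace Pool.Agent.MP_2a72d7_pr.Sm

open MeasureTheory Matrix

/-- `E ‖R⁻¹‖_F² ≤ C^(d+1) / N`: sum of `diag` (`q = 2`) and `off` over `m ≤ N` and `m² ≤ N²`
entries. -/
theorem frob {L M ε : ℝ} (hM : 0 < M) (hε : 0 < ε) (hε1 : ε < 1) :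
    ∃ C : ℝ, 1 ≤ C ∧ ∃ n₀ : ℕ, ∀ n ≥ n₀, ∀ (d : ℕ) (ν : Fin d → Fin n → Measure ℝ),
      (∀ k i, Admissible L (ν k i)) → (∀ k i, ν k i ≤ ENNReal.ofReal M • volume) →
      ∀ m : ℕ, (m : ℝ) ≤ (1 - ε) * (n : ℝ) ^ d → ∀ η : ℝ, 0 < η →
      ∫⁻ X, ENNReal.ofReal (∑ i, ∑ j, ((Rg (Zm X) η)⁻¹ i j) ^ 2)
          ∂(Measure.pi fun _ : Fin m => tenLaw ν) ≤
        ENNReal.ofReal (C ^ (d + 1) / (n : ℝ) ^ d) := by
  obtain ⟨C₁, hC₁, n₁, h₁⟩ := diag (L := L) hM hε hε1 2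
  obtain ⟨C₂, hC₂, n₂, h₂⟩ := off (L := L) hM hε hε1
  refine ⟨C₁ + C₂, by linarith, max (max n₁ n₂) 1, ?_⟩
  intro n hn d ν hν1 hν2 m hm η hη
  have hn1 : n₁ ≤ n := le_trans (le_trans (le_max_left _ _) (le_max_left _ _)) hn
  have hn2 : n₂ ≤ n := le_trans (le_trans (le_max_right _ _) (le_max_left _ _)) hn
  have hn3 : 1 ≤ n := le_trans (le_max_right _ _) hn
  have hN : (1 : ℝ) ≤ (n : ℝ) ^ d := one_le_pow₀ (by exact_mod_cast hn3)
  have hN0 : (0 : ℝ) < (n : ℝ) ^ d := by linarith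
  have hmN : (m : ℝ) ≤ (n : ℝ) ^ d := by nlinarith
  set a : ℝ := C₁ ^ (d + 1) / ((n : ℝ) ^ d) ^ 2 with ha
  set b : ℝ := C₂ ^ (d + 1) / ((n : ℝ) ^ d) ^ 3 with hb
  have ha0 : 0 ≤ a := by positivity
  have hb0 : 0 ≤ b := by positivity
  have hmeas : ∀ i j : Fin m, Measurable fun X : Fin m → Fin d → Fin n → ℝ =>
      ENNReal.ofReal (((Rg (Zm X) η)⁻¹ i j) ^ 2) := fun i j =>
    ENNReal.measurable_ofReal.comp ((measurable_Rg_inv η i j).pow_const 2)
  have hentry : ∀ i j : Fin m, ∫⁻ X, ENNReal.ofReal (((Rg (Zm X) η)⁻¹ i j) ^ 2)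
      ∂(Measure.pi fun _ : Fin m => tenLaw ν) ≤
      ENNReal.ofReal ((if i = j then a else 0) + b) := by
    intro i j
    by_cases hij : i = j
    · subst hij
      have hpos : ∀ X : Fin m → Fin d → Fin n → ℝ, 0 ≤ (Rg (Zm X) η)⁻¹ i i := fun X =>
        (Rg_posDef (Zm X) η hη).inv.posSemidef.diag_nonneg
      have hd := h₁ n hn1 d ν hν1 hν2 m hm η hη i
      have e : ∀ X : Fin m → Fin d → Fin n → ℝ,
          ENNReal.ofReal (((Rg (Zm X) η)⁻¹ i i) ^ 2) =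
          ENNReal.ofReal ((Rg (Zm X) η)⁻¹ i i) ^ 2 := fun X =>
        ENNReal.ofReal_pow (hpos X) 2
      simp only [e]
      refine hd.trans (ENNReal.ofReal_le_ofReal ?_)
      simp only [if_true]
      linarith
    · have hd := h₂ n hn2 d ν hν1 hν2 m hm η hη i j hij
      refine hd.trans (ENNReal.ofReal_le_ofReal ?_)
      simp [hij]
      exact le_rfl
  have hsum : ∀ X : Fin m → Fin d → Fin n → ℝ,
      ENNReal.ofReal (∑ i, ∑ j, ((Rg (Zm X) η)⁻¹ i j) ^ 2) =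
      ∑ i, ∑ j, ENNReal.ofReal (((Rg (Zm X) η)⁻¹ i j) ^ 2) := by
    intro X
    rw [ENNReal.ofReal_sum_of_nonneg (fun i _ => Finset.sum_nonneg fun j _ => sq_nonneg _)]
    refine Finset.sum_congr rfl fun i _ => ?_
    rw [ENNReal.ofReal_sum_of_nonneg (fun j _ => sq_nonneg _)]
  simp only [hsum]
  rw [lintegral_finsetSum _ (fun i _ => Finset.measurable_sum _ fun j _ => hmeas i j)]
  have step : ∀ i : Fin m, ∫⁻ X, ∑ j, ENNReal.ofReal (((Rg (Zm X) η)⁻¹ i j) ^ 2)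
      ∂(Measure.pi fun _ : Fin m => tenLaw ν) ≤ ENNReal.ofReal (a + m * b) := by
    intro i
    rw [lintegral_finsetSum _ (fun j _ => hmeas i j)]
    calc _ ≤ ∑ j : Fin m, ENNReal.ofReal ((if i = j then a else 0) + b) :=
          Finset.sum_le_sum fun j _ => hentry i j
      _ = ENNReal.ofReal (∑ j : Fin m, ((if i = j then a else 0) + b)) := by
          rw [ENNReal.ofReal_sum_of_nonneg]
          intro j _
          split_ifs <;> positivity
      _ = ENNReal.ofReal (a + m * b) := by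
          congr 1
          rw [Finset.sum_add_distrib]
          simp
  calc _ ≤ ∑ i : Fin m, ENNReal.ofReal (a + m * b) := Finset.sum_le_sum fun i _ => step i
    _ = ENNReal.ofReal (∑ i : Fin m, (a + m * b)) := by
        rw [ENNReal.ofReal_sum_of_nonneg]
        intro j _
        positivity
    _ ≤ ENNReal.ofReal ((C₁ + C₂) ^ (d + 1) / (n : ℝ) ^ d) := by
        refine ENNReal.ofReal_le_ofReal ?_
        have hm0 : (0 : ℝ) ≤ m := Nat.cast_nonneg m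
        have e1 : ∑ i : Fin m, (a + m * b) = m * a + m ^ 2 * b := by
          simp
          ring
        rw [e1]
        have h3 : m * a ≤ C₁ ^ (d + 1) / (n : ℝ) ^ d := by
          calc m * a ≤ (n : ℝ) ^ d * a := mul_le_mul_of_nonneg_right hmN ha0
            _ = C₁ ^ (d + 1) / (n : ℝ) ^ d := by
                rw [ha]
                field_simp
        have h4 : (m : ℝ) ^ 2 * b ≤ C₂ ^ (d + 1) / (n : ℝ) ^ d := by
          calc (m : ℝ) ^ 2 * b ≤ ((n : ℝ) ^ d) ^ 2 * b :=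
                mul_le_mul_of_nonneg_right (pow_le_pow_left₀ hm0 hmN 2) hb0
            _ = C₂ ^ (d + 1) / (n : ℝ) ^ d := by
                rw [hb]
                field_simp
        have h5 : C₁ ^ (d + 1) + C₂ ^ (d + 1) ≤ (C₁ + C₂) ^ (d + 1) :=
          pow_add_pow_le (by linarith) (by linarith) (by omega)
        calc m * a + (m : ℝ) ^ 2 * b
            ≤ C₁ ^ (d + 1) / (n : ℝ) ^ d + C₂ ^ (d + 1) / (n : ℝ) ^ d := add_le_add h3 h4
          _ = (C₁ ^ (d + 1) + C₂ ^ (d + 1)) / (n : ℝ) ^ d := by rw [add_div]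
          _ ≤ _ := div_le_div_of_nonneg_right h5 hN0.le

end Pool.Agent.MP_2a72d7_pr.Sm
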