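import Mathlib
import Pool.Agent.MP_2a72d7_pr.Defs
import Pool.Agent.MP_2a72d7_pr.Sm.Base

namespace Pool.Agent.MP_2a72d7_pr.Sm

open MeasureTheory Matrix

theorem measgood_cont {n d m : ℕ} (i : Fin m) :
    Continuous fun X : Fin m → Fin d → Fin n → ℝ => simpleTensor (X i) := by
  unfold simpleTensor
  refine (PiLp.continuous_toLp 2 _).comp (continuous_pi fun J => ?_)
  refine continuous_finsetProd _ fun k _ => ?_
  exact (continuous_apply (J k)).comp ((continuous_apply k).comp (continuous_apply i))

/-- `{X : σ_min(X) ≥ σ}` is measurable (closed: an intersection over `a` of closed conditions). -/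
theorem measurable_good {n d m : ℕ} (σ : ℝ) :
    MeasurableSet {X : Fin m → Fin d → Fin n → ℝ |
      SigmaMinGE (fun i => simpleTensor (X i)) σ} := by
  apply IsClosed.measurableSet
  have h1 : {X : Fin m → Fin d → Fin n → ℝ | SigmaMinGE (fun i => simpleTensor (X i)) σ} =
      ⋂ a : EuclideanSpace ℝ (Fin m), {X : Fin m → Fin d → Fin n → ℝ |
        σ * ‖a‖ ≤ ‖∑ i, a i • simpleTensor (X i)‖} := by
    ext X
    rw [Set.mem_iInter]
    exact Iff.rfl
  rw [h1]
  refine isClosed_iInter fun a => isClosed_le continuous_const ?_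
  refine continuous_norm.comp (continuous_finsetSum _ fun i _ => ?_)
  exact (measgood_cont i).const_smul (a i)

end Pool.Agent.MP_2a72d7_pr.Sm
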