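import Mathlib
import Pool.Agent.MP_2a72d7_pr.Defs
import Pool.Agent.MP_2a72d7_pr.Sm.Base
import Pool.Agent.MP_2a72d7_pr.Sm.P_frob
import Pool.Agent.MP_2a72d7_pr.Sm.P_frobge
import Pool.Agent.MP_2a72d7_pr.Sm.P_meas

namespace Pool.Agent.MP_2a72d7_pr.Sm

open MeasureTheory Matrix

/-- Markov. -/
theorem prob_small {L M ε : ℝ} (hM : 0 < M) (hε : 0 < ε) (hε1 : ε < 1) :
    ∃ C : ℝ, 1 ≤ C ∧ ∃ n₀ : ℕ, ∀ n ≥ n₀, ∀ (d : ℕ) (ν : Fin d → Fin n → Measure ℝ),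
      (∀ k i, Admissible L (ν k i)) → (∀ k i, ν k i ≤ ENNReal.ofReal M • volume) →
      ∀ m : ℕ, (m : ℝ) ≤ (1 - ε) * (n : ℝ) ^ d → ∀ σ : ℝ, 0 < σ →
      (Measure.pi fun _ : Fin m => tenLaw ν)
          {X | ¬ SigmaMinGE (fun i => simpleTensor (X i)) σ} ≤
        ENNReal.ofReal (σ ^ 4 * (C ^ (d + 1) / (n : ℝ) ^ d)) := by
  obtain ⟨C, hC, n₀, hn₀⟩ := frob (L := L) hM hε hε1
  refine ⟨4 * C, by linarith, n₀, ?_⟩
  intro n hn d ν hν hνM m hm σ hσ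
  have h1 := hn₀ n hn d ν hν hνM m hm (σ ^ 2) (by positivity)
  have hσ4 : 0 ≤ 4 * σ ^ 4 := by positivity
  have hmeas : Measurable fun X : Fin m → Fin d → Fin n → ℝ =>
      ENNReal.ofReal (∑ i, ∑ j, ((Rg (Zm X) (σ ^ 2))⁻¹ i j) ^ 2) := by
    apply ENNReal.measurable_ofReal.comp
    exact Finset.measurable_fun_sum _ fun i _ => Finset.measurable_fun_sum _ fun j _ =>
      (measurable_Rg_inv (σ ^ 2) i j).pow_const 2
  calc (Measure.pi fun _ : Fin m => tenLaw ν)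
          {X | ¬ SigmaMinGE (fun i => simpleTensor (X i)) σ}
      ≤ (Measure.pi fun _ : Fin m => tenLaw ν) {X | 1 ≤ ENNReal.ofReal (4 * σ ^ 4) *
          ENNReal.ofReal (∑ i, ∑ j, ((Rg (Zm X) (σ ^ 2))⁻¹ i j) ^ 2)} := by
        apply measure_mono
        intro X hX
        have h2 := frob_ge X σ hσ hX
        show 1 ≤ ENNReal.ofReal (4 * σ ^ 4) *
          ENNReal.ofReal (∑ i, ∑ j, ((Rg (Zm X) (σ ^ 2))⁻¹ i j) ^ 2)
        rw [← ENNReal.ofReal_mul hσ4, ← ENNReal.ofReal_one]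
        exact ENNReal.ofReal_le_ofReal h2
    _ = 1 * (Measure.pi fun _ : Fin m => tenLaw ν) {X | 1 ≤ ENNReal.ofReal (4 * σ ^ 4) *
          ENNReal.ofReal (∑ i, ∑ j, ((Rg (Zm X) (σ ^ 2))⁻¹ i j) ^ 2)} := (one_mul _).symm
    _ ≤ ∫⁻ X, ENNReal.ofReal (4 * σ ^ 4) *
          ENNReal.ofReal (∑ i, ∑ j, ((Rg (Zm X) (σ ^ 2))⁻¹ i j) ^ 2)
          ∂(Measure.pi fun _ : Fin m => tenLaw ν) :=
        mul_meas_ge_le_lintegral₀ (hmeas.const_mul _).aemeasurable 1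
    _ = ENNReal.ofReal (4 * σ ^ 4) *
          ∫⁻ X, ENNReal.ofReal (∑ i, ∑ j, ((Rg (Zm X) (σ ^ 2))⁻¹ i j) ^ 2)
          ∂(Measure.pi fun _ : Fin m => tenLaw ν) := lintegral_const_mul _ hmeas
    _ ≤ ENNReal.ofReal (4 * σ ^ 4) * ENNReal.ofReal (C ^ (d + 1) / (n : ℝ) ^ d) := by
        gcongr
    _ = ENNReal.ofReal (4 * σ ^ 4 * (C ^ (d + 1) / (n : ℝ) ^ d)) :=
        (ENNReal.ofReal_mul hσ4).symm
    _ ≤ ENNReal.ofReal (σ ^ 4 * ((4 * C) ^ (d + 1) / (n : ℝ) ^ d)) := by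
        apply ENNReal.ofReal_le_ofReal
        have h3 : 4 * C ^ (d + 1) ≤ (4 * C) ^ (d + 1) := by
          rw [mul_pow]
          have h4 : (4 : ℝ) ≤ 4 ^ (d + 1) := by
            calc (4 : ℝ) = 4 ^ 1 := (pow_one _).symm
              _ ≤ 4 ^ (d + 1) := pow_le_pow_right₀ (by norm_num) (by omega)
          exact mul_le_mul_of_nonneg_right h4 (by positivity)
        have h5 : 4 * σ ^ 4 * (C ^ (d + 1) / (n : ℝ) ^ d) =
            σ ^ 4 * ((4 * C ^ (d + 1)) / (n : ℝ) ^ d) := by ring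
        rw [h5]
        gcongr

end Pool.Agent.MP_2a72d7_pr.Sm
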